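import Pool.Agent.MP_79e5e2_lc.Net

/-! A checker for bounds on boards given as bit masks. -/

namespace Pool.Agent.MP_79e5e2_lc

noncomputable section

/-- The set of bits of a number. -/
def bits (m : ℕ) : Finset ℕ := (Finset.range m).filter fun i => m.testBit i = true

theorem mem_bits {m i : ℕ} : i ∈ bits m ↔ m.testBit i = true := by
  simp only [bits, Finset.mem_filter, Finset.mem_range, and_iff_right_iff_imp]
  intro h
  exact lt_of_lt_of_le Nat.lt_two_pow_self (Nat.ge_two_pow_of_testBit h)

/-- Evaluate `x` before passing it on. -/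
def force {α : Type} (x : ℕ) (k : ℕ → α) : α := Nat.rec (k 0) (fun n _ => k (Nat.succ n)) x

theorem force_eq {α : Type} (x : ℕ) (k : ℕ → α) : force x k = k x := by cases x <;> rfl

/-- One step of the binary search for the top bit. -/
def lgs (s : ℕ) (k : ℕ → ℕ → ℕ) (x a : ℕ) : ℕ :=
  Nat.rec (k x a) (fun n _ => k (Nat.succ n) (Nat.add a s)) (Nat.shiftRight x s)

/-- Position of the top bit (no property is needed). -/
def lg (x : ℕ) : ℕ :=
  lgs 4096 (lgs 2048 (lgs 1024 (lgs 512 (lgs 256 (lgs 128 (lgs 64 (lgs 32 (lgs 16 (lgs 8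
    (lgs 4 (lgs 2 (lgs 1 fun _ a => a)))))))))))) x 0

/-- Flood fill (no property is needed). -/
def ff (m fuel : ℕ) : ℕ → ℕ :=
  Nat.rec (fun c => c) (fun _ ih c =>
    force (Nat.land (Nat.lor (Nat.lor (Nat.lor c (Nat.shiftLeft c 1)) (Nat.shiftRight c 1))
      (Nat.lor (Nat.shiftLeft c 16) (Nat.shiftRight c 16))) m)
      fun c' => cond (Nat.beq c' c) c (ih c')) fuel

/-- Cells with a neighbour. -/
def nbr (m : ℕ) : ℕ :=
  Nat.lor (Nat.lor (Nat.shiftLeft m 1) (Nat.shiftRight m 1))
    (Nat.lor (Nat.shiftLeft m 16) (Nat.shiftRight m 16))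

/-- First cells of the dominoes with step `d`. -/
def dom (d m : ℕ) : ℕ := Nat.land m (Nat.shiftRight m d)

theorem testBit_dom (d m i : ℕ) : (dom d m).testBit i = (m.testBit i && m.testBit (i + d)) := by
  change (m &&& m >>> d).testBit i = _
  rw [Nat.testBit_and, Nat.testBit_shiftRight, add_comm]

/-- Search trees of numbers. -/
inductive Tr : Type
  | leaf : Tr
  | node (l : Tr) (e p : ℕ) (r : Tr) : Tr

/-- Look up the entry with a given key; `0` if there is none. -/
def Tr.find (T : Tr) (k : ℕ) : ℕ :=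
  T.rec 0 fun _ e _ _ il ir =>
    cond (Nat.ble k (Nat.shiftRight e 34)) (cond (Nat.beq k (Nat.shiftRight e 34)) e il) ir

/-- All entries pass a test. -/
def Tr.all (T : Tr) (f : ℕ → ℕ → Bool) : Bool :=
  T.rec true fun _ e p _ il ir => f e p && (il && ir)

theorem Tr.all_node (l r : Tr) (e p : ℕ) (f : ℕ → ℕ → Bool) (h1 : f e p = true)
    (h2 : l.all f = true) (h3 : r.all f = true) : (Tr.node l e p r).all f = true := by
  change (f e p && (l.all f && r.all f)) = true
  simp [h1, h2, h3]

theorem Tr.find_spec {f : ℕ → ℕ → Bool} {k : ℕ} : ∀ T : Tr, T.all f = true → T.find k ≠ 0 →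
    (∃ p, f (T.find k) p = true) ∧ (T.find k) >>> 34 = k := by
  intro T
  induction T with
  | leaf => intro _ h; exact absurd rfl h
  | node l e p r ihl ihr =>
    intro h
    change (f e p && (l.all f && r.all f)) = true at h
    simp only [Bool.and_eq_true] at h
    have : (Tr.node l e p r).find k = cond (Nat.ble k (e >>> 34))
      (cond (Nat.beq k (e >>> 34)) e (l.find k)) (r.find k) := rfl
    rw [this]
    cases h1 : Nat.ble k (e >>> 34)
    · exact ihr h.2.2
    · cases h2 : Nat.beq k (e >>> 34)
      · exact ihl h.2.1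
      · exact fun _ => ⟨⟨p, h.1⟩, (Nat.eq_of_beq_eq_true h2).symm⟩

/-- Upper bound stored in an entry. -/
def eU (e : ℕ) : ℤ := Int.subNatNat (Nat.land (Nat.shiftRight e 17) 255) 128
/-- Strict bound stored in an entry. -/
def eR (e : ℕ) : ℤ := Int.subNatNat (Nat.land (Nat.shiftRight e 9) 255) 128

/-- Both bounds hold. -/
def Both (m : ℕ) (u r : ℤ) : Prop := Bd false {At.brd (bits m)} u ∧ Bd true {At.brd (bits m)} r

/-- Bounds by splitting into components. -/
def bnd0 (T : Tr) (lim fuel : ℕ) : ℕ → (ℤ → ℤ → Bool) → Bool :=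
  Nat.rec (fun _ _ => false) (fun _ ih m K =>
    cond (Nat.beq m 0) (K 0 1)
      (force (Nat.xor m (Nat.land m (Nat.pred m))) fun lo =>
        force (Nat.land m (ff m 60 lo)) fun c =>
          force (lg lo) fun k =>
            force (Nat.shiftRight c k) fun a =>
              force (Nat.xor m c) fun rest =>
                force (T.find a) fun e =>
                  (Nat.beq (Nat.shiftLeft a k) c && (Nat.blt a lim && (!Nat.beq e 0 &&
                    Nat.beq (dom 1 m) (Nat.lor (dom 1 c) (dom 1 rest))))) &&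
                  ih rest fun U R => K (eU e + U) (min (eR e + U) (eU e + R)))) fuel

theorem bnd0_succ (T : Tr) (lim n m : ℕ) (K : ℤ → ℤ → Bool) : bnd0 T lim (n + 1) m K =
    cond (Nat.beq m 0) (K 0 1)
      (force (Nat.xor m (Nat.land m (Nat.pred m))) fun lo =>
        force (Nat.land m (ff m 60 lo)) fun c =>
          force (lg lo) fun k =>
            force (Nat.shiftRight c k) fun a =>
              force (Nat.xor m c) fun rest =>
                force (T.find a) fun e =>
                  (Nat.beq (Nat.shiftLeft a k) c && (Nat.blt a lim && (!Nat.beq e 0 &&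
                    Nat.beq (dom 1 m) (Nat.lor (dom 1 c) (dom 1 rest))))) &&
                  bnd0 T lim n rest fun U R =>
                    K (eU e + U) (min (eR e + U) (eU e + R))) := rfl

/-- Bounds, isolated cells being dropped first. -/
def bnd (T : Tr) (lim m : ℕ) (K : ℤ → ℤ → Bool) : Bool :=
  force (Nat.land m (nbr m)) fun m' => bnd0 T lim 40 m' K

theorem bits_zero : bits 0 = ∅ := by simp [bits]

theorem bnd0_sound {T : Tr} {lim : ℕ}
    (hT : ∀ a < lim, T.find a ≠ 0 → Both a (eU (T.find a)) (eR (T.find a))) (fuel : ℕ) :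
    ∀ m K, bnd0 T lim fuel m K = true → ∃ U R, K U R = true ∧ Both m U R := by
  induction fuel with
  | zero => intro m K h; cases h
  | succ n ih =>
    intro m K h
    simp only [bnd0_succ, force_eq] at h
    cases h0 : Nat.beq m 0
    · rw [h0, cond_false] at h
      generalize Nat.xor m (Nat.land m (Nat.pred m)) = lo at h
      generalize ff m 60 lo = f at h
      generalize lg lo = k at h
      set c := Nat.land m f with hc
      set a := Nat.shiftRight c k
      simp only [Bool.and_eq_true, Nat.beq_eq, Nat.blt_eq, Bool.not_eq_true'] at h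
      obtain ⟨⟨h1, h2, h3, h4⟩, h5⟩ := h
      obtain ⟨U, R, h6, h7⟩ := ih _ _ h5
      have h8 := hT a h2 (fun e => by rw [e] at h3; cases h3)
      have hs : Split k (bits a) (bits (Nat.xor m c)) (bits m) := by
        have e1 : ∀ i, c.testBit (i + k) = a.testBit i := fun i => by
          rw [← h1]
          change (a <<< k).testBit _ = _
          simp [Nat.testBit_shiftLeft]
        have e2 : ∀ i, c.testBit i = (m.testBit i && f.testBit i) := fun i => Nat.testBit_and ..
        have e3 : ∀ i, (Nat.xor m c).testBit i = (m.testBit i ^^ c.testBit i) :=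
          fun i => Nat.testBit_xor ..
        refine Split.of_disj (fun i hi => ?_) (fun i hi => ?_) (fun i hi hi' => ?_)
        · simp only [mem_bits, e3] at hi ⊢
          have b1 := e1 i
          have b2 := e2 (i + k)
          rw [hi] at b1
          rw [b1] at b2 ⊢
          revert b2
          cases m.testBit (i + k) <;> simp
        · simp only [mem_bits, e3, e2] at hi ⊢
          cases b3 : m.testBit i <;> simp_all
        · simp only [mem_bits] at hi hi' ⊢
          have b1 := congrArg (fun x => Nat.testBit x i) h4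
          change _ = (dom 1 c ||| dom 1 (Nat.xor m c)).testBit i at b1
          simp only [Nat.testBit_or, testBit_dom, hi, hi', Bool.and_self] at b1
          rcases Bool.or_eq_true_iff.1 b1.symm with b2 | b2
          · left
            simp only [Bool.and_eq_true] at b2
            have b3 : k ≤ i := by
              have := b2.1
              rw [← h1] at this
              change (a <<< k).testBit _ = _ at this
              simp only [Nat.testBit_shiftLeft, Bool.and_eq_true, decide_eq_true_eq] at this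
              exact this.1
            obtain ⟨j, rfl⟩ := Nat.exists_eq_add_of_le' b3
            exact ⟨j, rfl, e1 j ▸ b2.1, by rw [← e1, show j + 1 + k = j + k + 1 by ring]; exact b2.2⟩
          · exact Or.inr (by simpa using b2)
      refine ⟨_, _, h6, Bd.split hs (h8.1.add h7.1 le_rfl), Bd.split hs ?_⟩
      rcases le_total (eR (T.find a) + U) (eU (T.find a) + R) with b | b
      · exact h8.2.add h7.1 (by omega)
      · exact h8.1.add' h7.2 (by omega)
    · rw [h0, cond_true] at h
      obtain rfl := Nat.eq_of_beq_eq_true h0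
      refine ⟨0, 1, h, ?_⟩
      rw [Both, bits_zero]
      exact ⟨Bd.empty, Bd.empty.strict (by omega)⟩

theorem bnd_sound {T : Tr} {lim : ℕ}
    (hT : ∀ a < lim, T.find a ≠ 0 → Both a (eU (T.find a)) (eR (T.find a))) {m : ℕ}
    {K : ℤ → ℤ → Bool} (h : bnd T lim m K = true) : ∃ U R, K U R = true ∧ Both m U R := by
  rw [bnd, force_eq] at h
  obtain ⟨U, R, h1, h2⟩ := bnd0_sound hT _ _ _ h
  have hs : Split 0 ∅ (bits (Nat.land m (nbr m))) (bits m) := by
    have e : ∀ i, (Nat.land m (nbr m)).testBit i = (m.testBit i && (nbr m).testBit i) :=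
      fun i => Nat.testBit_and ..
    refine Split.of_disj (by simp) (fun i hi => ?_) (fun i hi hi' => Or.inr ?_)
    · simp only [mem_bits, e, Bool.and_eq_true] at hi ⊢
      exact hi.1
    · simp only [mem_bits, e, Bool.and_eq_true] at hi hi' ⊢
      refine ⟨⟨hi, ?_⟩, hi', ?_⟩
      · change ((m <<< 1 ||| m >>> 1) ||| (m <<< 16 ||| m >>> 16)).testBit i = true
        simp [Nat.testBit_shiftRight, add_comm 1 i, hi']
      · change ((m <<< 1 ||| m >>> 1) ||| (m <<< 16 ||| m >>> 16)).testBit (i + 1) = true
        simp [Nat.testBit_shiftLeft, hi]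
  exact ⟨U, R, h1, Bd.split hs (Bd.empty.add' h2.1 (by omega)),
    Bd.split hs (Bd.empty.add' h2.2 (by omega))⟩

/-- A test holds for all bits. -/
def allBits (f : ℕ → Bool) (fuel : ℕ) : ℕ → Bool :=
  Nat.rec (fun _ => false) (fun _ ih d =>
    cond (Nat.beq d 0) true (force (lg d) fun i =>
      f i && force (Nat.xor d (Nat.shiftLeft 1 i)) ih)) fuel

theorem allBits_sound {f : ℕ → Bool} (fuel : ℕ) : ∀ d, allBits f fuel d = true →
    ∀ i, d.testBit i = true → f i = true := by
  induction fuel with
  | zero => intro d h; cases h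
  | succ n ih =>
    intro d h i hi
    change cond (Nat.beq d 0) true (force (lg d) fun i =>
      f i && force (Nat.xor d (Nat.shiftLeft 1 i)) (allBits f n)) = true at h
    simp only [force_eq] at h
    cases h0 : Nat.beq d 0
    · rw [h0, cond_false, Bool.and_eq_true] at h
      by_cases e : i = lg d
      · exact e ▸ h.1
      · refine ih _ h.2 i ?_
        change (d ^^^ 1 <<< (lg d)).testBit i = true
        simp [Nat.testBit_xor, hi, Nat.one_shiftLeft, Ne.symm e]
    · obtain rfl := Nat.eq_of_beq_eq_true h0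
      simp at hi

/-- A test holds for some number (a bit of `d`). -/
def anyBits (f : ℕ → Bool) (fuel : ℕ) : ℕ → Bool :=
  Nat.rec (fun _ => false) (fun _ ih d =>
    cond (Nat.beq d 0) false (force (lg d) fun i =>
      f i || force (Nat.xor d (Nat.shiftLeft 1 i)) ih)) fuel

theorem anyBits_sound {f : ℕ → Bool} (fuel : ℕ) : ∀ d, anyBits f fuel d = true →
    ∃ i, f i = true := by
  induction fuel with
  | zero => intro d h; cases h
  | succ n ih =>
    intro d h
    change cond (Nat.beq d 0) false (force (lg d) fun i =>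
      f i || force (Nat.xor d (Nat.shiftLeft 1 i)) (anyBits f n)) = true at h
    simp only [force_eq] at h
    cases h0 : Nat.beq d 0
    · rw [h0, cond_false, Bool.or_eq_true] at h
      rcases h with h | h
      · exact ⟨_, h⟩
      · exact ih _ h
    · rw [h0] at h
      cases h

/-- Remove bit `i`. -/
def rm (m i : ℕ) : ℕ := Nat.xor m (Nat.land m (Nat.shiftLeft 1 i))

theorem bits_rm (m i : ℕ) : bits (rm m i) = (bits m).erase i := by
  ext j
  rw [Finset.mem_erase, mem_bits, mem_bits]
  change (m ^^^ (m &&& 1 <<< i)).testBit j = true ↔ _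
  rw [Nat.testBit_xor, Nat.testBit_and, Nat.one_shiftLeft, Nat.testBit_two_pow]
  by_cases e : i = j
  · simp [e]
  · simp [e, Ne.symm e]

/-- The result of a move. -/
def mvm (d m i : ℕ) : ℕ := rm (rm m i) (i + d)

theorem bits_mvm (d m i : ℕ) : bits (mvm d m i) = ((bits m).erase i).erase (i + d) := by
  rw [mvm, bits_rm, bits_rm]

/-- Bit test. -/
def tb (m i : ℕ) : Bool := Nat.beq (Nat.land (Nat.shiftRight m i) 1) 1

theorem tb_eq (m i : ℕ) : tb m i = m.testBit i := by
  rw [Bool.eq_iff_iff, tb, Nat.beq_eq, Nat.testBit_eq_decide_div_mod_eq, decide_eq_true_eq]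
  change (m >>> i) &&& 1 = 1 ↔ _
  rw [Nat.and_one_is_mod, Nat.shiftRight_eq_div_pow]

/-- All moves of the second player pass a test. -/
def allY (m : ℕ) (f : ℕ → Bool) : Bool := allBits (fun i => force (mvm 1 m i) f) 99 (dom 1 m)

theorem allY_sound {m : ℕ} {f : ℕ → Bool} (h : allY m f = true) {t : Finset ℕ}
    (ht : BMv false (bits m) t) : ∃ m', t = bits m' ∧ f m' = true := by
  obtain ⟨i, h1, h2, rfl⟩ := ht
  have := allBits_sound _ _ h i (by
    rw [testBit_dom, mem_bits.1 h1]
    exact mem_bits.1 h2)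
  rw [force_eq] at this
  exact ⟨_, (bits_mvm 1 m i).symm, this⟩

/-- The move at `i` of the first player is legal and passes a test. -/
def xAt (m : ℕ) (f : ℕ → Bool) (i : ℕ) : Bool := tb (dom 16 m) i && force (mvm 16 m i) f

theorem xAt_sound {m i : ℕ} {f : ℕ → Bool} (h : xAt m f i = true) :
    ∃ m', BMv true (bits m) (bits m') ∧ f m' = true := by
  rw [xAt, Bool.and_eq_true, tb_eq, testBit_dom, Bool.and_eq_true, force_eq] at h
  exact ⟨_, ⟨i, mem_bits.2 h.1.1, mem_bits.2 h.1.2, bits_mvm 16 m i⟩, h.2⟩

/-- Some move of the first player passes a test. -/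
def anyX (m : ℕ) (f : ℕ → Bool) : Bool := anyBits (xAt m f) 99 (dom 16 m)

theorem anyX_sound {m : ℕ} {f : ℕ → Bool} (h : anyX m f = true) :
    ∃ m', BMv true (bits m) (bits m') ∧ f m' = true := by
  obtain ⟨i, hi⟩ := anyBits_sound _ _ h
  exact xAt_sound hi

/-- Cells in a domino of the first player. -/
def xact (p : ℕ) : ℕ := Nat.lor (dom 16 p) (Nat.shiftLeft (dom 16 p) 16)

theorem xact_spec {p i : ℕ} (h1 : p.testBit i = true) (h2 : p.testBit (i + 16) = true) :
    (xact p).testBit i = true ∧ (xact p).testBit (i + 16) = true := by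
  change (dom 16 p ||| dom 16 p <<< 16).testBit i = true ∧
    (dom 16 p ||| dom 16 p <<< 16).testBit (i + 16) = true
  simp [Nat.testBit_shiftLeft, testBit_dom, h1, h2]

theorem sub_of_land {a b i : ℕ} (h : Nat.beq (Nat.land a b) a = true) (hi : a.testBit i = true) :
    b.testBit i = true := by
  have := congrArg (fun x => Nat.testBit x i) (Nat.eq_of_beq_eq_true h)
  change (a &&& b).testBit i = _ at this
  simpa [hi] using this

theorem disj_of_land {a b i : ℕ} (h : Nat.beq (Nat.land a b) 0 = true) (hi : a.testBit i = true) :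
    b.testBit i = false := by
  have := congrArg (fun x => Nat.testBit x i) (Nat.eq_of_beq_eq_true h)
  change (a &&& b).testBit i = _ at this
  simpa [hi] using this

/-- Bounds by a given splitting. -/
def spl (T : Tr) (m p q : ℕ) (K : ℤ → ℤ → Bool) : Bool :=
  (Nat.beq (Nat.land (xact p) m) (xact p) && (Nat.beq (Nat.land (xact p) q) 0 &&
    (Nat.beq (Nat.land (xact q) m) (xact q) && (Nat.beq (Nat.land (xact q) p) 0 &&
      Nat.beq (Nat.land (dom 1 m) (Nat.lor (dom 1 p) (dom 1 q))) (dom 1 m))))) &&
  bnd T m p fun U R => bnd T m q fun U' R' => K (U + U') (min (R + U') (U + R'))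

theorem spl_sound {T : Tr} {m p q : ℕ}
    (hT : ∀ a < m, T.find a ≠ 0 → Both a (eU (T.find a)) (eR (T.find a)))
    {K : ℤ → ℤ → Bool} (h : spl T m p q K = true) : ∃ U R, K U R = true ∧ Both m U R := by
  simp only [spl, Bool.and_eq_true] at h
  obtain ⟨⟨h1, h2, h3, h4, h5⟩, h6⟩ := h
  obtain ⟨U, R, h7, h8⟩ := bnd_sound hT h6
  obtain ⟨U', R', h9, h10⟩ := bnd_sound hT h7
  have hs : Split 0 (bits p) (bits q) (bits m) := by
    refine ⟨fun i hi hi' => ?_, fun i hi hi' => ?_, fun i hi hi' => ?_⟩
    · simp only [mem_bits, add_zero] at hi hi' ⊢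
      have := xact_spec hi hi'
      simp [sub_of_land h1 this.1, sub_of_land h1 this.2, disj_of_land h2 this.1,
        disj_of_land h2 this.2]
    · simp only [mem_bits, add_zero] at hi hi' ⊢
      have := xact_spec hi hi'
      refine ⟨sub_of_land h3 this.1, sub_of_land h3 this.2, fun j hj => ⟨?_, ?_⟩⟩
      · rintro rfl
        rw [disj_of_land h4 this.1] at hj
        cases hj
      · rintro rfl
        rw [disj_of_land h4 this.2] at hj
        cases hj
    · simp only [mem_bits, add_zero] at hi hi' ⊢
      have := sub_of_land (i := i) h5 (by rw [testBit_dom, hi, hi']; rfl)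
      change (dom 1 p ||| dom 1 q).testBit i = true at this
      simpa [testBit_dom] using this
  refine ⟨_, _, h9, Bd.split hs (h8.1.add h10.1 le_rfl), Bd.split hs ?_⟩
  rcases le_total (R + U') (U + R') with b | b
  · exact h8.2.add h10.1 (by omega)
  · exact h8.1.add' h10.2 (by omega)

/-- The test for one entry of the table. -/
def chk (T : Tr) (e p : ℕ) : Bool :=
  force (Nat.shiftRight e 34) fun m =>
    force (Nat.lor (Nat.xor m p)
      (Nat.shiftRight (Nat.shiftLeft 1 (Nat.land (Nat.shiftRight e 25) 511)) 1)) fun q =>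
    cond (Nat.beq p 0)
      (allY m (fun t => bnd T m t fun _ R => decide (R ≤ eU e)) &&
        ((decide (eU e % 8 = 0) && decide (0 ≤ eU e)) ||
          xAt m (fun t => bnd T m t fun U _ => decide (U ≤ eU e + low (eU e))) (Nat.land e 511)))
      (spl T m p q fun U _ => decide (U ≤ eU e)) &&
    (decide (eU e < eR e) ||
      (xAt m (fun t => bnd T m t fun U _ => decide (U ≤ eR e)) (Nat.land e 511) ||
        spl T m p q fun _ R => decide (R ≤ eR e)))

theorem table_sound {T : Tr} (h : T.all (chk T) = true) :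
    ∀ a, T.find a ≠ 0 → Both a (eU (T.find a)) (eR (T.find a)) := by
  intro a
  induction a using Nat.strong_induction_on with
  | _ a ih =>
    intro ha
    obtain ⟨⟨p, h1⟩, h2⟩ := Tr.find_spec T h ha
    generalize T.find a = e at h1 h2
    rw [chk, force_eq, force_eq] at h1
    rw [show Nat.shiftRight e 34 = a from h2, Bool.and_eq_true] at h1
    have hx : ∀ x i, xAt a (fun t => bnd T a t fun U _ => decide (U ≤ x)) i = true →
        Bd true {At.brd (bits a)} x := by
      intro x i h3
      obtain ⟨m', h4, h5⟩ := xAt_sound h3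
      obtain ⟨U, R, h6, h7⟩ := bnd_sound ih h5
      exact (Bd.of_move h4 h7.1).mono (of_decide_eq_true h6)
    have hu : Bd false {At.brd (bits a)} (eU e) := by
      have h3 := h1.1
      cases h0 : Nat.beq p 0
      · rw [h0, cond_false] at h3
        obtain ⟨U, R, h4, h5⟩ := spl_sound ih h3
        exact h5.1.mono (of_decide_eq_true h4)
      · rw [h0, cond_true, Bool.and_eq_true] at h3
        refine Bd.of_moves (fun t ht => ?_) fun h4 => ?_
        · obtain ⟨m', rfl, h4⟩ := allY_sound h3.1 ht
          obtain ⟨U, R, h5, h6⟩ := bnd_sound ih h4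
          exact h6.2.mono (of_decide_eq_true h5)
        · rcases Bool.or_eq_true_iff.1 h3.2 with h5 | h5
          · simp only [Bool.and_eq_true, decide_eq_true_eq] at h5
            omega
          · exact hx _ _ h5
    refine ⟨hu, ?_⟩
    rcases Bool.or_eq_true_iff.1 h1.2 with h3 | h3
    · exact hu.strict (of_decide_eq_true h3)
    · rcases Bool.or_eq_true_iff.1 h3 with h4 | h4
      · exact hx _ _ h4
      · obtain ⟨U, R, h5, h6⟩ := spl_sound ih h4
        exact h6.2.mono (of_decide_eq_true h5)

/-- Computable description of a kind of piece. -/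
structure KD where
  mask : ℕ
  stub : List ℕ
  n : ℤ
  inp : List (ℕ × ℕ)
  out : List (ℕ × ℕ × ℕ)
  rq : List Req
  lab : List (List ℕ)
  cert : List ℕ

namespace KD
variable (D : KD)

/-- The requirement number `i`. -/
def req (i : ℕ) : Req := D.rq.getD i ⟨0, [], 0⟩

/-- The kind. -/
def kind : Kind :=
  ⟨bits D.mask, D.stub, D.n, D.inp, D.out, fun L => (D.lab.getD L []).map D.req⟩

/-- Membership in the certificate. -/
def has (c m : ℕ) : Bool := force (m * 64 + c) fun x => D.cert.rec false fun a _ ih => Nat.beq a x || ih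

theorem has_iff (c m : ℕ) : D.has c m = true ↔ m * 64 + c ∈ D.cert := by
  rw [has, force_eq]
  induction D.cert with
  | nil => simp
  | cons a l ih =>
    rw [List.mem_cons, ← ih]
    change (Nat.beq a _ || _) = true ↔ _
    rw [Bool.or_eq_true, Nat.beq_eq, eq_comm]

/-- Decoding of tags. -/
def tag (c : ℕ) : Tag :=
  if c % 3 = 0 then .rest (c / 3) else if c % 3 = 1 then .wy (D.req (c / 3)) else .wx (D.req (c / 3))

/-- The states listed in the certificate. -/
def R (t : Tag) (s : Finset ℕ) : Prop := ∃ c < 64, ∃ m, D.has c m = true ∧ t = D.tag c ∧ s = bits m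

/-- The test for one state. -/
def chk1 (T : Tr) (x : ℕ) : Bool :=
  force (x / 64) fun m => force (x % 64) fun c =>
    if c % 3 = 0 then
      bnd T (2 ^ 400) m (fun U _ => decide (U ≤ D.n)) &&
      (allY m (fun t => bnd T (2 ^ 400) t (fun _ R => decide (R ≤ D.n - 3)) ||
        anyX t (D.has c)) &&
      (D.lab.getD (c / 3) []).all fun i =>
        decide (i < 21) && D.has (3 * i + 1) (rm m (D.kind.iz (D.req i).port)))
    else if c % 3 = 1 then
      bnd T (2 ^ 400) m (fun U _ => decide (U ≤ D.n - 4)) ||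
      (((D.req (c / 3)).good.any fun o => tb m (D.kind.om o) && (tb m (D.kind.oz o) &&
        (!tb m (D.kind.oc o) && (decide ((D.req (c / 3)).next < 21) &&
          D.has (3 * (D.req (c / 3)).next) m)))) ||
      (bnd T (2 ^ 400) m (fun U _ => decide (U ≤ D.n - 1)) &&
        (decide (c < 63) && allY m (D.has (c + 1)))))
    else
      bnd T (2 ^ 400) m (fun _ R => decide (R ≤ D.n - 4)) || anyX m (D.has (c - 1))

theorem closed {T : Tr} (hT : T.all (chk T) = true) (h : D.cert.all (D.chk1 T) = true) :
    D.kind.Closed D.R := by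
  have hT' : ∀ a < 2 ^ 400, T.find a ≠ 0 → Both a (eU (T.find a)) (eR (T.find a)) :=
    fun a _ => table_sound hT a
  have hU : ∀ m x, bnd T (2 ^ 400) m (fun U _ => decide (U ≤ x)) = true →
      Bd false {At.brd (bits m)} x := fun m x h => by
    obtain ⟨U, R, h1, h2⟩ := bnd_sound hT' h
    exact h2.1.mono (of_decide_eq_true h1)
  have hR : ∀ m x, bnd T (2 ^ 400) m (fun _ R => decide (R ≤ x)) = true →
      Bd true {At.brd (bits m)} x := fun m x h => by
    obtain ⟨U, R, h1, h2⟩ := bnd_sound hT' h
    exact h2.2.mono (of_decide_eq_true h1)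
  have key : ∀ c < 64, ∀ m, D.has c m = true → D.chk1 T (m * 64 + c) = true :=
    fun c _ m hm => List.all_eq_true.1 h _ ((D.has_iff c m).1 hm)
  have e1 : ∀ c < 64, ∀ m, (m * 64 + c) / 64 = m := fun c hc m => by omega
  have e2 : ∀ c < 64, ∀ m, (m * 64 + c) % 64 = c := fun c hc m => by omega
  refine ⟨?_, ?_, ?_⟩
  · rintro L _ ⟨c, hc, m, h1, h2, rfl⟩
    have h3 := key c hc m h1
    simp only [chk1, force_eq, e1 c hc, e2 c hc] at h3
    have h4 : c % 3 = 0 ∧ L = c / 3 := by
      unfold tag at h2
      split_ifs at h2 with a b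
      exact ⟨a, by injection h2⟩
    rw [if_pos h4.1] at h3
    simp only [Bool.and_eq_true] at h3
    refine ⟨hU _ _ h3.1, fun t ht => ?_, fun q hq => ?_⟩
    · obtain ⟨m', rfl, h5⟩ := allY_sound h3.2.1 ht
      rcases Bool.or_eq_true_iff.1 h5 with h6 | h6
      · exact Or.inl (hR _ _ h6)
      · obtain ⟨m'', h7, h8⟩ := anyX_sound h6
        exact Or.inr ⟨_, h7, c, hc, m'', h8, h2, rfl⟩
    · obtain ⟨i, hi, rfl⟩ := List.mem_map.1 hq
      have h5 := List.all_eq_true.1 h3.2.2 i (h4.2 ▸ hi)
      simp only [Bool.and_eq_true, decide_eq_true_eq] at h5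
      refine ⟨3 * i + 1, by omega, _, h5.2, ?_, (bits_rm _ _).symm⟩
      rw [tag, if_neg (by omega), if_pos (by omega), show (3 * i + 1) / 3 = i by omega]
  · rintro q _ ⟨c, hc, m, h1, h2, rfl⟩
    have h3 := key c hc m h1
    simp only [chk1, force_eq, e1 c hc, e2 c hc] at h3
    have h4 : ¬ c % 3 = 0 ∧ c % 3 = 1 ∧ q = D.req (c / 3) := by
      unfold tag at h2
      split_ifs at h2 with a b
      exact ⟨a, b, by injection h2⟩
    rw [if_neg h4.1, if_pos h4.2.1, ← h4.2.2] at h3
    simp only [Bool.or_eq_true, Bool.and_eq_true, List.any_eq_true, tb_eq, decide_eq_true_eq,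
      Bool.not_eq_true'] at h3
    rcases h3 with h3 | ⟨o, ho, h5, h6, h7, h8, h9⟩ | ⟨h5, h6, h7⟩
    · exact Or.inl (hU _ _ h3)
    · refine Or.inr (Or.inl ⟨o, ho, mem_bits.2 h5, mem_bits.2 h6, by simp [mem_bits, h7],
        3 * q.next, by omega, m, h9, ?_, rfl⟩)
      rw [tag, if_pos (by omega), show 3 * q.next / 3 = q.next by omega]
    · refine Or.inr (Or.inr ⟨hU _ _ h5, fun t ht => ?_⟩)
      obtain ⟨m', rfl, h8⟩ := allY_sound h7 ht
      refine ⟨c + 1, by omega, m', h8, ?_, rfl⟩
      rw [tag, if_neg (by omega), if_neg (by omega), show (c + 1) / 3 = c / 3 by omega, h4.2.2]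
  · rintro q _ ⟨c, hc, m, h1, h2, rfl⟩
    have h3 := key c hc m h1
    simp only [chk1, force_eq, e1 c hc, e2 c hc] at h3
    have h4 : ¬ c % 3 = 0 ∧ ¬ c % 3 = 1 ∧ q = D.req (c / 3) := by
      unfold tag at h2
      split_ifs at h2 with a b
      exact ⟨a, b, by injection h2⟩
    rw [if_neg h4.1, if_neg h4.2.1] at h3
    rcases Bool.or_eq_true_iff.1 h3 with h5 | h5
    · exact Or.inl (hR _ _ h5)
    · obtain ⟨m', h6, h7⟩ := anyX_sound h5
      refine Or.inr ⟨_, h6, c - 1, by omega, m', h7, ?_, rfl⟩
      rw [tag, if_neg (by omega), if_pos (by omega), show (c - 1) / 3 = c / 3 by omega, h4.2.2]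

end KD

end

end Pool.Agent.MP_79e5e2_lc
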