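import Mathlib

/-! Sums of finite partisan games: boards on the natural numbers and dyadic numbers. -/

namespace Pool.Agent.MP_79e5e2_lc

/-- `W mv b true a`: player `b`, to move at `a`, wins. `W mv b false a`: player `b` wins when
the opponent is to move. -/
inductive W {α : Type} (mv : Bool → α → α → Prop) (b : Bool) : Bool → α → Prop
  | first {a c : α} : mv b a c → W mv b false c → W mv b true a
  | second {a : α} : (∀ c, mv (!b) a c → W mv b true c) → W mv b false a

section generic
variable {α β : Type} {mv : Bool → α → α → Prop} {mw : Bool → β → β → Prop} {b : Bool}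

theorem W.excl {t : Bool} {a : α} (h : W mv b t a) : ¬ W mv (!b) (!t) a := by
  induction h with
  | first h1 _ ih =>
    intro h2
    cases h2 with
    | second h3 => exact ih (h3 _ (by simpa using h1))
  | second _ ih =>
    intro h2
    cases h2 with
    | first h3 h4 => exact ih _ h3 h4

theorem W.det (rk : α → ℕ) (hrk : ∀ p a c, mv p a c → rk c < rk a) :
    ∀ (a : α) (b : Bool), W mv b true a ∨ W mv (!b) false a := by
  intro a
  induction' h : rk a using Nat.strong_induction_on with n ih generalizing a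
  intro b
  by_cases h1 : ∃ c, mv b a c ∧ W mv b false c
  · obtain ⟨c, h2, h3⟩ := h1
    exact Or.inl (W.first h2 h3)
  · refine Or.inr (W.second fun c hc => ?_)
    rw [Bool.not_not] at hc
    rcases ih _ (h ▸ hrk _ _ _ hc) c rfl (!b) with h2 | h2
    · exact h2
    · rw [Bool.not_not] at h2
      exact absurd ⟨c, hc, h2⟩ h1

theorem W.sim (R : α → β → Prop)
    (h1 : ∀ a c, R a c → ∀ a', mv b a a' → ∃ c', mw b c c' ∧ R a' c')
    (h2 : ∀ a c, R a c → ∀ c', mw (!b) c c' → ∃ a', mv (!b) a a' ∧ R a' c')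
    {t : Bool} {a : α} (h : W mv b t a) : ∀ c, R a c → W mw b t c := by
  induction h with
  | first h3 _ ih =>
    intro c hc
    obtain ⟨c', h4, h5⟩ := h1 _ _ hc _ h3
    exact W.first h4 (ih _ h5)
  | second _ ih =>
    intro c hc
    refine W.second fun c' h3 => ?_
    obtain ⟨a', h4, h5⟩ := h2 _ _ hc _ h3
    exact ih _ h4 _ h5

end generic

/-- Components of a sum. -/
inductive At : Type
  | brd (s : Finset ℕ) : At
  | num (q : ℤ) : At

/-- Distance between the two cells of a domino: `16` for player `true`, `1` for `false`. -/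
def st (p : Bool) : ℕ := if p then 16 else 1

/-- A move on a board. -/
def BMv (p : Bool) (s t : Finset ℕ) : Prop :=
  ∃ i, i ∈ s ∧ i + st p ∈ s ∧ t = (s.erase i).erase (i + st p)

/-- The largest power of two (at most 8) dividing `q`. -/
def low (q : ℤ) : ℤ := if q % 2 ≠ 0 then 1 else if q % 4 ≠ 0 then 2 else if q % 8 ≠ 0 then 4 else 8

/-- A move on the number `q / 8`; player `false` is the positive player. -/
def NMv (p : Bool) (q r : ℤ) : Prop :=
  if p then (q % 8 = 0 → q < 0) ∧ r = q + low q else (q % 8 = 0 → 0 < q) ∧ r = q - low q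

/-- A move on a component. -/
def AMv (p : Bool) : At → At → Prop
  | .brd s, .brd t => BMv p s t
  | .num q, .num r => NMv p q r
  | _, _ => False

/-- A move on a sum. -/
def Mv (p : Bool) (M N : Multiset At) : Prop :=
  ∃ a c R, AMv p a c ∧ M = a ::ₘ R ∧ N = c ::ₘ R

/-- Rank of a component. -/
def rkA : At → ℕ
  | .brd s => s.card
  | .num q => (q.natAbs / 8 + (if q % 2 ≠ 0 then 4 else if q % 4 ≠ 0 then 3
      else if q % 8 ≠ 0 then 2 else 0))

theorem BMv.card_lt {p : Bool} {s t : Finset ℕ} (h : BMv p s t) : t.card < s.card := by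
  obtain ⟨i, h1, -, rfl⟩ := h
  exact lt_of_le_of_lt Finset.card_erase_le (Finset.card_erase_lt_of_mem h1)

theorem AMv.rk_lt {p : Bool} {a c : At} (h : AMv p a c) : rkA c < rkA a := by
  cases a <;> cases c <;> simp only [AMv] at h
  · exact h.card_lt
  · rename_i q r
    simp only [rkA]
    cases p <;> simp only [NMv, low, Bool.false_eq_true, if_false, if_true] at h <;>
      obtain ⟨h1, h2⟩ := h <;> split_ifs at h2 ⊢ <;> omega

/-- Rank of a sum. -/
def rkM (M : Multiset At) : ℕ := (M.map rkA).sum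

theorem rkM_add (M N : Multiset At) : rkM (M + N) = rkM M + rkM N := by simp [rkM]

theorem Mv.rk_lt {p : Bool} {M N : Multiset At} (h : Mv p M N) : rkM N < rkM M := by
  obtain ⟨a, c, R, h1, rfl, rfl⟩ := h
  have := h1.rk_lt
  simp only [rkM, Multiset.map_cons, Multiset.sum_cons]
  omega

theorem Mv.add_right {p : Bool} {M M' : Multiset At} (h : Mv p M M') (N : Multiset At) :
    Mv p (M + N) (M' + N) := by
  obtain ⟨a, c, R, h1, rfl, rfl⟩ := h
  exact ⟨a, c, R + N, h1, by simp, by simp⟩

theorem Mv.of_add {p : Bool} {M N K : Multiset At} (h : Mv p (M + N) K) :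
    (∃ M', Mv p M M' ∧ K = M' + N) ∨ (∃ N', Mv p N N' ∧ K = M + N') := by
  classical
  obtain ⟨a, c, R, h1, h2, rfl⟩ := h
  have : a ∈ M + N := h2 ▸ Multiset.mem_cons_self a R
  rcases Multiset.mem_add.1 this with h3 | h3
  · obtain ⟨M', rfl⟩ := Multiset.exists_cons_of_mem h3
    rw [Multiset.cons_add, Multiset.cons_inj_right] at h2
    subst h2
    exact Or.inl ⟨c ::ₘ M', ⟨a, c, M', h1, rfl, rfl⟩, by simp⟩
  · obtain ⟨N', rfl⟩ := Multiset.exists_cons_of_mem h3
    rw [Multiset.add_cons, Multiset.cons_inj_right] at h2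
    subst h2
    exact Or.inr ⟨c ::ₘ N', ⟨a, c, N', h1, rfl, rfl⟩, by simp⟩

theorem Mv.of_single {p : Bool} {a : At} {K : Multiset At} (h : Mv p {a} K) :
    ∃ c, AMv p a c ∧ K = {c} := by
  obtain ⟨a', c, R, h1, h2, rfl⟩ := h
  have h3 := congrArg Multiset.card h2
  simp only [Multiset.card_singleton, Multiset.card_cons] at h3
  have h4 : R = 0 := Multiset.card_eq_zero.1 (by omega)
  subst h4
  have h5 : a = a' := by simpa using h2
  subst h5
  exact ⟨c, h1, rfl⟩

theorem Mv.single {p : Bool} {a c : At} (h : AMv p a c) : Mv p {a} {c} := ⟨a, c, 0, h, rfl, rfl⟩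

theorem W_add (b : Bool) : ∀ (n : ℕ) (M N : Multiset At), rkM M + rkM N = n → ∀ t,
    W Mv b t M → W Mv b false N → W Mv b t (M + N) := by
  intro n
  induction n using Nat.strong_induction_on with
  | _ n ih =>
    intro M N hn t h1 h2
    cases h1 with
    | first h3 h4 =>
      have := h3.rk_lt
      exact W.first (h3.add_right N) (ih _ (by omega) _ _ rfl _ h4 h2)
    | second h3 =>
      refine W.second fun K hK => ?_
      rcases hK.of_add with ⟨M', h4, rfl⟩ | ⟨N', h4, rfl⟩
      · have := h4.rk_lt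
        exact ih _ (by omega) _ _ rfl _ (h3 _ h4) h2
      · have := h4.rk_lt
        cases h2 with
        | second h5 =>
          rw [add_comm]
          exact ih _ (by omega) _ _ rfl _ (h5 _ h4) (W.second h3)

theorem W.add {b t : Bool} {M N : Multiset At} (h1 : W Mv b t M) (h2 : W Mv b false N) :
    W Mv b t (M + N) := W_add b _ M N rfl t h1 h2

theorem W.cancel {b t : Bool} {M Z : Multiset At} (h1 : W Mv b t (M + Z))
    (h2 : W Mv (!b) false Z) : W Mv b t M := by
  have hd := W.det (mv := Mv) rkM (fun _ _ _ h => Mv.rk_lt h) M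
  cases t with
  | true =>
    rcases hd b with h | h
    · exact h
    · exact absurd (h.add h2) h1.excl
  | false =>
    rcases hd (!b) with h | h
    · exact absurd (h.add h2) h1.excl
    · simpa using h

/-- Sign seen by player `b`. -/
def sg (b : Bool) (q : ℤ) : ℤ := if b then -q else q

theorem low_pos (q : ℤ) : 0 < low q := by unfold low; split_ifs <;> omega

theorem dvd_sum_of_low (d : ℤ) (hd : d = 1 ∨ d = 2 ∨ d = 4 ∨ d = 8) (L : Multiset ℤ)
    (h : ∀ q ∈ L, d ≤ low q) : d ∣ L.sum := by
  refine Multiset.dvd_sum fun q hq => ?_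
  have := h q hq
  unfold low at this
  split_ifs at this <;> rcases hd with rfl | rfl | rfl | rfl <;> omega

theorem sg_sum_cons (b : Bool) (q : ℤ) (L : Multiset ℤ) :
    sg b (q ::ₘ L).sum = sg b q + sg b L.sum := by
  cases b <;> simp [sg]; ring

theorem W_nums (b : Bool) : ∀ (n : ℕ) (L : Multiset ℤ), rkM (L.map At.num) = n →
    (0 ≤ sg b L.sum → W Mv b false (L.map At.num)) ∧
    (0 < sg b L.sum → W Mv b true (L.map At.num)) := by
  classical
  intro n
  induction n using Nat.strong_induction_on with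
  | _ n ih =>
    intro L hn
    constructor
    · intro h
      refine W.second fun K hK => ?_
      have hlt := hK.rk_lt
      obtain ⟨a, c, R, h1, h2, rfl⟩ := hK
      have : a ∈ L.map At.num := h2 ▸ Multiset.mem_cons_self a R
      obtain ⟨q, hq, rfl⟩ := Multiset.mem_map.1 this
      obtain ⟨L', rfl⟩ := Multiset.exists_cons_of_mem hq
      rw [Multiset.map_cons, Multiset.cons_inj_right] at h2
      subst h2
      cases c with
      | brd s => exact h1.elim
      | num r =>
        rw [← Multiset.map_cons] at hlt ⊢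
        refine (ih _ (hn ▸ hlt) _ rfl).2 ?_
        rw [sg_sum_cons] at h ⊢
        have := low_pos q
        cases b <;> simp only [AMv, NMv, sg, Bool.not_false, Bool.not_true, if_true,
          Bool.false_eq_true, if_false] at h1 h ⊢ <;> omega
    · intro h
      have key : ∃ q ∈ L, (q % 8 = 0 → 0 < sg b q) ∧ low q ≤ sg b L.sum := by
        by_cases h8 : ∀ q ∈ L, 8 ≤ low q
        · have h1 := dvd_sum_of_low 8 (by simp) L h8
          have h2 : ∃ q ∈ L, 0 < sg b q := by
            by_contra hc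
            push Not at hc
            have : sg b L.sum ≤ 0 := by
              clear h hn h8 h1
              induction L using Multiset.induction_on with
              | empty => cases b <;> simp [sg]
              | cons a L ihL =>
                rw [sg_sum_cons]
                have h3 := hc a (Multiset.mem_cons_self _ _)
                have h4 := ihL fun q hq => hc q (Multiset.mem_cons_of_mem hq)
                omega
            omega
          obtain ⟨q, hq, h3⟩ := h2
          refine ⟨q, hq, fun _ => h3, ?_⟩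
          have : low q ≤ 8 := by unfold low; split_ifs <;> omega
          cases b <;> simp only [sg, if_true, Bool.false_eq_true, if_false] at h ⊢ <;> omega
        · push Not at h8
          obtain ⟨q0, hq0, h0⟩ := h8
          obtain ⟨q, hq, hmin⟩ := Multiset.exists_min_image (fun q => low q)
            (s := L) (fun h => by simp [h] at hq0)
          have h1 := dvd_sum_of_low (low q) (by unfold low; split_ifs <;> simp) L hmin
          have h2 := hmin q0 hq0
          refine ⟨q, hq, fun h3 => ?_, ?_⟩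
          · exfalso
            have : low q = 8 := by unfold low; split_ifs <;> omega
            omega
          · refine Int.le_of_dvd h ?_
            cases b <;> simp [sg, h1]
      obtain ⟨q, hq, h1, h2⟩ := key
      obtain ⟨L', rfl⟩ := Multiset.exists_cons_of_mem hq
      have hm : Mv b ((q ::ₘ L').map At.num) (((q - sg b (low q)) ::ₘ L').map At.num) := by
        refine ⟨.num q, .num (q - sg b (low q)), L'.map At.num, ?_, by simp, by simp⟩
        cases b <;> simp only [AMv, NMv, sg, if_true, Bool.false_eq_true, if_false] at h1 ⊢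
        · exact ⟨h1, trivial⟩
        · exact ⟨by omega, by omega⟩
      refine W.first hm ((ih _ (hn ▸ hm.rk_lt) _ rfl).1 ?_)
      rw [sg_sum_cons] at h2 ⊢
      cases b <;> simp only [sg, if_true, Bool.false_eq_true, if_false] at h2 ⊢ <;> omega

/-- `Bd false M u`: the sum `M` is at most `u / 8`. `Bd true M u`: it is not at least `u / 8`. -/
def Bd (t : Bool) (M : Multiset At) (u : ℤ) : Prop := W Mv true t (M + {At.num (-u)})

theorem zero_pair (u : ℤ) : W Mv (!true) false {At.num u, At.num (-u)} := by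
  have := (W_nums false _ {u, -u} rfl).1 (by simp [sg])
  simpa using this

theorem Bd.add {t : Bool} {M N : Multiset At} {u v w : ℤ} (h1 : Bd t M u) (h2 : Bd false N v)
    (h : u + v ≤ w) : Bd t (M + N) w := by
  have h3 := (W_nums true _ {u, v, -w} rfl).1 (by simp [sg]; omega)
  have h4 := (W.add (W.add h1 h2) h3)
  refine W.cancel (W.cancel ?_ (zero_pair u)) (zero_pair v)
  convert h4 using 1
  simp only [Multiset.insert_eq_cons, Multiset.map_cons, Multiset.map_singleton]
  simp only [← Multiset.singleton_add]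
  ac_rfl

theorem Bd.zero : Bd false 0 0 := by
  have := (W_nums true _ {0} rfl).1 (by simp [sg])
  simpa [Bd] using this

theorem Bd.one : Bd true 0 1 := by
  have := (W_nums true _ {-1} rfl).2 (by simp [sg])
  simpa [Bd] using this

theorem Bd.mono {t : Bool} {M : Multiset At} {u w : ℤ} (h1 : Bd t M u) (h : u ≤ w) : Bd t M w := by
  simpa using h1.add Bd.zero (by omega : u + 0 ≤ w)

theorem Bd.strict {M : Multiset At} {u w : ℤ} (h1 : Bd false M u) (h : u < w) : Bd true M w := by
  simpa using Bd.one.add h1 (by omega : 1 + u ≤ w)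

theorem Bd.add' {t : Bool} {M N : Multiset At} {u v w : ℤ} (h1 : Bd false M u) (h2 : Bd t N v)
    (h : u + v ≤ w) : Bd t (M + N) w := by
  rw [add_comm]
  exact h2.add h1 (by omega)

theorem Bd.win {t : Bool} {M : Multiset At} (h : Bd t M 0) : W Mv true t M := by
  refine W.cancel h ?_
  have := (W_nums false _ {0} rfl).1 (by simp [sg])
  simpa using this

theorem Bd.of_move {s t : Finset ℕ} {u : ℤ} (h1 : BMv true s t) (h2 : Bd false {At.brd t} u) :
    Bd true {At.brd s} u :=
  W.first ((Mv.single (a := .brd s) (c := .brd t) h1).add_right _) h2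

theorem Bd.of_moves {s : Finset ℕ} {u : ℤ} (h1 : ∀ t, BMv false s t → Bd true {At.brd t} u)
    (h2 : (u % 8 = 0 → u < 0) → Bd true {At.brd s} (u + low u)) : Bd false {At.brd s} u := by
  refine W.second fun K hK => ?_
  rcases hK.of_add with ⟨M', h3, rfl⟩ | ⟨N', h3, rfl⟩
  · obtain ⟨c, h4, rfl⟩ := h3.of_single
    cases c with
    | brd t => exact h1 t h4
    | num q => exact h4.elim
  · obtain ⟨c, h4, rfl⟩ := h3.of_single
    cases c with
    | brd t => exact h4.elim
    | num q =>
      simp only [AMv, NMv, Bool.not_true, Bool.false_eq_true, if_false] at h4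
      have h5 : low (-u) = low u := by unfold low; split_ifs <;> omega
      have h6 : q = -(u + low u) := by omega
      subst h6
      exact h2 (by omega)

/-- Splitting a board into a translated part and a rest. -/
def Split (k : ℕ) (a c m : Finset ℕ) : Prop :=
  (∀ i ∈ a, i + 16 ∈ a → (i + k ∈ m ∧ i + k ∉ c) ∧ i + 16 + k ∈ m ∧ i + 16 + k ∉ c) ∧
  (∀ i ∈ c, i + 16 ∈ c → i ∈ m ∧ i + 16 ∈ m ∧ ∀ j ∈ a, j + k ≠ i ∧ j + k ≠ i + 16) ∧
    ∀ i, i ∈ m → i + 1 ∈ m → (∃ j, i = j + k ∧ j ∈ a ∧ j + 1 ∈ a) ∨ (i ∈ c ∧ i + 1 ∈ c)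

theorem Split.of_disj {k : ℕ} {a c m : Finset ℕ} (h1 : ∀ i ∈ a, i + k ∈ m ∧ i + k ∉ c)
    (h2 : c ⊆ m) (h3 : ∀ i, i ∈ m → i + 1 ∈ m →
      (∃ j, i = j + k ∧ j ∈ a ∧ j + 1 ∈ a) ∨ (i ∈ c ∧ i + 1 ∈ c)) : Split k a c m :=
  ⟨fun i hi hi' => ⟨h1 i hi, h1 _ hi'⟩, fun _ hi hi' => ⟨h2 hi, h2 hi', fun j hj =>
    ⟨fun e => (h1 j hj).2 (e ▸ hi), fun e => (h1 j hj).2 (e ▸ hi')⟩⟩, h3⟩

theorem Split.left {k : ℕ} {a c m : Finset ℕ} (h : Split k a c m) (i d : ℕ) (h1 : i ∈ a)
    (h2 : i + d ∈ a) :
    Split k ((a.erase i).erase (i + d)) c ((m.erase (i + k)).erase (i + k + d)) := by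
  obtain ⟨h3, h4, h5⟩ := h
  refine ⟨fun j hj hj' => ?_, fun j hj hj' => ?_, fun j hj hj' => ?_⟩
  · simp only [Finset.mem_erase] at hj hj' ⊢
    have := h3 j hj.2.2 hj'.2.2
    exact ⟨⟨⟨by omega, by omega, this.1.1⟩, this.1.2⟩, ⟨by omega, by omega, this.2.1⟩, this.2.2⟩
  · simp only [Finset.mem_erase]
    have := h4 j hj hj'
    have b1 := this.2.2 _ h1
    have b2 := this.2.2 _ h2
    exact ⟨⟨by omega, by omega, this.1⟩, ⟨by omega, by omega, this.2.1⟩,
      fun l hl => this.2.2 l hl.2.2⟩
  · simp only [Finset.mem_erase] at hj hj' ⊢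
    rcases h5 j hj.2.2 hj'.2.2 with ⟨l, rfl, h6, h7⟩ | h6
    · exact Or.inl ⟨l, rfl, ⟨by omega, by omega, h6⟩, by omega, by omega, h7⟩
    · exact Or.inr h6

theorem Split.right {k : ℕ} {a c m : Finset ℕ} (h : Split k a c m) (i j : ℕ) (h1 : i ∈ c)
    (h2 : j ∈ c) : Split k a ((c.erase i).erase j) ((m.erase i).erase j) := by
  obtain ⟨h3, h4, h5⟩ := h
  refine ⟨fun l hl hl' => ?_, fun l hl hl' => ?_, fun l hl hl' => ?_⟩
  · simp only [Finset.mem_erase]
    have := h3 l hl hl'
    refine ⟨⟨⟨?_, ?_, this.1.1⟩, fun h => this.1.2 h.2.2⟩, ⟨?_, ?_, this.2.1⟩,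
      fun h => this.2.2 h.2.2⟩
    · rintro rfl; exact this.1.2 h2
    · rintro rfl; exact this.1.2 h1
    · rintro rfl; exact this.2.2 h2
    · rintro rfl; exact this.2.2 h1
  · simp only [Finset.mem_erase] at hl hl' ⊢
    have := h4 l hl.2.2 hl'.2.2
    exact ⟨⟨hl.1, hl.2.1, this.1⟩, ⟨hl'.1, hl'.2.1, this.2.1⟩, this.2.2⟩
  · simp only [Finset.mem_erase] at hl hl' ⊢
    rcases h5 l hl.2.2 hl'.2.2 with h6 | h6
    · exact Or.inl h6
    · exact Or.inr ⟨⟨hl.1, hl.2.1, h6.1⟩, hl'.1, hl'.2.1, h6.2⟩

theorem Bd.split {t : Bool} {k : ℕ} {a c m : Finset ℕ} {u : ℤ} (h : Split k a c m)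
    (h1 : Bd t ({At.brd a} + {At.brd c}) u) : Bd t {At.brd m} u := by
  refine W.sim (fun M N => ∃ a c m R, Split k a c m ∧ M = {At.brd a} + {At.brd c} + R ∧
    N = {At.brd m} + R) ?_ ?_ h1 _ ⟨a, c, m, _, h, rfl, rfl⟩
  · rintro _ _ ⟨a, c, m, R, hs, rfl, rfl⟩ K hK
    rcases hK.of_add with ⟨M', h3, rfl⟩ | ⟨R', h3, rfl⟩
    · rcases h3.of_add with ⟨M', h4, rfl⟩ | ⟨M', h4, rfl⟩
      · obtain ⟨e, h5, rfl⟩ := h4.of_single
        cases e with
        | num q => exact h5.elim
        | brd e =>
          obtain ⟨i, h6, h7, rfl⟩ := h5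
          refine ⟨_, (Mv.single (a := .brd m) (c := .brd _)
            ⟨i + k, (hs.1 _ h6 h7).1.1, ?_, rfl⟩).add_right _,
            _, _, _, _, hs.left i _ h6 h7, rfl, rfl⟩
          rw [show i + k + st true = i + st true + k by ring]
          exact (hs.1 _ h6 h7).2.1
      · obtain ⟨e, h5, rfl⟩ := h4.of_single
        cases e with
        | num q => exact h5.elim
        | brd e =>
          obtain ⟨i, h6, h7, rfl⟩ := h5
          exact ⟨_, (Mv.single (p := true) (a := .brd m) (c := .brd _)
            ⟨i, (hs.2.1 _ h6 h7).1, (hs.2.1 _ h6 h7).2.1, rfl⟩).add_right _,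
            _, _, _, _, hs.right i _ h6 h7, rfl, rfl⟩
    · refine ⟨{At.brd m} + R', ?_, a, c, m, R', hs, rfl, rfl⟩
      rw [add_comm _ R, add_comm _ R']
      exact h3.add_right _
  · rintro _ _ ⟨a, c, m, R, hs, rfl, rfl⟩ K hK
    rcases hK.of_add with ⟨M', h3, rfl⟩ | ⟨R', h3, rfl⟩
    · obtain ⟨e, h5, rfl⟩ := h3.of_single
      cases e with
      | num q => exact h5.elim
      | brd e =>
        obtain ⟨i, h6, h7, rfl⟩ := h5
        rcases hs.2.2 i h6 h7 with ⟨j, rfl, h8, h9⟩ | ⟨h8, h9⟩
        · exact ⟨_, ((Mv.single (p := false) (a := .brd a) (c := .brd _) ⟨j, h8, h9, rfl⟩).add_right _).add_right _,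
            _, _, _, _, hs.left j _ h8 h9, rfl, rfl⟩
        · refine ⟨{At.brd a} + {At.brd ((c.erase i).erase (i + 1))} + R, ?_,
            _, _, _, _, hs.right i _ h8 h9, rfl, rfl⟩
          rw [add_comm {At.brd a}, add_comm {At.brd a}]
          exact ((Mv.single (p := false) (a := .brd c) (c := .brd _) ⟨i, h8, h9, rfl⟩).add_right _).add_right _
    · refine ⟨{At.brd a} + {At.brd c} + R', ?_, a, c, m, R', hs, rfl, rfl⟩
      rw [add_comm _ R, add_comm _ R']
      exact h3.add_right _

theorem Bd.card (s : Finset ℕ) : Bd false {At.brd s} (8 * s.card) := by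
  induction' h : s.card using Nat.strong_induction_on with n ih generalizing s
  refine Bd.of_moves (fun t ht => ?_) (fun h1 => by omega)
  have := ht.card_lt
  exact (ih _ (h ▸ this) t rfl).strict (by omega)

theorem Bd.empty : Bd false {At.brd ∅} 0 := by simpa using Bd.card ∅

end Pool.Agent.MP_79e5e2_lc
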