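import Mathlib
import Pool.Prelude.Def_H_e9e0c647

namespace Pool.Agent.MP_79e5e2_lc

/-- The second cell of a domino whose first cell is `c = (column, row)`:
vertical for Left (`true`), horizontal for Right (`false`). -/
def nb (left : Bool) (c : ℕ × ℕ) : ℕ × ℕ := if left then (c.1, c.2 + 1) else (c.1 + 1, c.2)

/-- One move: the player covers two adjacent free cells, which leave the set of free cells. -/
def Move (left : Bool) (S T : Finset (ℕ × ℕ)) : Prop :=
  ∃ c ∈ S, nb left c ∈ S ∧ T = (S.erase c).erase (nb left c)

/-- `Outcome true p S`: player `p`, to move at `S`, has a winning strategy (normal play).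
`Outcome false p S`: the opponent has one. -/
inductive Outcome : Bool → Bool → Finset (ℕ × ℕ) → Prop
  | win {p : Bool} {S T : Finset (ℕ × ℕ)} : Move p S T → Outcome false (!p) T → Outcome true p S
  | lose {p : Bool} {S : Finset (ℕ × ℕ)} :
      (∀ T, Move p S T → Outcome true (!p) T) → Outcome false p S

/-- An instance: an `m × n` matrix marking the free cells, and the player to move first. -/
structure Position where
  m : ℕ
  n : ℕ
  free : Fin m → Fin n → Bool
  left : Bool

/-- The set of free cells, as pairs (column, row). -/
def Position.cells (P : Position) : Finset (ℕ × ℕ) :=
  (Finset.univ.filter fun q : Fin P.m × Fin P.n => P.free q.1 q.2 = true).image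
    fun q => (q.2.val, q.1.val)

/-- The bit string describing an instance: the player to move and the rows of the matrix. -/
def Position.code (P : Position) : List Bool :=
  N487b59b3.bitEncode
    ((P.left, List.ofFn fun i => List.ofFn fun j => P.free i j) : Bool × List (List Bool))

/-- The player to move first has a winning strategy. -/
def Position.MoverWins (P : Position) : Prop := Outcome true P.left P.cells

/-- Decidable in polynomial space: a halting stack machine computes the bit `f a`, and every
stack has polynomial length in every configuration of the run. -/
def PSpace {α : Type} (ea : α → List Bool) (f : α → Bool) : Prop :=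
  ∃ (M : Turing.TM2Computable ea Computability.encodeBool f) (p : Polynomial ℕ),
    ∀ (a : α) (t : ℕ) (c : M.tm.Cfg),
      (fun o : Option M.tm.Cfg => o.bind M.tm.step)^[t]
        (some (Turing.initList M.tm ((ea a).map M.inputAlphabet.invFun))) = some c →
      ∀ k, (c.stk k).length ≤ p.eval (ea a).length

end Pool.Agent.MP_79e5e2_lc
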