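import Pool.Agent.MP_79e5e2_lc.Data

/-! The token game inside each tile. Player `true` is the prover, `false` the refuter. -/

namespace Pool.Agent.MP_79e5e2_lc

noncomputable section

/-- Link cell on the eastern side. -/
def zE (X : Bool) : ℕ × ℕ := cond X (72, 34) (74, 36)
/-- Link cell on the western side. -/
def zW (X : Bool) : ℕ × ℕ := cond X (0, 34) (2, 36)
/-- Link cells on the southern side. -/
def zS (X s : Bool) : ℕ × ℕ := cond X (cond s (48, 74) (32, 74)) (cond s (46, 72) (30, 72))
/-- Link cells on the northern side. -/
def zN (X s : Bool) : ℕ × ℕ := cond X (cond s (48, 2) (32, 2)) (cond s (46, 0) (30, 0))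

theorem off_zE (X : Bool) (a b : ℕ) : off (a, b) (zE X) = off (a + 1, b) (zW X) := by
  cases X <;> exact off_eq (by omega) rfl

theorem off_zS (X s : Bool) (a b : ℕ) : off (a, b) (zS X s) = off (a, b + 1) (zN X s) := by
  cases X <;> cases s <;> exact off_eq rfl (by omega)

/-- No exit is accepted. -/
def no : ℕ × ℕ → List (ℕ × ℕ) → Bool := fun _ _ => false
/-- One exit is accepted. -/
def at1 (e : ℕ × ℕ) : ℕ × ℕ → List (ℕ × ℕ) → Bool := fun c _ => decide (c = e)
/-- Two exits are accepted. -/
def at2 (e e' : ℕ × ℕ) : ℕ × ℕ → List (ℕ × ℕ) → Bool :=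
  fun c _ => decide (c = e) || decide (c = e')

/-- The upper tile of a variable. -/
def vu (o : Bool) : TL := cond o t_VUP t_VUQ

/-- State of the upper tile of a variable with value `b`. -/
def PU (X o b : Bool) (m : List (ℕ × ℕ)) : Bool :=
  cond X (!b || (vu o).loc kinds X no m (zE X)) (b || (vu o).loc kinds X (at1 (zS X true)) m (zE X))

/-- State of the lower tile of a variable with value `b`. -/
def PL (X b : Bool) (m : List (ℕ × ℕ)) : Bool :=
  cond X (b || t_VL.loc kinds X no m (zE X))
    (cond b (t_VL.loc kinds X no m (zE X)) (t_VL.loc kinds X no m (zN X true)))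

theorem f_start : ∀ X : Bool, (decide (0 < (t_START.ps X).length) &&
    (decide (0 < (t_START.kd kinds X 0).out.length) &&
    (decide ((t_START.kd kinds X 0).req 0 = ⟨0, [0], 1⟩) &&
    ((t_START.kd kinds X 0).has (if X then 2 else 1) (t_START.kd kinds X 0).mask &&
    t_START.loc kinds X (at1 (zS X false)) [(0, 1)]
      (t_START.pos X 0 ((t_START.kd kinds X 0).kind.oz 0)))))) = true := by decide +kernel

theorem f_turn : ∀ X : Bool, t_TURN.loc kinds X (at1 (zE X)) [] (zN X false) = true := by
  decide +kernel

theorem f_own : ∀ X b : Bool, (vu X).loc kinds X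
    (fun c m => decide (c = zS X b) && PU X X b m) [] (zN X false) = true := by decide +kernel

theorem f_opp : ∀ X : Bool, (vu (!X)).loc kinds X
    (fun c m => (decide (c = zS X false) && PU X (!X) false m) ||
      (decide (c = zS X true) && PU X (!X) true m)) [] (zN X false) = true := by decide +kernel

theorem f_vl : ∀ X b : Bool, t_VL.loc kinds X
    (fun c m => decide (c = zS X false) && PL X b m) [] (zN X b) = true := by decide +kernel

theorem f_sel1 : t_SELECT.loc kinds true (at2 (zN true false) (zE true)) [] (zW true) = true := by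
  decide +kernel

theorem f_sel2 : t_SELECT.loc kinds false (at1 (zN false false)) [] (zW false) = true := by
  decide +kernel

theorem f_sel3 : t_SELECT.loc kinds false (at1 (zE false)) [] (zW false) = true := by
  decide +kernel

theorem f_ende : t_ENDE.loc kinds true no [] (zW true) = true := by decide +kernel

theorem f_top : t_TOP.loc kinds false no [] (zS false false) = true := by decide +kernel

theorem f_cross1 : ∀ X : Bool, t_CROSS.loc kinds X (at1 (zN X false)) [] (zS X false) = true := by
  decide +kernel

theorem f_cross2 : ∀ X : Bool, t_CROSS.loc kinds X (at1 (zW X)) [] (zE X) = true := by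
  decide +kernel

theorem f_br1 : t_BRANCH.loc kinds true (at1 (zN true false)) [] (zS true false) = true := by
  decide +kernel

theorem f_br2 : t_BRANCH.loc kinds true (at1 (zW true)) [] (zS true false) = true := by
  decide +kernel

theorem f_br3 :
    t_BRANCH.loc kinds false (at2 (zN false false) (zW false)) [] (zS false false) = true := by
  decide +kernel

theorem f_br4 : ∀ X : Bool, t_BRANCH.loc kinds X (at1 (zW X)) [] (zE X) = true := by
  decide +kernel

end

end Pool.Agent.MP_79e5e2_lc
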