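import Pool.Agent.MP_79e5e2_lc.Tab
import Pool.Agent.MP_79e5e2_lc.Data

/-! Verification of the kinds. -/

namespace Pool.Agent.MP_79e5e2_lc

theorem k_cX_ok : (k_cX.okb && k_cX.cert.all (k_cX.chk1 tab)) = true := by decide +kernel

theorem k_cY_ok : (k_cY.okb && k_cY.cert.all (k_cY.chk1 tab)) = true := by decide +kernel

theorem k_dX_ok : (k_dX.okb && k_dX.cert.all (k_dX.chk1 tab)) = true := by decide +kernel

theorem k_hX_ok : (k_hX.okb && k_hX.cert.all (k_hX.chk1 tab)) = true := by decide +kernel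

theorem k_hY_ok : (k_hY.okb && k_hY.cert.all (k_hY.chk1 tab)) = true := by decide +kernel

theorem k_jX_ok : (k_jX.okb && k_jX.cert.all (k_jX.chk1 tab)) = true := by decide +kernel

theorem k_jY_ok : (k_jY.okb && k_jY.cert.all (k_jY.chk1 tab)) = true := by decide +kernel

theorem k_sX_ok : (k_sX.okb && k_sX.cert.all (k_sX.chk1 tab)) = true := by decide +kernel

theorem k_sYU_ok : (k_sYU.okb && k_sYU.cert.all (k_sYU.chk1 tab)) = true := by decide +kernel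

theorem k_w10_10_U_ok : (k_w10_10_U.okb && k_w10_10_U.cert.all (k_w10_10_U.chk1 tab)) = true := by decide +kernel

theorem k_w10_10_Z_ok : (k_w10_10_Z.okb && k_w10_10_Z.cert.all (k_w10_10_Z.chk1 tab)) = true := by decide +kernel

theorem k_w10_12_Z_ok : (k_w10_12_Z.okb && k_w10_12_Z.cert.all (k_w10_12_Z.chk1 tab)) = true := by decide +kernel

theorem k_w10_4_U_ok : (k_w10_4_U.okb && k_w10_4_U.cert.all (k_w10_4_U.chk1 tab)) = true := by decide +kernel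

theorem k_w10_4_Z_ok : (k_w10_4_Z.okb && k_w10_4_Z.cert.all (k_w10_4_Z.chk1 tab)) = true := by decide +kernel

theorem k_w10_6_Z_ok : (k_w10_6_Z.okb && k_w10_6_Z.cert.all (k_w10_6_Z.chk1 tab)) = true := by decide +kernel

theorem k_w10_8_Z_ok : (k_w10_8_Z.okb && k_w10_8_Z.cert.all (k_w10_8_Z.chk1 tab)) = true := by decide +kernel

theorem k_w2_10_U_ok : (k_w2_10_U.okb && k_w2_10_U.cert.all (k_w2_10_U.chk1 tab)) = true := by decide +kernel

theorem k_w2_10_Z_ok : (k_w2_10_Z.okb && k_w2_10_Z.cert.all (k_w2_10_Z.chk1 tab)) = true := by decide +kernel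

theorem k_w2_12_U_ok : (k_w2_12_U.okb && k_w2_12_U.cert.all (k_w2_12_U.chk1 tab)) = true := by decide +kernel

theorem k_w2_12_Z_ok : (k_w2_12_Z.okb && k_w2_12_Z.cert.all (k_w2_12_Z.chk1 tab)) = true := by decide +kernel

theorem k_w2_4_U_ok : (k_w2_4_U.okb && k_w2_4_U.cert.all (k_w2_4_U.chk1 tab)) = true := by decide +kernel

theorem k_w2_4_Z_ok : (k_w2_4_Z.okb && k_w2_4_Z.cert.all (k_w2_4_Z.chk1 tab)) = true := by decide +kernel

theorem k_w2_6_U_ok : (k_w2_6_U.okb && k_w2_6_U.cert.all (k_w2_6_U.chk1 tab)) = true := by decide +kernel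

theorem k_w2_6_Z_ok : (k_w2_6_Z.okb && k_w2_6_Z.cert.all (k_w2_6_Z.chk1 tab)) = true := by decide +kernel

theorem k_w2_8_U_ok : (k_w2_8_U.okb && k_w2_8_U.cert.all (k_w2_8_U.chk1 tab)) = true := by decide +kernel

theorem k_w2_8_Z_ok : (k_w2_8_Z.okb && k_w2_8_Z.cert.all (k_w2_8_Z.chk1 tab)) = true := by decide +kernel

theorem k_w4_10_U_ok : (k_w4_10_U.okb && k_w4_10_U.cert.all (k_w4_10_U.chk1 tab)) = true := by decide +kernel

theorem k_w4_10_Z_ok : (k_w4_10_Z.okb && k_w4_10_Z.cert.all (k_w4_10_Z.chk1 tab)) = true := by decide +kernel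

theorem k_w4_12_Z_ok : (k_w4_12_Z.okb && k_w4_12_Z.cert.all (k_w4_12_Z.chk1 tab)) = true := by decide +kernel

theorem k_w4_4_U_ok : (k_w4_4_U.okb && k_w4_4_U.cert.all (k_w4_4_U.chk1 tab)) = true := by decide +kernel

theorem k_w4_4_Z_ok : (k_w4_4_Z.okb && k_w4_4_Z.cert.all (k_w4_4_Z.chk1 tab)) = true := by decide +kernel

theorem k_w4_6_Z_ok : (k_w4_6_Z.okb && k_w4_6_Z.cert.all (k_w4_6_Z.chk1 tab)) = true := by decide +kernel

theorem k_w4_8_U_ok : (k_w4_8_U.okb && k_w4_8_U.cert.all (k_w4_8_U.chk1 tab)) = true := by decide +kernel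

theorem k_w4_8_Z_ok : (k_w4_8_Z.okb && k_w4_8_Z.cert.all (k_w4_8_Z.chk1 tab)) = true := by decide +kernel

theorem k_w6_10_U_ok : (k_w6_10_U.okb && k_w6_10_U.cert.all (k_w6_10_U.chk1 tab)) = true := by decide +kernel

theorem k_w6_10_Z_ok : (k_w6_10_Z.okb && k_w6_10_Z.cert.all (k_w6_10_Z.chk1 tab)) = true := by decide +kernel

theorem k_w6_12_U_ok : (k_w6_12_U.okb && k_w6_12_U.cert.all (k_w6_12_U.chk1 tab)) = true := by decide +kernel

theorem k_w6_12_Z_ok : (k_w6_12_Z.okb && k_w6_12_Z.cert.all (k_w6_12_Z.chk1 tab)) = true := by decide +kernel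

theorem k_w6_4_U_ok : (k_w6_4_U.okb && k_w6_4_U.cert.all (k_w6_4_U.chk1 tab)) = true := by decide +kernel

theorem k_w6_4_Z_ok : (k_w6_4_Z.okb && k_w6_4_Z.cert.all (k_w6_4_Z.chk1 tab)) = true := by decide +kernel

theorem k_w6_6_U_ok : (k_w6_6_U.okb && k_w6_6_U.cert.all (k_w6_6_U.chk1 tab)) = true := by decide +kernel

theorem k_w6_6_Z_ok : (k_w6_6_Z.okb && k_w6_6_Z.cert.all (k_w6_6_Z.chk1 tab)) = true := by decide +kernel

theorem k_w6_8_Z_ok : (k_w6_8_Z.okb && k_w6_8_Z.cert.all (k_w6_8_Z.chk1 tab)) = true := by decide +kernel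

theorem k_w8_10_U_ok : (k_w8_10_U.okb && k_w8_10_U.cert.all (k_w8_10_U.chk1 tab)) = true := by decide +kernel

theorem k_w8_10_Z_ok : (k_w8_10_Z.okb && k_w8_10_Z.cert.all (k_w8_10_Z.chk1 tab)) = true := by decide +kernel

theorem k_w8_12_U_ok : (k_w8_12_U.okb && k_w8_12_U.cert.all (k_w8_12_U.chk1 tab)) = true := by decide +kernel

theorem k_w8_12_Z_ok : (k_w8_12_Z.okb && k_w8_12_Z.cert.all (k_w8_12_Z.chk1 tab)) = true := by decide +kernel

theorem k_w8_4_U_ok : (k_w8_4_U.okb && k_w8_4_U.cert.all (k_w8_4_U.chk1 tab)) = true := by decide +kernel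

theorem k_w8_4_Z_ok : (k_w8_4_Z.okb && k_w8_4_Z.cert.all (k_w8_4_Z.chk1 tab)) = true := by decide +kernel

theorem k_w8_6_U_ok : (k_w8_6_U.okb && k_w8_6_U.cert.all (k_w8_6_U.chk1 tab)) = true := by decide +kernel

theorem k_w8_6_Z_ok : (k_w8_6_Z.okb && k_w8_6_Z.cert.all (k_w8_6_Z.chk1 tab)) = true := by decide +kernel

theorem k_w8_8_Z_ok : (k_w8_8_Z.okb && k_w8_8_Z.cert.all (k_w8_8_Z.chk1 tab)) = true := by decide +kernel

theorem k_xd_ok : (k_xd.okb && k_xd.cert.all (k_xd.chk1 tab)) = true := by decide +kernel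

theorem k_y3_ok : (k_y3.okb && k_y3.cert.all (k_y3.chk1 tab)) = true := by decide +kernel

theorem k_yd_ok : (k_yd.okb && k_yd.cert.all (k_yd.chk1 tab)) = true := by decide +kernel

theorem kinds_ok : ∀ D ∈ kinds, (D.okb && D.cert.all (D.chk1 tab)) = true := by
  simp only [kinds, List.forall_mem_cons]
  exact ⟨k_cX_ok, k_cY_ok, k_dX_ok, k_hX_ok, k_hY_ok, k_jX_ok, k_jY_ok, k_sX_ok, k_sYU_ok, k_w10_10_U_ok, k_w10_10_Z_ok, k_w10_12_Z_ok, k_w10_4_U_ok,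
    k_w10_4_Z_ok, k_w10_6_Z_ok, k_w10_8_Z_ok, k_w2_10_U_ok, k_w2_10_Z_ok, k_w2_12_U_ok, k_w2_12_Z_ok, k_w2_4_U_ok, k_w2_4_Z_ok, k_w2_6_U_ok,
    k_w2_6_Z_ok, k_w2_8_U_ok, k_w2_8_Z_ok, k_w4_10_U_ok, k_w4_10_Z_ok, k_w4_12_Z_ok, k_w4_4_U_ok, k_w4_4_Z_ok, k_w4_6_Z_ok, k_w4_8_U_ok, k_w4_8_Z_ok,
    k_w6_10_U_ok, k_w6_10_Z_ok, k_w6_12_U_ok, k_w6_12_Z_ok, k_w6_4_U_ok, k_w6_4_Z_ok, k_w6_6_U_ok, k_w6_6_Z_ok, k_w6_8_Z_ok, k_w8_10_U_ok,
    k_w8_10_Z_ok, k_w8_12_U_ok, k_w8_12_Z_ok, k_w8_4_U_ok, k_w8_4_Z_ok, k_w8_6_U_ok, k_w8_6_Z_ok, k_w8_8_Z_ok, k_xd_ok, k_y3_ok, k_yd_ok, by simp⟩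

end Pool.Agent.MP_79e5e2_lc
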