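import Pool.Agent.MP_79e5e2_lc.Defs
import Pool.Agent.MP_2e8011_lc.CookLevin

/-! Quantified Boolean formulas in prenex conjunctive normal form (interface). -/

namespace Pool.Agent.MP_79e5e2_lc

open Pool.Agent.MP_2e8011_lc

/-- `QVal φ qs k a`: the variables `k, k+1, …` are quantified in this order by `qs`
(`true` = exists, `false` = for all), the others keep their value in `a`. -/
def QVal (φ : CNF) : List Bool → ℕ → (ℕ → Bool) → Prop
  | [], _, a => SatBy a φ
  | true :: qs, k, a => ∃ b, QVal φ qs (k + 1) (Function.update a k b)
  | false :: qs, k, a => ∀ b, QVal φ qs (k + 1) (Function.update a k b)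

/-- Truth of the formula with quantifier list `F.1` and matrix `F.2`. -/
def QTrue (F : List Bool × CNF) : Prop := QVal F.2 F.1 0 (fun _ => false)

/-- Every variable of the matrix is quantified. -/
def QClosed (F : List Bool × CNF) : Prop := ∀ c ∈ F.2, ∀ l ∈ c, l.1 < F.1.length

/-- Target: quantified Boolean formulas are hard for polynomial space. -/
def QBFHard : Prop :=
  ∀ L : List Bool → Bool, PSpace id L →
    ∃ g : List Bool → List Bool × CNF, PT g ∧ ∀ x, QClosed (g x) ∧ (L x = true ↔ QTrue (g x))

open Classical in
/-- Target: the outcome of Domineering is decidable in polynomial space. -/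
def InPSpace : Prop := PSpace Position.code (fun P => decide P.MoverWins)

end Pool.Agent.MP_79e5e2_lc
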