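import Pool.Agent.MP_79e5e2_lc.Data

/-! Verification of the geometry of the tiles. -/

namespace Pool.Agent.MP_79e5e2_lc

theorem t_EMPTY_false : t_EMPTY.chk kinds false = true := by decide +kernel

theorem t_START_false : t_START.chk kinds false = true := by decide +kernel

theorem t_VUP_false : t_VUP.chk kinds false = true := by decide +kernel

theorem t_VUQ_false : t_VUQ.chk kinds false = true := by decide +kernel

theorem t_VL_false : t_VL.chk kinds false = true := by decide +kernel

theorem t_TURN_false : t_TURN.chk kinds false = true := by decide +kernel

theorem t_SELECT_false : t_SELECT.chk kinds false = true := by decide +kernel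

theorem t_ENDE_false : t_ENDE.chk kinds false = true := by decide +kernel

theorem t_CROSS_false : t_CROSS.chk kinds false = true := by decide +kernel

theorem t_BRANCH_false : t_BRANCH.chk kinds false = true := by decide +kernel

theorem t_TOP_false : t_TOP.chk kinds false = true := by decide +kernel

theorem t_ROWEND_false : t_ROWEND.chk kinds false = true := by decide +kernel

theorem tiles_false : ∀ T ∈ tiles, T.chk kinds false = true := by
  simp only [tiles, List.forall_mem_cons]
  exact ⟨t_EMPTY_false, t_START_false, t_VUP_false, t_VUQ_false, t_VL_false, t_TURN_false, t_SELECT_false, t_ENDE_false, t_CROSS_false, t_BRANCH_false,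
    t_TOP_false, t_ROWEND_false, by simp⟩

end Pool.Agent.MP_79e5e2_lc
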