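import Pool.Agent.MP_79e5e2_lc.Data

/-! Verification of the geometry of the tiles. -/

namespace Pool.Agent.MP_79e5e2_lc

theorem t_EMPTY_true : t_EMPTY.chk kinds true = true := by decide +kernel

theorem t_START_true : t_START.chk kinds true = true := by decide +kernel

theorem t_VUP_true : t_VUP.chk kinds true = true := by decide +kernel

theorem t_VUQ_true : t_VUQ.chk kinds true = true := by decide +kernel

theorem t_VL_true : t_VL.chk kinds true = true := by decide +kernel

theorem t_TURN_true : t_TURN.chk kinds true = true := by decide +kernel

theorem t_SELECT_true : t_SELECT.chk kinds true = true := by decide +kernel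

theorem t_ENDE_true : t_ENDE.chk kinds true = true := by decide +kernel

theorem t_CROSS_true : t_CROSS.chk kinds true = true := by decide +kernel

theorem t_BRANCH_true : t_BRANCH.chk kinds true = true := by decide +kernel

theorem t_TOP_true : t_TOP.chk kinds true = true := by decide +kernel

theorem t_ROWEND_true : t_ROWEND.chk kinds true = true := by decide +kernel

theorem tiles_true : ∀ T ∈ tiles, T.chk kinds true = true := by
  simp only [tiles, List.forall_mem_cons]
  exact ⟨t_EMPTY_true, t_START_true, t_VUP_true, t_VUQ_true, t_VL_true, t_TURN_true, t_SELECT_true, t_ENDE_true, t_CROSS_true, t_BRANCH_true, t_TOP_true,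
    t_ROWEND_true, by simp⟩

end Pool.Agent.MP_79e5e2_lc
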