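import Pool.Agent.MP_79e5e2_lc.Facts
import Pool.Agent.MP_79e5e2_lc.KindOk
import Pool.Agent.MP_79e5e2_lc.TileOkTrue
import Pool.Agent.MP_79e5e2_lc.TileOkFalse
import Pool.Agent.MP_79e5e2_lc.QBF

/-! The board of a quantified Boolean formula. -/

namespace Pool.Agent.MP_79e5e2_lc

open Pool.Agent.MP_2e8011_lc

noncomputable section

/-- The number of the tile in column `a` and row `b`. -/
def tyN (F : List Bool × CNF) (a b : ℕ) : ℕ :=
  if F.2.length + 2 ≤ a ∨ 2 * F.1.length + 2 ≤ b then 0
  else if a = 0 then
    (if b = 0 then 1 else if b = 2 * F.1.length + 1 then 5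
      else if b % 2 = 1 then (if F.1.getD (b / 2) false = true then 2 else 3) else 4)
  else if a = F.2.length + 1 then (if b = 0 then 0 else if b = 2 * F.1.length + 1 then 7 else 11)
  else if b = 0 then 10 else if b = 2 * F.1.length + 1 then 6
  else if ((b - 1) / 2, decide (b % 2 = 1)) ∈ F.2.getD (a - 1) [] then 9 else 8

/-- The tile with a given number. -/
def tile (k : ℕ) : TL := tiles.getD k t_EMPTY

/-- The array of tiles of a formula. -/
def lay (F : List Bool × CNF) : Lay :=
  ⟨F.2.length + 2, 2 * F.1.length + 2, fun t => tile (tyN F t.1 t.2)⟩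

theorem getD_mem_or {α : Type} (l : List α) (k : ℕ) (d : α) : l.getD k d ∈ l ∨ l.getD k d = d := by
  by_cases h : k < l.length
  · left
    rw [List.getD_eq_getElem _ _ h]
    exact List.getElem_mem _
  · right
    exact List.getD_eq_default _ _ (by omega)

theorem tile_sE (k : ℕ) : (tile k).sE = [0, 0, 1, 1, 1, 1, 1, 0, 1, 1, 0, 0].getD k 0 := by
  iterate 12 (rcases k with _ | k; · rfl)
  rfl

theorem tile_sW (k : ℕ) : (tile k).sW = [0, 0, 0, 0, 0, 0, 1, 1, 1, 1, 0, 1].getD k 0 := by
  iterate 12 (rcases k with _ | k; · rfl)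
  rfl

theorem tile_sS (k : ℕ) : (tile k).sS = [0, 1, 2, 2, 1, 0, 0, 0, 1, 1, 1, 0].getD k 0 := by
  iterate 12 (rcases k with _ | k; · rfl)
  rfl

theorem tile_sN (k : ℕ) : (tile k).sN = [0, 0, 1, 1, 2, 1, 1, 0, 1, 1, 0, 0].getD k 0 := by
  iterate 12 (rcases k with _ | k; · rfl)
  rfl

theorem tile_st (k : ℕ) (h : (tile k).st = true) : k = 1 := by
  revert h
  iterate 12 (rcases k with _ | k; · decide)
  intro h
  cases h

theorem lay_sE (F : List Bool × CNF) (a b : ℕ) : (tile (tyN F a b)).sE =
    if a ≤ F.2.length ∧ 1 ≤ b ∧ b ≤ 2 * F.1.length + 1 then 1 else 0 := by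
  rw [tile_sE, tyN]
  split_ifs <;> first | rfl | omega

theorem lay_sW (F : List Bool × CNF) (a b : ℕ) : (tile (tyN F a b)).sW =
    if 1 ≤ a ∧ a ≤ F.2.length + 1 ∧ 1 ≤ b ∧ b ≤ 2 * F.1.length + 1 then 1 else 0 := by
  rw [tile_sW, tyN]
  split_ifs <;> first | rfl | omega

theorem lay_sS (F : List Bool × CNF) (a b : ℕ) : (tile (tyN F a b)).sS =
    if a ≤ F.2.length ∧ b ≤ 2 * F.1.length then (if a = 0 ∧ b % 2 = 1 then 2 else 1) else 0 := by
  rw [tile_sS, tyN]
  split_ifs <;> first | rfl | omega

theorem lay_sN (F : List Bool × CNF) (a b : ℕ) : (tile (tyN F a b)).sN =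
    if a ≤ F.2.length ∧ 1 ≤ b ∧ b ≤ 2 * F.1.length + 1 then
      (if a = 0 ∧ b % 2 = 0 then 2 else 1) else 0 := by
  rw [tile_sN, tyN]
  split_ifs <;> first | rfl | omega

theorem lay_ok (F : List Bool × CNF) (X : Bool) : (lay F).OK kinds X := by
  refine ⟨fun k => ?_, fun t => TL.good_of_chk ?_, fun a b h => ?_, fun a b => ?_, fun a b => ?_,
    fun b => ?_, fun a => ?_, fun t h => ?_⟩
  · have : ((kinds.getD k kd0).okb && (kinds.getD k kd0).cert.all
        ((kinds.getD k kd0).chk1 tab)) = true := by
      rcases getD_mem_or kinds k kd0 with h | h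
      · exact kinds_ok _ h
      · rw [h]
        decide +kernel
    rw [Bool.and_eq_true] at this
    exact ⟨this.1, KD.closed _ tab_ok this.2⟩
  · have : (lay F).ty t ∈ tiles := by
      rcases getD_mem_or tiles (tyN F t.1 t.2) t_EMPTY with h | h
      · exact h
      · change tiles.getD _ _ ∈ _
        rw [h]
        exact List.mem_cons_self
    cases X
    · exact tiles_false _ this
    · exact tiles_true _ this
  · change (tile (tyN F a b)).cm = 0
    change F.2.length + 2 ≤ a ∨ 2 * F.1.length + 2 ≤ b at h
    rw [tyN, if_pos h]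
    rfl
  · simp only [lay, lay_sE, lay_sW]
    split_ifs <;> omega
  · simp only [lay, lay_sS, lay_sN]
    split_ifs <;> omega
  · simp [lay, lay_sW]
  · simp [lay, lay_sN]
  · have := tile_st _ h
    obtain ⟨a, b⟩ := t
    simp only [tyN] at this
    split_ifs at this <;> first | omega | simp_all

section game
variable {F : List Bool × CNF} {X : Bool}

theorem step {T : TL} {a b : ℕ} (h1 : a < F.2.length + 2) (h2 : b < 2 * F.1.length + 2)
    (hT : tile (tyN F a b) = T) {K : ℕ × ℕ → List (ℕ × ℕ) → Bool} {l : ℕ × ℕ → List (ℕ × ℕ)}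
    {m : List (ℕ × ℕ)} (hl : l (a, b) = m) {c : ℕ × ℕ} (hc : T.loc kinds X K m c = true)
    (hK : ∀ c m, K c m = true →
      (lay F).Ent kinds X (Function.update l (a, b) m) (off (a, b) c)) :
    (lay F).Ent kinds X l (off (a, b) c) := by
  subst hT hl
  exact Lay.loc_sound (lay_ok F X) (t := (a, b)) h1 h2 hc hK

theorem ty_vu {i : ℕ} (h : i < F.1.length) :
    tile (tyN F 0 (2 * i + 1)) = vu (F.1.getD i false) := by
  rw [tyN, if_neg (by omega), if_pos rfl, if_neg (by omega), if_neg (by omega), if_pos (by omega),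
    show (2 * i + 1) / 2 = i by omega]
  cases F.1.getD i false <;> rfl

theorem ty_vl {i : ℕ} (h : i < F.1.length) : tile (tyN F 0 (2 * i + 2)) = t_VL := by
  rw [tyN, if_neg (by omega), if_pos rfl, if_neg (by omega), if_neg (by omega), if_neg (by omega)]
  rfl

theorem ty_mid {a b : ℕ} (h1 : 1 ≤ a) (h2 : a ≤ F.2.length) (h3 : 1 ≤ b)
    (h4 : b ≤ 2 * F.1.length) : tile (tyN F a b) =
      if ((b - 1) / 2, decide (b % 2 = 1)) ∈ F.2.getD (a - 1) [] then t_BRANCH else t_CROSS := by
  rw [tyN, if_neg (by omega), if_neg (by omega), if_neg (by omega), if_neg (by omega),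
    if_neg (by omega)]
  split_ifs <;> rfl

variable (F X) in
/-- The tiles of the first `k` variables record the assignment `v`. -/
def Var (k : ℕ) (v : ℕ → Bool) (l : ℕ × ℕ → List (ℕ × ℕ)) : Prop :=
  ∀ i < k, PU X (F.1.getD i false) (v i) (l (0, 2 * i + 1)) = true ∧
    PL X (v i) (l (0, 2 * i + 2)) = true

theorem Var.update {k : ℕ} {v : ℕ → Bool} {l : ℕ × ℕ → List (ℕ × ℕ)} (h : Var F X k v l)
    {a b : ℕ} (hab : a = 0 → 2 * k < b) (m : List (ℕ × ℕ)) :
    Var F X k v (Function.update l (a, b) m) := by
  intro i hi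
  rw [Function.update_of_ne (by simp; omega), Function.update_of_ne (by simp; omega)]
  exact h i hi

/-- The literal of row `b` is true. -/
def Val (v : ℕ → Bool) (b : ℕ) : Prop := v ((b - 1) / 2) = decide (b % 2 = 1)

theorem no_elim {P : ℕ × ℕ → List (ℕ × ℕ) → Prop} : ∀ c m, no c m = true → P c m :=
  fun _ _ h => by cases h

theorem probe {v : ℕ → Bool} {l : ℕ × ℕ → List (ℕ × ℕ)} (h : Var F X F.1.length v l) {b : ℕ}
    (h1 : 1 ≤ b) (h2 : b ≤ 2 * F.1.length) (hv : X = true ↔ Val v b) :
    (lay F).Ent kinds X l (off (0, b) (zE X)) := by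
  obtain ⟨i, hi, e⟩ : ∃ i, i < F.1.length ∧ (b = 2 * i + 1 ∨ b = 2 * i + 2) :=
    ⟨(b - 1) / 2, by omega, by omega⟩
  obtain ⟨h3, h4⟩ := h i hi
  rcases e with rfl | rfl
  · rw [Val, show (2 * i + 1 - 1) / 2 = i by omega,
      show decide ((2 * i + 1) % 2 = 1) = true by simp] at hv
    cases X
    · have e : v i = false := by simpa using hv
      rw [e] at h3 h4
      refine step (K := at1 (zS false true)) (by omega) (by omega) (ty_vu hi) rfl h3
        fun c m hc => ?_
      obtain rfl := of_decide_eq_true hc
      rw [off_zS]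
      exact step (K := no) (by omega) (by omega) (ty_vl hi) (Function.update_of_ne (by simp) _ _)
        h4 no_elim
    · have e : v i = true := by simpa using hv
      rw [e] at h3
      exact step (K := no) (by omega) (by omega) (ty_vu hi) rfl h3 no_elim
  · rw [Val, show (2 * i + 2 - 1) / 2 = i by omega,
      show decide ((2 * i + 2) % 2 = 1) = false by simp] at hv
    cases X
    · have e : v i = true := by simpa using hv
      rw [e] at h4
      exact step (K := no) (by omega) (by omega) (ty_vl hi) rfl h4 no_elim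
    · have e : v i = false := by simpa using hv
      rw [e] at h4
      exact step (K := no) (by omega) (by omega) (ty_vl hi) rfl h4 no_elim

theorem row {v : ℕ → Bool} {b : ℕ} (h1 : 1 ≤ b) (h2 : b ≤ 2 * F.1.length)
    (hv : X = true ↔ Val v b) : ∀ j ≤ F.2.length, ∀ l, Var F X F.1.length v l →
      (∀ j', 1 ≤ j' → j' ≤ j → l (j', b) = []) → (lay F).Ent kinds X l (off (j, b) (zE X)) := by
  intro j
  induction j with
  | zero => exact fun _ l h _ => probe h h1 h2 hv
  | succ j ih =>
    intro hj l h hf
    refine step (K := at1 (zW X)) (by omega) (by omega) (ty_mid (by omega) hj h1 h2)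
      (hf _ (by omega) le_rfl) ?_ fun c m hc => ?_
    · split_ifs
      · exact f_br4 X
      · exact f_cross2 X
    · obtain rfl := of_decide_eq_true hc
      rw [← off_zE]
      refine ih (by omega) _ (h.update (by omega) m) fun j' h3 h4 => ?_
      rw [Function.update_of_ne (by simp; omega)]
      exact hf j' h3 (by omega)

theorem lane {v : ℕ → Bool} {j : ℕ} (hj : j < F.2.length) : ∀ b ≤ 2 * F.1.length, ∀ l,
    Var F X F.1.length v l →
    (∀ j' b', 1 ≤ j' → b' ≤ b → j' ≤ j + 1 → l (j', b') = []) →
    (X = true ↔ ∃ b', 1 ≤ b' ∧ b' ≤ b ∧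
      ((b' - 1) / 2, decide (b' % 2 = 1)) ∈ F.2.getD j [] ∧ Val v b') →
    (lay F).Ent kinds X l (off (j + 1, b) (zS X false)) := by
  intro b
  induction b with
  | zero =>
    intro _ l h hf hv
    obtain rfl : X = false := by
      cases X
      · rfl
      · obtain ⟨b', h1, h2, -⟩ := hv.1 rfl
        omega
    refine step (T := t_TOP) (by omega) (by omega) ?_ (hf _ _ (by omega) le_rfl le_rfl) f_top no_elim
    rw [tyN, if_neg (by omega), if_neg (by omega), if_neg (by omega), if_pos rfl]
    rfl
  | succ b ih =>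
    intro hb l h hf hv
    have hN : (X = true ↔ ∃ b', 1 ≤ b' ∧ b' ≤ b ∧
        ((b' - 1) / 2, decide (b' % 2 = 1)) ∈ F.2.getD j [] ∧ Val v b') → ∀ m,
        (lay F).Ent kinds X (Function.update l (j + 1, b + 1) m)
          (off (j + 1, b + 1) (zN X false)) := by
      intro hv' m
      rw [← off_zS]
      refine ih (by omega) _ (h.update (by omega) m) (fun j' b' h3 h4 h5 => ?_) hv'
      rw [Function.update_of_ne (by simp; omega)]
      exact hf j' b' h3 (by omega) h5
    have hW : (X = true ↔ Val v (b + 1)) → ∀ m,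
        (lay F).Ent kinds X (Function.update l (j + 1, b + 1) m) (off (j + 1, b + 1) (zW X)) := by
      intro hv' m
      rw [← off_zE]
      refine row (by omega) hb hv' j (by omega) _ (h.update (by omega) m) fun j' h3 h4 => ?_
      rw [Function.update_of_ne (by simp; omega)]
      exact hf j' _ h3 le_rfl (by omega)
    have hty := ty_mid (F := F) (a := j + 1) (b := b + 1) (by omega) hj (by omega) hb
    have hl := hf (j + 1) (b + 1) (by omega) le_rfl le_rfl
    have hsplit : (∃ b', 1 ≤ b' ∧ b' ≤ b + 1 ∧
        ((b' - 1) / 2, decide (b' % 2 = 1)) ∈ F.2.getD j [] ∧ Val v b') ↔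
        (∃ b', 1 ≤ b' ∧ b' ≤ b ∧
        ((b' - 1) / 2, decide (b' % 2 = 1)) ∈ F.2.getD j [] ∧ Val v b') ∨
        (((b + 1 - 1) / 2, decide ((b + 1) % 2 = 1)) ∈ F.2.getD j [] ∧ Val v (b + 1)) := by
      constructor
      · rintro ⟨b', h1, h2, h3⟩
        rcases Nat.lt_or_eq_of_le h2 with h4 | rfl
        · exact Or.inl ⟨b', h1, by omega, h3⟩
        · exact Or.inr h3
      · rintro (⟨b', h1, h2, h3⟩ | h3)
        · exact ⟨b', h1, by omega, h3⟩
        · exact ⟨b + 1, by omega, le_rfl, h3⟩
    rw [hsplit] at hv
    rw [Nat.add_sub_cancel j 1] at hty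
    by_cases hm : ((b + 1 - 1) / 2, decide ((b + 1) % 2 = 1)) ∈ F.2.getD j []
    · rw [if_pos hm] at hty
      cases X
      · refine step (by omega) (by omega) hty hl f_br3 fun c m hc => ?_
        simp only [at2, Bool.or_eq_true, decide_eq_true_eq] at hc
        rcases hc with rfl | rfl
        · exact hN (iff_of_false (by simp) fun h3 => absurd (hv.2 (Or.inl h3)) (by simp)) m
        · exact hW (iff_of_false (by simp) fun h3 => absurd (hv.2 (Or.inr ⟨hm, h3⟩)) (by simp)) m
      · rcases hv.1 rfl with h3 | h3
        · refine step (by omega) (by omega) hty hl f_br1 fun c m hc => ?_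
          obtain rfl := of_decide_eq_true hc
          exact hN (iff_of_true rfl h3) m
        · refine step (by omega) (by omega) hty hl f_br2 fun c m hc => ?_
          obtain rfl := of_decide_eq_true hc
          exact hW (iff_of_true rfl h3.2) m
    · rw [if_neg hm] at hty
      refine step (by omega) (by omega) hty hl (f_cross1 X) fun c m hc => ?_
      obtain rfl := of_decide_eq_true hc
      exact hN (hv.trans (or_iff_left fun h3 => hm h3.1)) m

theorem clause_iff (hc : QClosed F) (v : ℕ → Bool) {j : ℕ} (hj : j < F.2.length) :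
    (∃ b', 1 ≤ b' ∧ b' ≤ 2 * F.1.length ∧
      ((b' - 1) / 2, decide (b' % 2 = 1)) ∈ F.2.getD j [] ∧ Val v b') ↔
    ∃ x ∈ F.2.getD j [], v x.1 = x.2 := by
  constructor
  · rintro ⟨b', -, -, h1, h2⟩
    exact ⟨_, h1, h2⟩
  · rintro ⟨⟨i, s⟩, h1, h2⟩
    have h3 : i < F.1.length := by
      refine hc _ ?_ _ h1
      rw [List.getD_eq_getElem _ _ hj]
      exact List.getElem_mem _
    cases s
    · refine ⟨2 * i + 2, by omega, by omega, ?_⟩
      rw [Val, show (2 * i + 2 - 1) / 2 = i by omega,
        show decide ((2 * i + 2) % 2 = 1) = false by simp]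
      exact ⟨h1, h2⟩
    · refine ⟨2 * i + 1, by omega, by omega, ?_⟩
      rw [Val, show (2 * i + 1 - 1) / 2 = i by omega,
        show decide ((2 * i + 1) % 2 = 1) = true by simp]
      exact ⟨h1, h2⟩

theorem select (hc : QClosed F) {v : ℕ → Bool} : ∀ d j, j + d = F.2.length → ∀ l,
    Var F X F.1.length v l →
    (∀ j' b', 1 ≤ j' → (b' ≤ 2 * F.1.length ∨ j < j') → l (j', b') = []) →
    (X = true ↔ ∀ j', j ≤ j' → j' < F.2.length → ∃ x ∈ F.2.getD j' [], v x.1 = x.2) →
    (lay F).Ent kinds X l (off (j + 1, 2 * F.1.length + 1) (zW X)) := by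
  intro d
  induction d with
  | zero =>
    intro j hj l h hf hv
    obtain rfl : X = true := hv.2 fun j' h1 h2 => by omega
    refine step (T := t_ENDE) (by omega) (by omega) ?_ (hf _ _ (by omega) (by omega)) f_ende no_elim
    rw [tyN, if_neg (by omega), if_neg (by omega), if_pos (by omega), if_neg (by omega), if_pos rfl]
    rfl
  | succ d ih =>
    intro j hj l h hf hv
    have hN : (X = true ↔ ∃ x ∈ F.2.getD j [], v x.1 = x.2) → ∀ m,
        (lay F).Ent kinds X (Function.update l (j + 1, 2 * F.1.length + 1) m)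
          (off (j + 1, 2 * F.1.length + 1) (zN X false)) := by
      intro hv' m
      rw [← off_zS]
      refine lane (by omega) _ le_rfl _ (h.update (by omega) m) (fun j' b' h3 h4 h5 => ?_)
        (hv'.trans (clause_iff hc v (by omega)).symm)
      rw [Function.update_of_ne (by simp; omega)]
      exact hf j' b' h3 (Or.inl h4)
    have hE : (X = true ↔ ∀ j', j + 1 ≤ j' → j' < F.2.length →
        ∃ x ∈ F.2.getD j' [], v x.1 = x.2) → ∀ m,
        (lay F).Ent kinds X (Function.update l (j + 1, 2 * F.1.length + 1) m)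
          (off (j + 1, 2 * F.1.length + 1) (zE X)) := by
      intro hv' m
      rw [off_zE]
      refine ih (j + 1) (by omega) _ (h.update (by omega) m) (fun j' b' h3 h4 => ?_) hv'
      rw [Function.update_of_ne (by simp; omega)]
      exact hf j' b' h3 (by omega)
    have hty : tile (tyN F (j + 1) (2 * F.1.length + 1)) = t_SELECT := by
      rw [tyN, if_neg (by omega), if_neg (by omega), if_neg (by omega), if_neg (by omega),
        if_pos rfl]
      rfl
    have hl := hf (j + 1) (2 * F.1.length + 1) (by omega) (by omega)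
    cases X
    · by_cases h1 : ∃ x ∈ F.2.getD j [], v x.1 = x.2
      · refine step (by omega) (by omega) hty hl f_sel3 fun c m hc => ?_
        obtain rfl := of_decide_eq_true hc
        refine hE (iff_of_false (by simp) fun h2 => ?_) m
        refine absurd (hv.2 fun j' h3 h4 => ?_) (by simp)
        rcases Nat.eq_or_lt_of_le h3 with rfl | h5
        · exact h1
        · exact h2 j' h5 h4
      · refine step (by omega) (by omega) hty hl f_sel2 fun c m hc => ?_
        obtain rfl := of_decide_eq_true hc
        exact hN (iff_of_false (by simp) h1) m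
    · refine step (by omega) (by omega) hty hl f_sel1 fun c m hc => ?_
      simp only [at2, Bool.or_eq_true, decide_eq_true_eq] at hc
      rcases hc with rfl | rfl
      · exact hN (iff_of_true rfl (hv.1 rfl j le_rfl (by omega))) m
      · exact hE (iff_of_true rfl fun j' h3 h4 => hv.1 rfl j' (by omega) h4) m

theorem spine (hc : QClosed F) : ∀ (qs : List Bool) (k : ℕ) (v : ℕ → Bool)
    (l : ℕ × ℕ → List (ℕ × ℕ)), k ≤ F.1.length → F.1.drop k = qs → Var F X k v l →
    (∀ a b, (a = 0 → 2 * k < b) → l (a, b) = []) → (X = true ↔ QVal F.2 qs k v) →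
    (lay F).Ent kinds X l (off (0, 2 * k + 1) (zN X false)) := by
  intro qs
  induction qs with
  | nil =>
    intro k v l hk hq h hf hv
    obtain rfl : k = F.1.length := by
      have := List.drop_eq_nil_iff.1 hq
      omega
    refine step (T := t_TURN) (by omega) (by omega) ?_ (hf _ _ (by omega)) (f_turn X)
      fun c m hc' => ?_
    · rw [tyN, if_neg (by omega), if_pos rfl, if_neg (by omega), if_pos rfl]
      rfl
    · obtain rfl := of_decide_eq_true hc'
      rw [off_zE]
      refine select hc _ 0 (zero_add _) _ (h.update (by omega) m) (fun j' b' h1 _ => ?_)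
        (hv.trans ?_)
      · rw [Function.update_of_ne (by simp; omega)]
        exact hf _ _ (by omega)
      · constructor
        · intro h1 j' _ h2
          refine h1 _ ?_
          rw [List.getD_eq_getElem _ _ h2]
          exact List.getElem_mem _
        · intro h1 c hc'
          obtain ⟨j', h2, rfl⟩ := List.getElem_of_mem hc'
          have := h1 j' (by omega) h2
          rwa [List.getD_eq_getElem _ _ h2] at this
  | cons q qs ih =>
    intro k v l hk hq h hf hv
    have hk' : k < F.1.length := by
      by_contra hn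
      rw [List.drop_eq_nil_iff.2 (by omega)] at hq
      cases hq
    rw [List.drop_eq_getElem_cons hk', List.cons.injEq] at hq
    have hq' : F.1.getD k false = q := by rw [List.getD_eq_getElem _ _ hk', hq.1]
    have hS : ∀ b, (X = true ↔ QVal F.2 qs (k + 1) (Function.update v k b)) → ∀ m,
        PU X q b m = true → (lay F).Ent kinds X (Function.update l (0, 2 * k + 1) m)
          (off (0, 2 * k + 1) (zS X b)) := by
      intro b hv' m hm
      rw [off_zS]
      refine step (by omega) (by omega) (ty_vl hk') ?_ (f_vl X b) fun c m' hc' => ?_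
      · rw [Function.update_of_ne (by simp)]
        exact hf _ _ (by omega)
      · simp only [Bool.and_eq_true, decide_eq_true_eq] at hc'
        obtain ⟨rfl, h1⟩ := hc'
        rw [off_zS]
        refine ih (k + 1) _ _ hk' hq.2 (fun i hi => ?_) (fun a b' h2 => ?_) hv'
        · rcases Nat.lt_succ_iff_lt_or_eq.1 hi with h2 | rfl
          · rw [Function.update_of_ne (by omega)]
            exact ((h.update (by omega) m).update (by omega) m') i h2
          · rw [Function.update_self, hq', Function.update_of_ne (by simp), Function.update_self,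
              Function.update_self]
            exact ⟨hm, h1⟩
        · rw [Function.update_of_ne (by simp; omega), Function.update_of_ne (by simp; omega)]
          exact hf _ _ (by omega)
    have hty := ty_vu (F := F) hk'
    rw [hq'] at hty
    have hl := hf 0 (2 * k + 1) (by omega)
    by_cases e : q = X
    · subst e
      have : ∃ b, (q = true ↔ QVal F.2 qs (k + 1) (Function.update v k b)) := by
        cases q
        · simp only [QVal, Bool.false_eq_true, false_iff, not_forall] at hv ⊢
          exact hv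
        · simpa [QVal] using hv
      obtain ⟨b, hb⟩ := this
      refine step (by omega) (by omega) hty hl (f_own q b) fun c m hc' => ?_
      simp only [Bool.and_eq_true, decide_eq_true_eq] at hc'
      obtain ⟨rfl, h1⟩ := hc'
      exact hS b hb m h1
    · obtain rfl : q = !X := by cases q <;> cases X <;> simp_all
      have : ∀ b, (X = true ↔ QVal F.2 qs (k + 1) (Function.update v k b)) := by
        cases X
        · simp only [QVal, Bool.not_false, Bool.false_eq_true, false_iff, not_exists] at hv ⊢
          exact hv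
        · simp only [QVal, Bool.not_true, true_iff] at hv ⊢
          exact hv
      refine step (by omega) (by omega) hty hl (f_opp X) fun c m hc' => ?_
      simp only [Bool.and_eq_true, decide_eq_true_eq, Bool.or_eq_true] at hc'
      rcases hc' with ⟨rfl, h1⟩ | ⟨rfl, h1⟩
      · exact hS _ (this _) m h1
      · exact hS _ (this _) m h1

theorem lay_outcome (hc : QClosed F) (hv : X = true ↔ QTrue F) : Outcome X true (lay F).board := by
  have h0 : tile (tyN F 0 0) = t_START := by
    rw [tyN, if_neg (by omega), if_pos rfl, if_pos rfl]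
    rfl
  have h1 : (lay F).ty (0, 0) = t_START := h0
  have h2 := f_start X
  simp only [Bool.and_eq_true, decide_eq_true_eq] at h2
  refine Lay.outcome (lay_ok F X) (Nat.succ_pos _) (Nat.succ_pos _) (h1 ▸ h2.1) (h1 ▸ h2.2.1)
    (h1 ▸ h2.2.2.1) (h1 ▸ h2.2.2.2.1) ?_
  rw [h1]
  refine step (by omega) (by omega) h0 (Function.update_self ..) h2.2.2.2.2 fun c m hc' => ?_
  obtain rfl := of_decide_eq_true hc'
  rw [off_zS]
  refine spine hc F.1 0 _ _ (by omega) rfl (fun i hi => by omega) (fun a b h3 => ?_) hv
  rw [Function.update_of_ne (by simp; omega), Function.update_of_ne (by simp; omega)]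

end game

theorem lay_wins {F : List Bool × CNF} (hc : QClosed F) :
    QTrue F ↔ Outcome true true (lay F).board := by
  refine ⟨fun h => lay_outcome hc (iff_of_true rfl h), fun h => ?_⟩
  by_contra hn
  exact h.excl (lay_outcome hc (iff_of_false (by simp) hn))

end

end Pool.Agent.MP_79e5e2_lc
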