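import Pool.Agent.MP_79e5e2_lc.QBF
import Pool.Agent.MP_2e8011_lc.Bridge

/-! The outcome of Domineering is decidable in polynomial space. -/

namespace Pool.Agent.MP_79e5e2_lc

open Pool.Agent.MP_2e8011_lc Turing

namespace Mem

/-- Execution in which every register stays of length at most `B`. -/
inductive ExecS (B : ℕ) : Cmd → St → St → Prop
  | base {c : Cmd} {S S' : St} {t : ℕ} :
      Exec c S S' t → (∀ k, (S k).length + t ≤ B) → ExecS B c S S'
  | seq {c d : Cmd} {S S' S'' : St} :
      ExecS B c S S' → ExecS B d S' S'' → ExecS B (.seq c d) S S''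
  | loopS {k : ℕ} {c : Cmd} {S S' S'' : St} :
      S k ≠ [] → (∀ j, (S j).length + 1 ≤ B) → ExecS B c S S' → ExecS B (.loop k c) S' S'' →
        ExecS B (.loop k c) S S''

section machine

variable {N : ℕ} {Λ : Type}

/-- Every statement of `M` adds at most one symbol to each stack. -/
def Slow (M : Λ → TM2.Stmt (fun _ : Fin N => Bool) Λ (Option Bool)) : Prop :=
  ∀ l v T k, ((TM2.stepAux (M l) v T).stk k).length ≤ (T k).length + 1

theorem code_slow [NeZero N] (c : Cmd) : ∀ (emb : Lab c → Λ) (cont : Option Λ) (l : Lab c)
    (v : Option Bool) (T : Fin N → List Bool) (k : Fin N),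
    ((TM2.stepAux (code N c emb cont l) v T).stk k).length ≤ (T k).length + 1 := by
  induction c with
  | skip => intro emb cont l v T k; simp [code, stepAux_jump]
  | push j b =>
    intro emb cont l v T k
    simp only [code, TM2.stepAux, stepAux_jump]
    by_cases h : k = Fin.ofNat N j
    · subst h; simp
    · rw [Function.update_of_ne h]; omega
  | pop j =>
    intro emb cont l v T k
    simp only [code, TM2.stepAux, stepAux_jump]
    by_cases h : k = Fin.ofNat N j
    · subst h; simp; omega
    · rw [Function.update_of_ne h]; omega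
  | seq c d ihc ihd =>
    intro emb cont l v T k
    rcases l with l | l
    · exact ihc _ _ l v T k
    · exact ihd _ _ l v T k
  | ite j a b c iha ihb ihc =>
    intro emb cont l v T k
    rcases l with _ | l | l | l
    · simp only [code, TM2.stepAux, stepAux_jump]
      cases (T (Fin.ofNat N j)).head? with
      | none => simp
      | some b => cases b <;> simp
    · exact iha _ _ l v T k
    · exact ihb _ _ l v T k
    · exact ihc _ _ l v T k
  | loop j c ih =>
    intro emb cont l v T k
    rcases l with _ | l
    · simp only [code, TM2.stepAux, stepAux_jump]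
      cases (T (Fin.ofNat N j)).head? with
      | none => simp
      | some b => simp
    · exact ih _ _ l v T k

variable {M : Λ → TM2.Stmt (fun _ : Fin N => Bool) Λ (Option Bool)}

theorem iter_none (n : ℕ) : (flip bind (TM2.step M))^[n] none = none := by
  induction n with
  | zero => rfl
  | succ n ih => rw [Function.iterate_succ_apply]; exact ih

theorem steps_len (hM : Slow M) : ∀ (n : ℕ) (a b : TM2.Cfg (fun _ : Fin N => Bool) Λ (Option Bool)),
    Steps M n a b → ∀ k, (b.stk k).length ≤ (a.stk k).length + n := by
  intro n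
  induction n with
  | zero =>
    intro a b h k
    have : a = b := by simpa [Steps] using h
    subst this
    simp
  | succ n ih =>
    intro a b h k
    unfold Steps at h
    rw [Function.iterate_succ_apply] at h
    obtain ⟨l, v, T⟩ := a
    cases l with
    | none =>
      have h' : (flip bind (TM2.step M))^[n] none = some b := h
      rw [iter_none] at h'
      exact absurd h' (by simp)
    | some l =>
      have h' : Steps M n (TM2.stepAux (M l) v T) b := h
      have h1 := ih _ _ h' k
      have h2 := hM l v T k
      simp only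
      omega

/-- `n` steps during which all stacks have length at most `B`. -/
def StepsB (M : Λ → TM2.Stmt (fun _ : Fin N => Bool) Λ (Option Bool)) (B n : ℕ)
    (a b : TM2.Cfg (fun _ : Fin N => Bool) Λ (Option Bool)) : Prop :=
  Steps M n a b ∧ ∀ i ≤ n, ∀ c, Steps M i a c → ∀ k, (c.stk k).length ≤ B

theorem StepsB.trans {B n m : ℕ} {a b c : TM2.Cfg (fun _ : Fin N => Bool) Λ (Option Bool)}
    (h₁ : StepsB M B n a b) (h₂ : StepsB M B m b c) : StepsB M B (n + m) a c := by
  refine ⟨h₁.1.trans h₂.1, fun i hi d hd => ?_⟩
  by_cases h : i ≤ n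
  · exact h₁.2 i h d hd
  · obtain ⟨j, rfl⟩ := Nat.exists_eq_add_of_le (le_of_lt (not_le.1 h))
    refine h₂.2 j (by omega) d ?_
    have h1 := h₁.1
    unfold Steps at hd h1 ⊢
    rwa [add_comm, Function.iterate_add_apply, h1] at hd

theorem StepsB.of_steps (hM : Slow M) {B n : ℕ}
    {a b : TM2.Cfg (fun _ : Fin N => Bool) Λ (Option Bool)} (h : Steps M n a b)
    (hB : ∀ k, (a.stk k).length + n ≤ B) : StepsB M B n a b := by
  refine ⟨h, fun i hi d hd k => ?_⟩
  have := steps_len hM i a d hd k
  have := hB k
  omega

theorem simS [NeZero N] (hM : Slow M) {B : ℕ} {c : Cmd} {S S' : St} (h : ExecS B c S S') :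
    c.bound ≤ N → ∀ (emb : Lab c → Λ) (cont : Option Λ),
      (∀ l, M (emb l) = code N c emb cont l) →
      ∃ n, StepsB M B n ⟨some (emb (entry c)), none, res N S⟩ ⟨cont, none, res N S'⟩ := by
  induction h with
  | base h hB =>
    intro hb emb cont hc
    obtain ⟨n, hn, hs⟩ := sim M h hb emb cont hc
    refine ⟨n, StepsB.of_steps hM hs (fun k => ?_)⟩
    have := hB k
    simp only [res]
    omega
  | @seq c d S S' S'' _ _ ih₁ ih₂ =>
    intro hb emb cont hc
    simp only [Cmd.bound, max_le_iff] at hb
    obtain ⟨n₁, h₁⟩ := ih₁ hb.1 (fun x => emb (Sum.inl x))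
      (some (emb (Sum.inr (entry d)))) (fun l => hc (Sum.inl l))
    obtain ⟨n₂, h₂⟩ := ih₂ hb.2 (fun x => emb (Sum.inr x)) cont (fun l => hc (Sum.inr l))
    exact ⟨n₁ + n₂, h₁.trans h₂⟩
  | @loopS k c S S' S'' hS hB _ _ ih₁ ih₂ =>
    intro hb emb cont hc
    have hb' := hb
    simp only [Cmd.bound, max_le_iff] at hb
    have hk : k < N := hb.1
    obtain ⟨n₁, h₁⟩ := ih₁ hb.2 (fun x => emb (some x)) (some (emb none))
      (fun l => hc (some l))
    obtain ⟨n₂, h₂⟩ := ih₂ hb' emb cont hc
    refine ⟨1 + (n₁ + n₂), StepsB.trans (StepsB.of_steps hM (Steps.one ?_) (fun j => hB j))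
      (h₁.trans h₂)⟩
    rw [show entry (Cmd.loop k c) = none from rfl, hc]
    obtain ⟨b, l, hl⟩ := List.exists_cons_of_ne_nil hS
    simp only [code, TM2.stepAux, stepAux_jump, res_ofNat hk, hl]
    rfl

end machine

/-- A command that computes `f` with polynomially bounded registers gives a polynomial-space
machine. -/
theorem pspace_of_execS {A : Type} (ea : A → List Bool) (f : A → Bool) (c : Cmd)
    (p : Polynomial ℕ) (h : ∀ a, ExecS (p.eval (ea a).length) c (one (ea a)) (one [f a])) :
    PSpace ea f := by
  have key : ∀ a, ∃ n, StepsB (code (c.bound + 1) c id none) (p.eval (ea a).length) n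
      ⟨some (entry c), none, res (c.bound + 1) (one (ea a))⟩
      ⟨none, none, res (c.bound + 1) (one [f a])⟩ := fun a =>
    simS (N := c.bound + 1) (M := code (c.bound + 1) c id none) (code_slow c id none) (h a)
      (Nat.le_succ _) id none (fun _ => rfl)
  choose n hn using key
  have e1 : ∀ l : List Bool, List.map (Equiv.refl Bool).invFun l = l := fun l => List.map_id l
  refine ⟨⟨⟨machine c, Equiv.refl Bool, Equiv.refl Bool⟩, fun a => ⟨n a, ?_⟩⟩, p, ?_⟩
  · have h1 : (flip bind (machine c).step)^[n a] (some (initList (machine c) (ea a))) =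
        some (haltList (machine c) [f a]) := by
      rw [initList_machine, haltList_machine]
      exact (hn a).1
    rw [← e1 (ea a)] at h1
    exact h1
  · intro a t d hd k
    have hd' : (flip bind (machine c).step)^[t]
        (some (initList (machine c) (ea a))) = some d := by
      rw [← e1 (ea a)]
      exact hd
    rw [initList_machine] at hd'
    by_cases ht : t ≤ n a
    · exact (hn a).2 t ht d hd' k
    · obtain ⟨j, rfl⟩ := Nat.exists_eq_add_of_lt (not_le.1 ht)
      have h1 := (hn a).1
      unfold Steps at h1
      have h2 : (flip bind (TM2.step (code (c.bound + 1) c id none)))^[n a + j + 1]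
          (some ⟨some (entry c), none, res (c.bound + 1) (one (ea a))⟩) = some d := hd'
      rw [show n a + j + 1 = j + (1 + n a) by omega, Function.iterate_add_apply,
        Function.iterate_add_apply, h1] at h2
      have h3 : (flip bind (TM2.step (code (c.bound + 1) c id none)))^[j] none = some d := h2
      rw [iter_none] at h3
      exact absurd h3 (by simp)

section iter

variable {σ : Type} [Enc σ]

/-- Iterating `step` from `s`, through states of size at most `B` that are not `done`, one
reaches `s'`. -/
inductive Run (step : σ → σ) (done : σ → Bool) (B : ℕ) : σ → σ → Prop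
  | refl {s : σ} : sz s ≤ B → Run step done B s s
  | step {s s' : σ} : done s = false → sz s ≤ B → Run step done B (step s) s' →
      Run step done B s s'

theorem Run.trans {step : σ → σ} {done : σ → Bool} {B : ℕ} {s s' s'' : σ}
    (h₁ : Run step done B s s') (h₂ : Run step done B s' s'') : Run step done B s s'' := by
  induction h₁ with
  | refl _ => exact h₂
  | step hd hs _ ih => exact Run.step hd hs (ih h₂)

theorem Run.sz_last {step : σ → σ} {done : σ → Bool} {B : ℕ} {s s' : σ}
    (h : Run step done B s s') : sz s' ≤ B := by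
  induction h with
  | refl h => exact h
  | step _ _ _ ih => exact ih

/-- The body of the main loop. -/
def body (c : Cmd) : Cmd := .seq c.up (.ite 1 .skip (.pop 1) (.seq (.pop 1) (.pop 0)))

theorem exec_body {c : Cmd} {x y : List Bool} {b : Bool} {t : ℕ}
    (h : Exec c (one x) (one (b :: y)) t) :
    Exec (body c) (sc [true] (one x)) (sc (bif b then [] else [true]) (one y)) (t + 3) := by
  refine Exec.seq (h.up _) ?_
  cases b
  · refine (Exec.iteF (by simp [one]) (Exec.pop 1 _)).cast rfl ?_ (by omega)
    simp [update_sc_succ, update_sc_zero, one_eq]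
  · refine (Exec.iteT (by simp [one]) (Exec.seq (Exec.pop 1 _) (Exec.pop 0 _))).cast rfl ?_
      (by omega)
    simp [update_sc_succ, update_sc_zero, one_eq]

theorem len_sc_one {u x : List Bool} {B : ℕ} (hu : u.length ≤ B) (hx : x.length ≤ B) (k : ℕ) :
    (sc u (one x) k).length ≤ B := by
  rcases k with _ | _ | k
  · exact hu
  · exact hx
  · simp [one]

theorem execS_loop {step : σ → σ} {done : σ → Bool} {B B' : ℕ} {c : Cmd} {q : Polynomial ℕ}
    (hc : ∀ s, Exec c (one (enc s)) (one (done s :: enc (bif done s then s else step s)))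
      (q.eval (sz s))) (hB : B + 1 + (q.eval B + 3) ≤ B') {s s' : σ}
    (h : Run step done B s s') (hd : done s' = true) :
    ExecS B' (.loop 0 (body c)) (sc [true] (one (enc s))) (sc [] (one (enc s'))) := by
  have hl : ∀ (u : List Bool) (s : σ), u.length ≤ 1 → sz s ≤ B →
      ∀ k, (sc u (one (enc s)) k).length ≤ B + 1 := fun u s hu hs k =>
    len_sc_one (by omega) (Nat.le_succ_of_le hs) k
  have hb : ∀ s : σ, sz s ≤ B → ExecS B' (body c) (sc [true] (one (enc s)))
      (sc (bif done s then [] else [true]) (one (enc (bif done s then s else step s)))) := by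
    intro s hs
    refine ExecS.base (exec_body (hc s)) (fun k => ?_)
    have := hl [true] s le_rfl hs k
    have := eval_mono q hs
    omega
  induction h with
  | @refl s hs =>
    refine ExecS.loopS (by simp) (fun j => ?_) (hb s hs) ?_
    · have := hl [true] s le_rfl hs j
      omega
    · rw [hd]
      refine ExecS.base (Exec.loopN rfl) (fun k => ?_)
      have := hl [] s (by simp) hs k
      simp only [cond_true]
      omega
  | @step s s' hd' hs _ ih =>
    refine ExecS.loopS (by simp) (fun j => ?_) (hb s hs) ?_
    · have := hl [true] s le_rfl hs j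
      omega
    · rw [hd']
      exact ih hd

theorem len_one {x : List Bool} (k : ℕ) : (one x k).length ≤ x.length := by
  unfold one
  split_ifs <;> simp

/-- A loop with polynomial-time body through states of polynomial size runs in polynomial
space. -/
theorem pspace_of_iter {A α : Type} [Enc α] (ea : A → List Bool) (ι : A → α)
    (hι : ∀ a, ea a = enc (ι a)) (f : A → Bool) {init : α → σ} {step : σ → σ}
    {done out : σ → Bool} (hi : PT init) (hs : PT step) (hd : PT done) (ho : PT out)
    {B : α → ℕ} (hB : PB B)
    (h : ∀ a, ∃ s', Run step done (B (ι a)) (init (ι a)) s' ∧ done s' = true ∧ out s' = f a) :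
    PSpace ea f := by
  have hg : CP (fun s => done s :: enc (bif done s then s else step s)) := by
    have h1 : PT (fun s => bif done s then s else step s) := by fun_prop
    exact (CP.cond hd (CP.push h1 true) (CP.push h1 false)).congr (fun s => by
      beta_reduce
      cases done s <;> rfl)
  obtain ⟨c₁, t₁, ⟨p₁, hp₁⟩, h₁⟩ := hi
  obtain ⟨c₂, t₂, ⟨p₂, hp₂⟩, h₂⟩ := hg
  obtain ⟨c₃, t₃, ⟨p₃, hp₃⟩, h₃⟩ := ho
  obtain ⟨p, hp⟩ := hB
  refine pspace_of_execS ea f
    (.seq (.seq c₁ (.seq (mv 0 2) (.seq (mv 2 1) (.push 0 true))))
      (.seq (.loop 0 (body c₂)) (.seq c₃.up (mv 1 0))))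
    (Polynomial.X + p₁ + Polynomial.C 9 * p + p₂.comp p + p₃.comp p + Polynomial.C 9)
    (fun a => ?_)
  obtain ⟨s', hr, hd', ho'⟩ := h a
  rw [hι]
  set x := ι a
  have hx : (enc x).length = sz x := rfl
  simp only [Polynomial.eval_add, Polynomial.eval_X, Polynomial.eval_mul, Polynomial.eval_C,
    Polynomial.eval_comp, hx]
  have hB1 := hp x
  have hs0 : sz (init x) ≤ B x := by
    cases hr with
    | refl h => exact h
    | step _ h _ => exact h
  have hs1 : sz s' ≤ B x := hr.sz_last
  have e1 : Exec (mv 0 2) (one (enc (init x))) (sc [] (sc [] (one (enc (init x)).reverse)))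
      (4 * sz (init x) + 1) := by
    refine (exec_mv (by omega) _).cast rfl ?_ (by simp [one, sz])
    rw [one_eq3]
    simp [update_sc_succ, update_sc_zero, one_eq]
  have e2 : Exec (mv 2 1) (sc [] (sc [] (one (enc (init x)).reverse)))
      (sc [] (one (enc (init x)))) (4 * sz (init x) + 1) := by
    refine (exec_mv (by omega) _).cast rfl ?_ (by simp [one, sz])
    simp [update_sc_succ, update_sc_zero, one_eq, sc_emp, update_emp_one]
  have e3 : Exec (.push 0 true) (sc [] (one (enc (init x)))) (sc [true] (one (enc (init x)))) 1 :=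
    Exec.push' 0 true (by simp [update_sc_zero])
  have e4 : Exec (mv 1 0) (sc [] (one [f a])) (one [f a]) 5 := by
    refine (exec_mv (by omega) _).cast rfl ?_ (by simp [one])
    simp [update_sc_succ, update_sc_zero, one_eq, sc_emp, update_emp_zero]
  have e5 : Exec c₃ (one (enc s')) (one [f a]) (t₃ s') := by
    have := h₃ s'
    beta_reduce at this
    rwa [ho', enc_bool] at this
  refine ExecS.seq (ExecS.base ((h₁ x).seq (e1.seq (e2.seq e3))) (fun k => ?_))
    (ExecS.seq (execS_loop (q := p₂) (fun s => (h₂ s).weaken (hp₂ s)) ?_ hr hd')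
      (ExecS.base ((e5.up []).seq e4) (fun k => ?_)))
  · have := len_one (x := enc x) k
    have := hp₁ x
    omega
  · have := eval_mono p₂ hB1
    omega
  · have := len_sc_one (u := []) (x := enc s') (B := B x) (by simp) hs1 k
    have := hp₃ s'
    have := eval_mono p₃ (hs1.trans hB1)
    omega

end iter

section dfs

variable {σ : Type} [Enc σ] [Inhabited σ]

/-- One step of the depth-first search; each frame lists the children still to be examined. -/
def dStep (succs : σ → List σ) (st : List (List σ)) : List (List σ) :=
  bif (st.headD []).isEmpty then st.tail.tail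
  else succs ((st.headD []).headD default) :: (st.headD []).tail :: st.tail

/-- The search is over. -/
def dDone (st : List (List σ)) : Bool :=
  st.isEmpty || (st.tail.isEmpty && (st.headD []).isEmpty)

theorem dfs_run {succs : σ → List σ} {W : σ → Bool} {G : ℕ → σ → Prop} {F B : ℕ}
    (h0 : ∀ x, ¬ G 0 x) (hG : ∀ n x, G (n + 1) x → ∀ y ∈ succs x, G n y)
    (hF : ∀ n x, G n x → sz (succs x) ≤ F)
    (hW : ∀ x, W x = (succs x).any (fun y => !W y)) (n : ℕ) :
    ∀ (fr : List σ) (rest : List (List σ)), (∀ y ∈ fr, G n y) → sz fr ≤ F →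
      sz rest + (n + 1) * (2 * F + 1) ≤ B →
      Run (dStep succs) dDone B (fr :: rest)
        (bif fr.any (fun y => !W y) then rest else [] :: rest) := by
  induction n with
  | zero =>
    intro fr rest hfr _ hB
    cases fr with
    | nil => exact Run.refl (by simp; omega)
    | cons y ys => exact (h0 y (hfr y List.mem_cons_self)).elim
  | succ n ih =>
    intro fr rest
    induction fr with
    | nil =>
      intro _ _ hB
      refine Run.refl ?_
      simp only [sz_cons, sz_nil]
      nlinarith
    | cons y ys ihl =>
      intro hfr hs hB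
      have hy := hfr y List.mem_cons_self
      have hys : sz ys ≤ F := by simp only [sz_cons] at hs; omega
      have hB' : sz rest + (2 * F + 1) + (n + 1) * (2 * F + 1) ≤ B := by nlinarith
      have h1 := ih (succs y) (ys :: rest) (hG n y hy) (hF _ y hy) (by
        simp only [sz_cons]; omega)
      rw [← hW] at h1
      refine Run.step (by simp [dDone]) (by rw [sz_cons]; omega) (Run.trans h1 ?_)
      cases hy' : W y with
      | true =>
        simpa [hy'] using ihl (fun z hz => hfr z (List.mem_cons_of_mem _ hz)) hys hB
      | false =>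
        simp only [cond_false, List.any_cons, hy', Bool.not_false, Bool.true_or, cond_true]
        refine Run.step (by simp [dDone]) ?_ (Run.refl ?_)
        · simp only [sz_cons, sz_nil]
          nlinarith
        · simp only [dStep, List.headD_cons, List.isEmpty_nil, cond_true, List.tail_cons]
          omega

end dfs

theorem Move.card_lt {p : Bool} {S T : Finset (ℕ × ℕ)} (h : Move p S T) : T.card < S.card := by
  obtain ⟨c, hc, _, rfl⟩ := h
  exact lt_of_le_of_lt (Finset.card_le_card (Finset.erase_subset _ _)) (Finset.card_erase_lt_of_mem hc)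

theorem outcome_true_iff (p : Bool) (S : Finset (ℕ × ℕ)) :
    Outcome true p S ↔ ∃ T, Move p S T ∧ Outcome false (!p) T :=
  ⟨fun h => by cases h with | win h1 h2 => exact ⟨_, h1, h2⟩, fun ⟨_, h1, h2⟩ => Outcome.win h1 h2⟩

theorem outcome_false_iff' (p : Bool) (S : Finset (ℕ × ℕ)) :
    Outcome false p S ↔ ∀ T, Move p S T → Outcome true (!p) T :=
  ⟨fun h => by cases h with | lose h1 => exact h1, Outcome.lose⟩

theorem outcome_false_iff (n : ℕ) : ∀ (p : Bool) (S : Finset (ℕ × ℕ)), S.card < n →
    (Outcome false p S ↔ ¬ Outcome true p S) := by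
  induction n with
  | zero => intro p S h; omega
  | succ n ih =>
    intro p S h
    rw [outcome_false_iff', outcome_true_iff]
    push Not
    refine forall_congr' fun T => imp_congr_right fun hT => ?_
    rw [ih _ T (by have := Move.card_lt hT; omega), not_not]

/-- Positions of the search: the mover and the list of free cells. -/
abbrev Pos : Type := Bool × List (ℕ × ℕ)

/-- The positions after one move. -/
def succs (x : Pos) : List Pos :=
  (x.2.filter fun c => decide (nb x.1 c ∈ x.2)).map fun c =>
    (!x.1, x.2.filter fun d => decide (d ≠ c) && decide (d ≠ nb x.1 c))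

open Classical in
/-- The value of a position. -/
noncomputable def W (x : Pos) : Bool := decide (Outcome true x.1 x.2.toFinset)

theorem toFinset_filter_eq (L : List (ℕ × ℕ)) (c e : ℕ × ℕ) :
    (L.filter fun d => decide (d ≠ c) && decide (d ≠ e)).toFinset = (L.toFinset.erase c).erase e := by
  ext d
  simp only [List.mem_toFinset, List.mem_filter, Bool.and_eq_true, decide_eq_true_eq,
    Finset.mem_erase]
  tauto

theorem W_eq (x : Pos) : W x = (succs x).any (fun y => !W y) := by
  obtain ⟨p, L⟩ := x
  rw [Bool.eq_iff_iff]
  simp only [W, succs, decide_eq_true_eq, List.any_map, List.any_eq_true, List.mem_filter,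
    Function.comp, Bool.not_eq_true', decide_eq_false_iff_not, toFinset_filter_eq]
  rw [outcome_true_iff]
  constructor
  · rintro ⟨T, ⟨c, hc, hc', rfl⟩, h⟩
    exact ⟨c, ⟨List.mem_toFinset.1 hc, List.mem_toFinset.1 hc'⟩,
      (outcome_false_iff _ _ _ (Nat.lt_succ_self _)).1 h⟩
  · rintro ⟨c, ⟨hc, hc'⟩, h⟩
    exact ⟨_, ⟨c, List.mem_toFinset.2 hc, List.mem_toFinset.2 hc', rfl⟩,
      (outcome_false_iff _ _ _ (Nat.lt_succ_self _)).2 h⟩

theorem sz_filter_le {β : Type} [Enc β] (l : List β) (q : β → Bool) : sz (l.filter q) ≤ sz l := by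
  induction l with
  | nil => simp
  | cons b l ih =>
    rw [List.filter_cons]
    split_ifs
    · simp only [sz_cons]; omega
    · simp only [sz_cons]; omega

theorem succs_spec {x y : Pos} (h : y ∈ succs x) : y.2.length < x.2.length ∧ sz y.2 ≤ sz x.2 := by
  simp only [succs, List.mem_map, List.mem_filter] at h
  obtain ⟨c, ⟨hc, _⟩, rfl⟩ := h
  refine ⟨List.length_filter_lt_length_iff_exists.2 ⟨c, hc, by simp⟩, sz_filter_le _ _⟩

theorem sz_succs {x : Pos} {F : ℕ} (h : sz x.2 ≤ F) : sz (succs x) ≤ F * (2 * (3 + F) + 1) := by
  have h1 := sz_le_of_forall (l := succs x) (B := 3 + F) (fun y hy => by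
    have := (succs_spec hy).2
    obtain ⟨b, L⟩ := y
    simp only [sz_prod, sz_bool] at this ⊢
    omega)
  have h2 : (succs x).length ≤ F := by
    simp only [succs, List.length_map]
    exact (List.length_filter_le _ _).trans ((length_le_sz _).trans h)
  exact h1.trans (Nat.mul_le_mul_right _ h2)

@[fun_prop] theorem pt_nb {α : Type} [Enc α] {p : α → Bool} {c : α → ℕ × ℕ} (hp : PT p)
    (hc : PT c) : PT (fun a => nb (p a) (c a)) := by
  unfold nb
  fun_prop

theorem pt_succs : PT succs := by
  unfold succs
  fun_prop

/-- The free cells of a matrix. -/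
def cellsL (rows : List (List Bool)) : List (ℕ × ℕ) :=
  (List.range rows.length).flatMap fun i =>
    ((List.range (rows.getD i []).length).filter fun j => (rows.getD i []).getD j false).map
      fun j => (j, i)

theorem pt_cellsL : PT cellsL := by
  unfold cellsL
  fun_prop

/-- The data of a position. -/
def data (P : Position) : Bool × List (List Bool) :=
  (P.left, List.ofFn fun i => List.ofFn fun j => P.free i j)

theorem code_eq (P : Position) : P.code = enc (data P) :=
  agree_prod agree_bool (agree_list (agree_list agree_bool)) _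

theorem cells_eq (P : Position) : (cellsL (data P).2).toFinset = P.cells := by
  ext ⟨j, i⟩
  simp only [cellsL, data, Position.cells, List.mem_toFinset, List.mem_flatMap, List.mem_range,
    List.length_ofFn, List.mem_map, List.mem_filter, Prod.mk.injEq, Finset.mem_image,
    Finset.mem_filter, Finset.mem_univ, true_and]
  constructor
  · rintro ⟨i', hi, j', ⟨hj, hf⟩, rfl, rfl⟩
    simp only [List.getD_eq_getElem?_getD, List.getElem?_ofFn, hi, dif_pos, Option.getD_some,
      List.length_ofFn] at hj hf
    simp only [hj, dif_pos, Option.getD_some] at hf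
    exact ⟨(⟨i', hi⟩, ⟨j', hj⟩), hf, rfl, rfl⟩
  · rintro ⟨⟨i', j'⟩, hf, rfl, rfl⟩
    refine ⟨i', i'.2, j', ?_, rfl, rfl⟩
    simpa [List.getD_eq_getElem?_getD, List.getElem?_ofFn] using hf

end Mem

open Mem in
theorem inPSpace : InPSpace := by
  have h1 := pt_succs
  have h2 := pt_cellsL
  have h3 : PB (fun d : Bool × List (List Bool) => sz (cellsL d.2)) :=
    (show PT (fun d : Bool × List (List Bool) => cellsL d.2) by fun_prop).pb_sz
  refine pspace_of_iter (σ := List (List Pos)) Position.code data code_eq _
    (init := fun d => [succs (d.1, cellsL d.2)]) (step := dStep succs) (done := dDone)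
    (out := fun st => st.isEmpty) (by fun_prop) (by unfold dStep; fun_prop)
    (by unfold dDone; fun_prop) (by fun_prop)
    (B := fun d => (sz (cellsL d.2) + 1) *
      (2 * (sz (cellsL d.2) * (2 * (3 + sz (cellsL d.2)) + 1)) + 1))
    ((h3.add (PB.const 1)).mul (((PB.const 2).mul (h3.mul (((PB.const 2).mul
      ((PB.const 3).add h3)).add (PB.const 1)))).add (PB.const 1))) (fun P => ?_)
  set L := cellsL (data P).2 with hL
  have hr := dfs_run (succs := succs) (W := W) (G := fun n x => x.2.length < n ∧ sz x.2 ≤ sz L)
    (F := sz L * (2 * (3 + sz L) + 1))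
    (B := (sz L + 1) * (2 * (sz L * (2 * (3 + sz L) + 1)) + 1))
    (fun x h => by omega)
    (fun n x h y hy => by have := succs_spec hy; omega)
    (fun n x h => sz_succs h.2) W_eq (sz L) (succs ((data P).1, L)) []
    (fun y hy => by
      have := succs_spec hy
      have := length_le_sz L
      simp only at *
      omega)
    (sz_succs le_rfl) (by simp)
  rw [← W_eq] at hr
  refine ⟨_, hr, ?_, ?_⟩
  · cases W ((data P).1, L) <;> rfl
  · have : W ((data P).1, L) = @decide P.MoverWins (Classical.propDecidable _) := by
      have e := cells_eq P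
      classical
      rw [Bool.eq_iff_iff]
      unfold W Position.MoverWins
      rw [decide_eq_true_eq, decide_eq_true_eq, ← e]
      exact Iff.rfl
    rw [← this]
    cases W ((data P).1, L) <;> rfl

end Pool.Agent.MP_79e5e2_lc
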