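import Pool.Agent.MP_79e5e2_lc.QBFHard1

/-! Quantified Boolean formulas are hard for polynomial space. -/

namespace Pool.Agent.MP_79e5e2_lc

open Pool.Agent.MP_2e8011_lc Turing

namespace QH

variable {K : Type} [DecidableEq K] {Γ : K → Type} {Λ σ : Type} (D : Dat Γ Λ σ)

/-- A strict bound on the codes of the symbols in use. -/
def cB : ℕ := ((D.TL.map Dat.ctl ++ D.OL.map Sum.inr).map D.code).sum + 1

omit [DecidableEq K] in
theorem code_lt {s : Sym Γ Λ σ} (hs : Good D.A s) : D.code s < cB D := by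
  refine Nat.lt_succ_of_le (List.single_le_sum (by simp) _ (List.mem_map_of_mem ?_))
  rcases s with q | z
  · refine List.mem_append_left _ (List.mem_map.2 ⟨⟨q.1, q.2, fun _ => []⟩, ?_, rfl⟩)
    exact (D.hTL _).2 ⟨fun k => by simp, fun k γ hγ => by simp at hγ⟩
  · exact List.mem_append_right _ (List.mem_map_of_mem ((D.hOL _).2 hs))

/-- The variable of the slot at offset `p` for position `i` and symbol `s`. -/
def var (B p i : ℕ) (s : Sym Γ Λ σ) : ℕ := p + ((i - (i - B)) * cB D + D.code s % cB D)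

omit [DecidableEq K] in
theorem idx_lt (B i : ℕ) (s : Sym Γ Λ σ) :
    (i - (i - B)) * cB D + D.code s % cB D < (B + 1) * cB D := by
  have h1 : D.code s % cB D < cB D := Nat.mod_lt _ (Nat.succ_pos _)
  have h2 : (i - (i - B)) * cB D ≤ B * cB D := Nat.mul_le_mul_right _ (by omega)
  rw [Nat.succ_mul]
  omega

omit [DecidableEq K] in
theorem var_lt (B p i : ℕ) (s : Sym Γ Λ σ) : var D B p i s < p + (B + 1) * cB D :=
  Nat.add_lt_add_left (idx_lt D B i s) p

/-- The negated description of the window `c`. -/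
def prem (B p : ℕ) (c : TM2.Cfg Γ Λ σ) : List (ℕ × Bool) :=
  (var D B p 0 (Dat.ctl c), false) :: D.KL.flatMap
    (fun k => (List.range D.d).map (fun i => (var D B p i (Dat.cell c k i), false)))

/-- Clauses describing one step from the window `c`. -/
def stepC (B p q : ℕ) (c : TM2.Cfg Γ Λ σ) : CNF :=
  [prem D B p c ++ [(var D B q 0 (Dat.ctl (nxt D.m c)), true)]] ++
  D.KL.flatMap (fun k => (List.range ((nxt D.m c).stk k).length).map
    (fun i => prem D B p c ++ [(var D B q i (Dat.cell (nxt D.m c) k i), true)])) ++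
  D.OL.flatMap (fun s => (List.range (B + 1)).map
    (fun i => prem D B p c ++ [(var D B p (D.d + i) (.inr s), false),
      (var D B q (((nxt D.m c).stk s.1).length + i) (.inr s), true)]))

/-- Clauses describing one step. -/
def stepF (B p q : ℕ) : CNF := D.TL.flatMap (fun c => stepC D B p q c)

/-- Clauses describing the initial configuration. -/
def initF (B : ℕ) (x : List Bool) : CNF :=
  [[(var D B 0 0 (.inl (some D.main, D.v₀)), true)]] ++
  (D.KL.filter (fun k => decide (k ≠ D.k₀))).flatMap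
    (fun k => (List.range (B + 1)).map (fun i => [(var D B 0 i (.inr ⟨k, none⟩), true)])) ++
  (List.range x.length).map (fun i => [(var D B 0 i (D.s0 (some (x.getD i false))), true)]) ++
  (List.range (B + 1)).map (fun i => [(var D B 0 (x.length + i) (D.s0 none), true)])

section PT
variable {α : Type} [Enc α]

omit [DecidableEq K] in
@[fun_prop] theorem pt_var {B p i : α → ℕ} (hB : PT B) (hp : PT p) (hi : PT i) (s : Sym Γ Λ σ) :
    PT (fun a => var D (B a) (p a) (i a) s) := by
  unfold var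
  fun_prop

omit [DecidableEq K] in
@[fun_prop] theorem pt_prem {B p : α → ℕ} (hB : PT B) (hp : PT p) (c : TM2.Cfg Γ Λ σ) :
    PT (fun a => prem D (B a) (p a) c) := by
  unfold prem
  refine PT.cons (by fun_prop) (PT.flatMap_const _ (fun k => PT.map_const _ (fun i => ?_)))
  fun_prop

theorem pt_stepF {B p q : α → ℕ} (hB : PT B) (hp : PT p) (hq : PT q) :
    PT (fun a => stepF D (B a) (p a) (q a)) := by
  unfold stepF stepC
  refine PT.flatMap_const _ (fun c => ?_)
  refine PT.append (PT.append (by fun_prop) (PT.flatMap_const _ (fun k =>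
    PT.map_const _ (fun i => by fun_prop)))) (PT.flatMap_const _ (fun s => by fun_prop))

theorem pt_initF {B : α → ℕ} {x : α → List Bool} (hB : PT B) (hx : PT x) :
    PT (fun a => initF D (B a) (x a)) := by
  unfold initF
  refine PT.append (PT.append (PT.append (by fun_prop)
    (PT.flatMap_const _ (fun k => by fun_prop))) (PT.map ?_ (by fun_prop))) (by fun_prop)
  exact PT.bool_cases (p := fun p : α × ℕ => (x p.1).getD p.2 false) (by fun_prop)
    (g := fun b p => [(var D (B p.1) 0 p.2 (D.s0 (some b)), true)]) (fun b => by fun_prop)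

end PT

theorem bd_initF (B : ℕ) (x : List Bool) : Bd ((B + 1) * cB D) (initF D B x) := by
  have h : ∀ i s, var D B 0 i s < (B + 1) * cB D := fun i s => by simpa using var_lt D B 0 i s
  simp only [Bd, initF, List.forall_mem_append, List.forall_mem_flatMap, List.forall_mem_map,
    List.forall_mem_cons, List.not_mem_nil, h]
  simp

theorem bd_stepF (B p : ℕ) :
    Bd (p + 2 * ((B + 1) * cB D)) (stepF D B p (p + (B + 1) * cB D)) := by
  have h : ∀ i s, var D B p i s < p + 2 * ((B + 1) * cB D) := fun i s => by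
    have := var_lt D B p i s
    omega
  have h' : ∀ i s, var D B (p + (B + 1) * cB D) i s < p + 2 * ((B + 1) * cB D) := fun i s => by
    have := var_lt D B (p + (B + 1) * cB D) i s
    omega
  simp only [Bd, stepF, stepC, prem, List.forall_mem_append, List.forall_mem_flatMap,
    List.forall_mem_map, List.forall_mem_cons, List.not_mem_nil, h, h']
  simp

/-- The window `c` is asserted in the slot at offset `p`. -/
def Prem (a : ℕ → Bool) (B p : ℕ) (c : TM2.Cfg Γ Λ σ) : Prop :=
  a (var D B p 0 (Dat.ctl c)) = true ∧ ∀ k, ∀ i < D.d, a (var D B p i (Dat.cell c k i)) = true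

omit [DecidableEq K] in
theorem prem_iff (a : ℕ → Bool) (B p : ℕ) (c : TM2.Cfg Γ Λ σ) (l : List (ℕ × Bool)) :
    (∃ x ∈ prem D B p c ++ l, a x.1 = x.2) ↔ (Prem D a B p c → ∃ x ∈ l, a x.1 = x.2) := by
  have h : (∃ x ∈ prem D B p c, a x.1 = x.2) ↔ ¬ Prem D a B p c := by
    simp only [prem, Prem, List.mem_cons, List.mem_flatMap, List.mem_map, List.mem_range,
      exists_eq_or_imp, not_and_or, not_forall, Bool.not_eq_true]
    refine or_congr Iff.rfl ⟨?_, ?_⟩
    · rintro ⟨x, ⟨k, -, i, hi, rfl⟩, hx⟩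
      exact ⟨k, i, hi, hx⟩
    · rintro ⟨k, i, hi, hx⟩
      exact ⟨_, ⟨k, D.hKL k, i, hi, rfl⟩, hx⟩
  simp only [List.mem_append, or_and_right, exists_or, h]
  tauto

theorem satBy_stepF (a : ℕ → Bool) (B p q : ℕ) :
    SatBy a (stepF D B p q) ↔ ∀ c ∈ D.TL, Prem D a B p c →
      a (var D B q 0 (Dat.ctl (nxt D.m c))) = true ∧
      (∀ k, ∀ i < ((nxt D.m c).stk k).length,
        a (var D B q i (Dat.cell (nxt D.m c) k i)) = true) ∧
      ∀ s ∈ D.OL, ∀ i < B + 1, a (var D B p (D.d + i) (.inr s)) = true →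
        a (var D B q (((nxt D.m c).stk s.1).length + i) (.inr s)) = true := by
  rw [stepF, Dat.satBy_flatMap]
  refine forall_congr' fun c => forall_congr' fun _ => ?_
  simp only [stepC, Dat.satBy_append, Dat.satBy_flatMap, Dat.satBy_map, Dat.satBy_cons,
    Dat.satBy_nil, prem_iff, List.mem_range, List.mem_cons, List.not_mem_nil, or_false,
    exists_eq_left, and_true, exists_eq_or_imp]
  constructor
  · rintro ⟨⟨h1, h2⟩, h3⟩ hp
    refine ⟨h1 hp, fun k i hi => h2 k (D.hKL k) i hi hp, fun s hs i hi h => ?_⟩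
    rcases h3 s hs i hi hp with h' | h'
    · rw [h] at h'; cases h'
    · exact h'
  · intro h
    refine ⟨⟨fun hp => (h hp).1, fun k _ i hi hp => (h hp).2.1 k i hi⟩, fun s hs i hi hp => ?_⟩
    cases h' : a (var D B p (D.d + i) (.inr s))
    · exact Or.inl rfl
    · exact Or.inr ((h hp).2.2 s hs i hi h')

theorem satBy_initF (a : ℕ → Bool) (B : ℕ) (x : List Bool) :
    SatBy a (initF D B x) ↔ a (var D B 0 0 (.inl (some D.main, D.v₀))) = true ∧
      (∀ k, k ≠ D.k₀ → ∀ i < B + 1, a (var D B 0 i (.inr ⟨k, none⟩)) = true) ∧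
      (∀ i < x.length, a (var D B 0 i (D.s0 (some (x.getD i false)))) = true) ∧
      ∀ i < B + 1, a (var D B 0 (x.length + i) (D.s0 none)) = true := by
  simp only [initF, Dat.satBy_append, Dat.satBy_flatMap, Dat.satBy_map, Dat.satBy_cons,
    Dat.satBy_nil, List.mem_range, List.mem_cons, List.not_mem_nil, or_false, exists_eq_left,
    and_true, List.mem_filter, D.hKL, true_and, decide_eq_true_eq, and_assoc]

/-- Meaning of a symbol at position `i`. -/
def Hd (c : TM2.Cfg Γ Λ σ) (i : ℕ) : Sym Γ Λ σ → Prop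
  | .inl q => i = 0 ∧ (c.l, c.var) = q
  | .inr s => (c.stk s.1)[i]? = s.2

open Classical in
/-- The bits of the code of a configuration. -/
noncomputable def bit (c : TM2.Cfg Γ Λ σ) (j : ℕ) : Bool :=
  decide (∃ s, Good D.A s ∧ D.code s = j % cB D ∧ Hd c (j / cB D) s)

omit [DecidableEq K] in
theorem bit_iff (c : TM2.Cfg Γ Λ σ) (i : ℕ) {s : Sym Γ Λ σ} (hs : Good D.A s) :
    bit D c (i * cB D + D.code s % cB D) = true ↔ Hd c i s := by
  have h0 : 0 < cB D := Nat.succ_pos _
  have h1 := code_lt D hs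
  have h2 : (i * cB D + D.code s % cB D) % cB D = D.code s := by
    rw [Nat.mul_add_mod_self_right, Nat.mod_mod, Nat.mod_eq_of_lt h1]
  have h3 : (i * cB D + D.code s % cB D) / cB D = i := by
    rw [Nat.mod_eq_of_lt h1, add_comm, Nat.add_mul_div_right _ _ h0, Nat.div_eq_of_lt h1, zero_add]
  simp only [bit, h2, h3, decide_eq_true_eq]
  constructor
  · rintro ⟨s', hs', he, hh⟩
    rwa [D.hcode hs' hs he] at hh
  · intro hh
    exact ⟨s, hs, rfl, hh⟩

omit [DecidableEq K] in
theorem hd_sat {c : TM2.Cfg Γ Λ σ} {B : ℕ} (hc : ∀ k, (c.stk k).length ≤ B) (i : ℕ)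
    (z : Σ k, Option (Γ k)) : Hd c (i - (i - B)) (.inr z : Sym Γ Λ σ) ↔ Hd c i (.inr z) := by
  by_cases hi : i ≤ B
  · rw [show i - (i - B) = i by omega]
  · have := hc z.1
    simp only [Hd]
    rw [List.getElem?_eq_none (by omega), List.getElem?_eq_none (by omega)]

omit [DecidableEq K] in
theorem cov_iff {c : TM2.Cfg Γ Λ σ} {B : ℕ} (hc : ∀ k, (c.stk k).length ≤ B)
    (ho : Over D.A c.stk) (a : ℕ → Bool) (p : ℕ) :
    (∀ j < (B + 1) * cB D, bit D c j = true → a (p + j) = true) ↔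
      a (var D B p 0 (Dat.ctl c)) = true ∧
        ∀ k, ∀ i < B + 1, a (var D B p i (Dat.cell c k i)) = true := by
  constructor
  · intro h
    refine ⟨h _ (idx_lt D B 0 _) ?_, fun k i _ => h _ (idx_lt D B i _) ?_⟩
    · exact (bit_iff D c _ (s := Dat.ctl c) trivial).2 ⟨by omega, rfl⟩
    · exact (bit_iff D c _ (D.good_cell ho k i)).2 ((hd_sat hc i _).2 rfl)
  · rintro ⟨h1, h2⟩ j hj hb
    simp only [bit, decide_eq_true_eq] at hb
    obtain ⟨s, hs, he, hh⟩ := hb
    have h3 : j / cB D < B + 1 := Nat.div_lt_of_lt_mul (by rwa [mul_comm])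
    have h4 : p + j = var D B p (j / cB D) s := by
      rw [var, Nat.sub_eq_zero_of_le (Nat.lt_succ_iff.1 h3), Nat.sub_zero, he, Nat.mod_mod,
        Nat.div_add_mod']
    rw [h4]
    rcases s with q | ⟨k, o⟩
    · obtain ⟨h5, rfl⟩ := hh
      rw [h5]
      exact h1
    · have := h2 k _ h3
      simp only [Hd] at hh
      rwa [Dat.cell, hh] at this

omit [DecidableEq K] in
theorem ex_inr {c : TM2.Cfg Γ Λ σ} {B : ℕ} (hc : ∀ k, (c.stk k).length ≤ B) {a : ℕ → Bool} {p : ℕ}
    (h : ∀ j < (B + 1) * cB D, a (p + j) = bit D c j) (i : ℕ) {z : Σ k, Option (Γ k)}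
    (hz : Good (Λ := Λ) (σ := σ) D.A (.inr z)) :
    a (var D B p i (.inr z)) = true ↔ (c.stk z.1)[i]? = z.2 := by
  rw [var, h _ (idx_lt D B i _), bit_iff D c _ hz, hd_sat hc]
  rfl

omit [DecidableEq K] in
theorem ex_inl {c : TM2.Cfg Γ Λ σ} {B : ℕ} {a : ℕ → Bool} {p : ℕ}
    (h : ∀ j < (B + 1) * cB D, a (p + j) = bit D c j) (q : Option Λ × σ) :
    a (var D B p 0 (.inl q)) = true ↔ (c.l, c.var) = q := by
  rw [var, h _ (idx_lt D B 0 _), bit_iff D c _ (s := .inl q) trivial]
  simp [Hd]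

theorem step_sound {c : TM2.Cfg Γ Λ σ} {B : ℕ} (hc : ∀ k, (c.stk k).length ≤ B)
    (hc' : ∀ k, ((nxt D.m c).stk k).length ≤ B) (ho : Over D.A c.stk) {a : ℕ → Bool} {p q : ℕ}
    (h : SatBy a (stepF D B p q))
    (hp : ∀ j < (B + 1) * cB D, bit D c j = true → a (p + j) = true) :
    ∀ j < (B + 1) * cB D, bit D (nxt D.m c) j = true → a (q + j) = true := by
  have h1 := ((cov_iff D hc ho a p).1 hp).1
  have h2 : ∀ k i, a (var D B p i (Dat.cell c k i)) = true := fun k i =>
    hp _ (idx_lt D B i _) ((bit_iff D c _ (D.good_cell ho k i)).2 ((hd_sat hc i _).2 rfl))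
  obtain ⟨g1, g2, g3⟩ := (satBy_stepF D a B p q).1 h _ (D.win_mem ho)
    ⟨h1, fun k i hi => by rw [D.cell_win c k hi]; exact h2 k i⟩
  refine (cov_iff D hc' (over_nxt D.hA ho) a q).2 ⟨by rw [D.ctl_nxt]; exact g1, fun k i hi => ?_⟩
  by_cases hlt : i < ((nxt D.m (win D.d c)).stk k).length
  · rw [D.cell_nxt_lt c k hlt]
    exact g2 k i hlt
  · obtain ⟨j, rfl⟩ := Nat.exists_eq_add_of_le (not_lt.1 hlt)
    have := g3 ⟨k, (c.stk k)[D.d + j]?⟩ ((D.hOL _).2 (D.good_cell ho k _)) j (by omega) (h2 k _)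
    simpa only [Dat.cell, D.stk_nxt_ge] using this

theorem step_complete {c : TM2.Cfg Γ Λ σ} {B : ℕ} (hc : ∀ k, (c.stk k).length ≤ B)
    (hc' : ∀ k, ((nxt D.m c).stk k).length ≤ B) (ho : Over D.A c.stk) {a : ℕ → Bool} {p q : ℕ}
    (hp : ∀ j < (B + 1) * cB D, a (p + j) = bit D c j)
    (hq : ∀ j < (B + 1) * cB D, a (q + j) = bit D (nxt D.m c) j) :
    SatBy a (stepF D B p q) := by
  refine (satBy_stepF D a B p q).2 (fun w hw hpr => ?_)
  obtain rfl : w = win D.d c := by
    obtain ⟨hlen, hover⟩ := (D.hTL w).1 hw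
    have e1 := (ex_inl D hp _).1 hpr.1
    have e2 := fun k i hi => (ex_inr D hc hp i (D.good_cell hover k i)).1 (hpr.2 k i hi)
    obtain ⟨l, v, S⟩ := w
    simp only [Prod.mk.injEq] at e1 e2 hlen
    simp only [win, TM2.Cfg.mk.injEq]
    refine ⟨e1.1.symm, e1.2.symm, funext fun k => List.ext_getElem? fun i => ?_⟩
    by_cases hi : i < D.d
    · rw [List.getElem?_take, if_pos hi, e2 k i hi]
    · rw [List.getElem?_take, if_neg hi, List.getElem?_eq_none ((hlen k).trans (not_lt.1 hi))]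
  refine ⟨?_, fun k i hi => ?_, fun s hs i _ hs' => ?_⟩
  · rw [← D.ctl_nxt]
    exact (ex_inl D hq _).2 rfl
  · rw [← D.cell_nxt_lt c k hi]
    exact (ex_inr D hc' hq i (D.good_cell (over_nxt D.hA ho) k i)).2 rfl
  · rw [ex_inr D hc hp _ ((D.hOL s).1 hs)] at hs'
    rw [ex_inr D hc' hq _ ((D.hOL s).1 hs), D.stk_nxt_ge, hs']

theorem init_sound {x : List Bool} {B : ℕ} (hc : ∀ k, ((D.c0 x).stk k).length ≤ B)
    {a : ℕ → Bool} (h : SatBy a (initF D B x)) :
    ∀ j < (B + 1) * cB D, bit D (D.c0 x) j = true → a (0 + j) = true := by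
  obtain ⟨h1, h2, h3, h4⟩ := (satBy_initF D a B x).1 h
  refine (cov_iff D hc (D.over_c0 x) a 0).2 ⟨h1, fun k i hi => ?_⟩
  by_cases hk : k = D.k₀
  · subst hk
    rw [D.cell_c0]
    by_cases hx : i < x.length
    · simpa [List.getD_eq_getElem?_getD, hx] using h3 i hx
    · obtain ⟨j, rfl⟩ := Nat.exists_eq_add_of_le (not_lt.1 hx)
      rw [List.getElem?_eq_none (by omega)]
      exact h4 j (by omega)
  · rw [D.cell_c0_ne x hk]
    exact h2 k hk i hi

theorem init_complete {x : List Bool} {B : ℕ} (hc : ∀ k, ((D.c0 x).stk k).length ≤ B)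
    {a : ℕ → Bool} (h : ∀ j < (B + 1) * cB D, a (0 + j) = bit D (D.c0 x) j) :
    SatBy a (initF D B x) := by
  refine (satBy_initF D a B x).2 ⟨(ex_inl D h _).2 rfl, fun k hk i _ => ?_, fun i hi => ?_,
    fun i _ => ?_⟩
  · refine (ex_inr D hc h i (by intro γ hγ; cases hγ)).2 ?_
    simp [Dat.c0, Function.update_of_ne hk]
  · refine (ex_inr D hc h i (D.good_s0 _)).2 ?_
    simp [Dat.c0, List.getD_eq_getElem?_getD, hi]
  · refine (ex_inr D hc h _ (D.good_s0 _)).2 ?_
    simp [Dat.c0]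

omit [DecidableEq K] in
theorem bit_inj {c c' : TM2.Cfg Γ Λ σ} {B : ℕ} (hc : ∀ k, (c.stk k).length ≤ B)
    (hc' : ∀ k, (c'.stk k).length ≤ B) (ho : Over D.A c.stk)
    (h : ∀ j < (B + 1) * cB D, bit D c j = bit D c' j) : c = c' := by
  have h1 : ∀ j < (B + 1) * cB D, bit D c (0 + j) = bit D c j := fun j _ => by rw [zero_add]
  have h2 : ∀ j < (B + 1) * cB D, bit D c (0 + j) = bit D c' j := fun j hj => by
    rw [zero_add, h j hj]
  have e1 := (ex_inl D h2 _).1 ((ex_inl D h1 _).2 rfl)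
  have e2 := fun k i => (ex_inr D hc' h2 i (D.good_cell ho k i)).1
    ((ex_inr D hc h1 i (D.good_cell ho k i)).2 rfl)
  obtain ⟨l, v, S⟩ := c
  obtain ⟨l', v', S'⟩ := c'
  simp only [Prod.mk.injEq] at e1 e2
  simp only [TM2.Cfg.mk.injEq]
  exact ⟨e1.1.symm, e1.2.symm, funext fun k => List.ext_getElem? fun i => (e2 k i).symm⟩

/-- The formula attached to the input `x` and the space bound `B`. -/
def form (B : ℕ) (x : List Bool) : List Bool × CNF :=
  (blocks ((B + 1) * cB D) ((B + 1) * cB D + 1),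
    matrix ((B + 1) * cB D) ((B + 1) * cB D) (var D B 0 0 (.inr ⟨D.k₁, some D.bad⟩)) (initF D B x)
      (stepF D B ((B + 1) * cB D * (3 * ((B + 1) * cB D) + 1))
        ((B + 1) * cB D * (3 * ((B + 1) * cB D) + 1) + (B + 1) * cB D)))

theorem pt_form {B : List Bool → ℕ} (hB : PT B) : PT (fun x => form D (B x) x) := by
  unfold form
  refine PT.prodMk (pt_blocks (by fun_prop) (by fun_prop)) (pt_matrix (by fun_prop) (by fun_prop)
    (by fun_prop) (pt_initF D hB PT.id) (pt_stepF D hB (by fun_prop) (by fun_prop)))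

theorem closed_form (B : ℕ) (x : List Bool) : QClosed (form D B x) :=
  qclosed (by simpa using var_lt D B 0 0 _) (bd_initF D B x) (bd_stepF D B _)

theorem true_form {B N : ℕ} {x : List Bool}
    (hB : ∀ t k, (((nxt D.m)^[t] (D.c0 x)).stk k).length ≤ B)
    (hN : ((nxt D.m)^[N] (D.c0 x)).l = none) :
    QTrue (form D B x) ↔ (((nxt D.m)^[N] (D.c0 x)).stk D.k₁)[0]? ≠ some D.bad := by
  have hs : ∀ t k, ((nxt D.m ((nxt D.m)^[t] (D.c0 x))).stk k).length ≤ B := fun t => by
    have := hB (t + 1)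
    rwa [Function.iterate_succ_apply'] at this
  rw [form, qtrue_iff (e := fun t => bit D ((nxt D.m)^[t] (D.c0 x)))
    (by simpa using var_lt D B 0 0 _) (fun a h => init_sound D (hB 0) h)
    (fun a h => init_complete D (hB 0) h)
    (fun a t h hp => by
      have := step_sound D (hB t) (hs t) (D.over_iter x t) h hp
      simpa only [Cov, Function.iterate_succ_apply'] using this)
    (fun a t hp hq => step_complete D (hB t) (hs t) (D.over_iter x t) hp
      (by simpa only [Ex, Function.iterate_succ_apply'] using hq))]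
  obtain ⟨s, t, h1, h2, h3⟩ :=
    exists_rep ((B + 1) * cB D) (fun t => bit D ((nxt D.m)^[t] (D.c0 x)))
  have h4 := iter_eq_of_few (nxt D.m) (D.c0 x) (nxt_iter_halt D.m hN 1)
    ⟨s, t, h1, h2, bit_inj D (hB s) (hB t) (D.over_iter x s) h3⟩
  rw [h4, ← Bool.not_eq_true, ex_inr D (p := 0) (hB N) (fun j _ => by rw [zero_add]) 0
    (by intro γ hγ; cases hγ; exact D.hbad)]

theorem steps_eq_nxt (m : Λ → TM2.Stmt Γ Λ σ) {N t : ℕ} (ht : t ≤ N) {c c' : TM2.Cfg Γ Λ σ}
    (h : (flip bind (TM2.step m))^[N] (some c) = some c') :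
    (flip bind (TM2.step m))^[t] (some c) = some ((nxt m)^[t] c) := by
  obtain ⟨d, rfl⟩ := Nat.exists_eq_add_of_le ht
  rw [add_comm, Function.iterate_add_apply] at h
  cases h1 : (flip bind (TM2.step m))^[t] (some c) with
  | none =>
    rw [h1, Function.iterate_fixed rfl] at h
    cases h
  | some c'' => rw [nxt_iter_of_steps m t c c'' h1]

end QH

/-- Quantified Boolean formulas are hard for polynomial space. -/
theorem qbfHard : QBFHard := by
  rintro L ⟨M, p, hp⟩
  obtain ⟨D, hm, hk₀, hk₁, hmain, hv, hi, hbad⟩ :=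
    exists_dat M.tm M.inputAlphabet.symm (M.outputAlphabet.symm false)
  obtain ⟨m, k₀, k₁, main, v₀, i₀, bad, d, hd, A, hA, hi', hbad', KL, hKL, TL, hTL, OL, hOL, code,
    hcode⟩ := D
  simp only at hm hk₀ hk₁ hmain hv hi hbad
  subst hm hk₀ hk₁ hmain hv
  obtain rfl := eq_of_heq hi
  obtain rfl := eq_of_heq hbad
  set D : Dat M.tm.Γ M.tm.Λ M.tm.σ := ⟨M.tm.m, M.tm.k₀, M.tm.k₁, M.tm.main, M.tm.initialState,
    M.inputAlphabet.symm, M.outputAlphabet.symm false, d, hd, A, hA, hi', hbad', KL, hKL, TL, hTL,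
    OL, hOL, code, hcode⟩ with hD
  refine ⟨fun x => QH.form D (p.eval x.length) x, QH.pt_form D (by fun_prop),
    fun x => ⟨QH.closed_form D _ x, ?_⟩⟩
  obtain ⟨n, hn⟩ := M.outputsFun x
  have h1 := nxt_iter_of_steps M.tm.m n _ _ hn
  have h2 : D.c0 x = initList M.tm (List.map M.inputAlphabet.invFun (id x)) := by
    simp only [Dat.c0, initList, hD]
    congr 1
    funext k
    by_cases hk : k = M.tm.k₀
    · subst hk
      rw [dif_pos rfl]
      exact Function.update_self (β := fun k => List (M.tm.Γ k)) ..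
    · rw [dif_neg hk]
      exact Function.update_of_ne (β := fun k => List (M.tm.Γ k)) hk _ _
  have h3 : (nxt D.m)^[n] (D.c0 x) = haltList M.tm
      (List.map M.outputAlphabet.invFun (Computability.encodeBool (L x))) := by
    rw [h2]; exact h1
  have h4 : ((nxt D.m)^[n] (D.c0 x)).l = none := by rw [h3]; rfl
  have h5 : ∀ t ≤ n, ∀ k, (((nxt D.m)^[t] (D.c0 x)).stk k).length ≤ p.eval x.length := by
    intro t ht
    rw [h2]
    exact hp x t _ (QH.steps_eq_nxt M.tm.m ht hn)
  rw [QH.true_form D (N := n) (fun t => ?_) h4, h3]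
  · change _ ↔ ((haltList M.tm _).stk M.tm.k₁)[0]? ≠ some (M.outputAlphabet.symm false)
    simp only [haltList, Computability.encodeBool]
    cases L x <;> simp
  · rcases le_total t n with ht | ht
    · exact h5 t ht
    · obtain ⟨e, rfl⟩ := Nat.exists_eq_add_of_le ht
      rw [add_comm, Function.iterate_add_apply, nxt_iter_halt _ h4]
      exact h5 n le_rfl

end Pool.Agent.MP_79e5e2_lc
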