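import Pool.Agent.MP_79e5e2_lc.Core
import Pool.Agent.MP_79e5e2_lc.Defs

/-! Networks of pieces: a token game on the pieces determines the winner of the board. -/

namespace Pool.Agent.MP_79e5e2_lc

/-- Entering by `port`, the token leaves by one of the `good` exits and the label becomes
`next`. -/
structure Req where
  port : ℕ
  good : List ℕ
  next : ℕ
deriving DecidableEq

/-- States of a piece. -/
inductive Tag : Type
  | rest (L : ℕ) : Tag
  | wy (q : Req) : Tag
  | wx (q : Req) : Tag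
deriving DecidableEq

/-- A kind of piece. -/
structure Kind where
  cells : Finset ℕ
  stub : List ℕ
  n : ℤ
  inp : List (ℕ × ℕ)
  out : List (ℕ × ℕ × ℕ)
  reqs : ℕ → List Req

namespace Kind
variable (K : Kind)

/-- End cell of an entering stub. -/
def iz (p : ℕ) : ℕ := (K.inp.getD p (0, 0)).1
/-- Middle cell of an entering stub. -/
def im (p : ℕ) : ℕ := (K.inp.getD p (0, 0)).2
/-- Inner cell of a leaving stub. -/
def oc (o : ℕ) : ℕ := (K.out.getD o (0, 0, 0)).1
/-- Middle cell of a leaving stub. -/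
def om (o : ℕ) : ℕ := (K.out.getD o (0, 0, 0)).2.1
/-- End cell of a leaving stub. -/
def oz (o : ℕ) : ℕ := (K.out.getD o (0, 0, 0)).2.2

/-- Shape of the ports. -/
structure OK : Prop where
  hx : ∀ u ∈ K.cells, u + 16 ∈ K.cells → u ∉ K.stub ∧ u + 16 ∉ K.stub
  hi : ∀ p < K.inp.length, K.iz p ∈ K.cells ∧ K.im p ∈ K.cells ∧ K.iz p ∈ K.stub ∧
    K.im p ∈ K.stub ∧ ((K.im p = K.iz p + 1 ∧ K.iz p - 1 ∉ K.cells) ∨
      (K.iz p = K.im p + 1 ∧ K.iz p + 1 ∉ K.cells))
  ho : ∀ o < K.out.length, K.oc o ∈ K.cells ∧ K.oc o ∉ K.stub ∧ K.om o ∈ K.stub ∧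
    K.oz o ∈ K.stub ∧ ((K.om o = K.oc o + 1 ∧ K.oz o = K.om o + 1 ∧ K.oz o + 1 ∉ K.cells) ∨
      (K.oc o = K.om o + 1 ∧ K.om o = K.oz o + 1 ∧ K.oz o - 1 ∉ K.cells))
  hio : ∀ p < K.inp.length, ∀ o < K.out.length, K.iz p ≠ K.om o ∧ K.iz p ≠ K.oz o

/-- A family of states closed under the rules. -/
structure Closed (R : Tag → Finset ℕ → Prop) : Prop where
  rest : ∀ L s, R (.rest L) s → Bd false {At.brd s} K.n ∧
    (∀ t, BMv false s t → Bd true {At.brd t} (K.n - 3) ∨ ∃ t', BMv true t t' ∧ R (.rest L) t') ∧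
    ∀ q ∈ K.reqs L, R (.wy q) (s.erase (K.iz q.port))
  wy : ∀ q s, R (.wy q) s → Bd false {At.brd s} (K.n - 4) ∨
    (∃ o ∈ q.good, K.om o ∈ s ∧ K.oz o ∈ s ∧ K.oc o ∉ s ∧ R (.rest q.next) s) ∨
    (Bd false {At.brd s} (K.n - 1) ∧ ∀ t, BMv false s t → R (.wx q) t)
  wx : ∀ q s, R (.wx q) s → Bd true {At.brd s} (K.n - 4) ∨ ∃ t, BMv true s t ∧ R (.wy q) t

end Kind

/-- Equality of unordered pairs. -/
def Pr {α : Type} (a b p q : α) : Prop := (a = p ∧ b = q) ∨ (a = q ∧ b = p)

/-- The real game seen from player `X`. -/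
def RMv (X : Bool) (p : Bool) : Finset (ℕ × ℕ) → Finset (ℕ × ℕ) → Prop :=
  Move (if p then X else !X)

theorem outcome_of_W {X t : Bool} {S : Finset (ℕ × ℕ)} (h : W (RMv X) true t S) :
    Outcome t (if t then X else !X) S := by
  induction h with
  | first h1 _ ih => exact Outcome.win h1 ih
  | second _ ih => exact Outcome.lose fun T hT => by simpa using ih T hT

theorem Outcome.excl {t p : Bool} {S : Finset (ℕ × ℕ)} (h : Outcome t p S) :
    ¬ Outcome (!t) p S := by
  induction h with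
  | win h1 _ ih =>
    intro h2
    cases h2 with
    | lose h3 => exact ih (h3 _ h1)
  | lose _ ih =>
    intro h2
    cases h2 with
    | win h3 h4 => exact ih _ h3 h4

theorem Move.card_lt {p : Bool} {S T : Finset (ℕ × ℕ)} (h : Move p S T) : T.card < S.card := by
  obtain ⟨i, h1, -, rfl⟩ := h
  exact lt_of_le_of_lt Finset.card_erase_le (Finset.card_erase_lt_of_mem h1)

/-- A network of placed pieces. -/
structure Net (ι : Type) where
  X : Bool
  I : Finset ι
  kind : ι → Kind
  φ : ι → ℕ → ℕ × ℕ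
  R : ι → Tag → Finset ℕ → Prop

namespace Net
variable {ι : Type} [DecidableEq ι] (N : Net ι)

/-- Static conditions. -/
structure Geo : Prop where
  ok : ∀ i ∈ N.I, (N.kind i).OK
  cl : ∀ i ∈ N.I, (N.kind i).Closed (N.R i)
  inj : ∀ i ∈ N.I, ∀ u ∈ (N.kind i).cells, ∀ w ∈ (N.kind i).cells, N.φ i u = N.φ i w → u = w
  adj : ∀ i ∈ N.I, ∀ u ∈ (N.kind i).cells, u + 16 ∈ (N.kind i).cells →
    N.φ i (u + 16) = nb N.X (N.φ i u) ∨ N.φ i u = nb N.X (N.φ i (u + 16))
  uniq : ∀ i ∈ N.I, ∀ k ∈ N.I, ∀ u ∈ (N.kind i).cells, u ∉ (N.kind i).stub →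
    ∀ w ∈ (N.kind k).cells, N.φ i u = N.φ k w → i = k
  sum : ∑ i ∈ N.I, (N.kind i).n ≤ 4

/-- Exit `o` of `k` is glued to entry `p` of `j`. -/
def Lk (k : ι) (o : ℕ) (j : ι) (p : ℕ) : Prop :=
  k ∈ N.I ∧ j ∈ N.I ∧ o < (N.kind k).out.length ∧ p < (N.kind j).inp.length ∧
    N.φ k ((N.kind k).oz o) = N.φ j ((N.kind j).iz p)

/-- The pieces in state `s` dominate the board `S`. -/
structure Inv (S : Finset (ℕ × ℕ)) (s : ι → Finset ℕ) : Prop where
  sub : ∀ i ∈ N.I, s i ⊆ (N.kind i).cells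
  ex : ∀ i ∈ N.I, ∀ u ∈ (N.kind i).cells, u ∉ (N.kind i).stub → (u ∈ s i ↔ N.φ i u ∈ S)
  cov : ∀ p ∈ S, nb (!N.X) p ∈ S →
    (∃ i ∈ N.I, ∃ u, u ∈ s i ∧ u + 1 ∈ s i ∧ Pr (N.φ i u) (N.φ i (u + 1)) p (nb (!N.X) p)) ∨
    (∃ k o j e, N.Lk k o j e ∧ (N.kind k).om o ∈ s k ∧ (N.kind k).oz o ∈ s k ∧
      N.φ k ((N.kind k).oc o) ∉ S ∧
      Pr (N.φ j ((N.kind j).iz e)) (N.φ j ((N.kind j).im e)) p (nb (!N.X) p))

variable {N}

theorem erase_pr {α : Type} [DecidableEq α] {S : Finset α} {a b p q : α} (h : Pr a b p q) (x : α) :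
    x ∈ (S.erase p).erase q ↔ x ∈ S ∧ x ≠ a ∧ x ≠ b := by
  simp only [Finset.mem_erase]
  rcases h with ⟨rfl, rfl⟩ | ⟨rfl, rfl⟩ <;> tauto

theorem Pr.mem {α : Type} {S : Finset α} {a b p q : α} (h : Pr a b p q) (hp : p ∈ S) (hq : q ∈ S) :
    a ∈ S ∧ b ∈ S := by
  rcases h with ⟨rfl, rfl⟩ | ⟨rfl, rfl⟩ <;> tauto

/-- Removing the same two cells on the board and in a piece. -/
theorem Inv.direct (g : N.Geo) {S S' : Finset (ℕ × ℕ)} {s : ι → Finset ℕ} (h : N.Inv S s) {i : ι}
    (hi : i ∈ N.I) {u v : ℕ} (hu : u ∈ s i) (hv : v ∈ s i)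
    (hS : ∀ x, x ∈ S' ↔ x ∈ S ∧ x ≠ N.φ i u ∧ x ≠ N.φ i v)
    (halt : ∀ o < (N.kind i).out.length, N.φ i ((N.kind i).oc o) ∉ S →
      N.φ i ((N.kind i).oz o) ∈ S' → (N.kind i).om o ≠ u ∧ (N.kind i).om o ≠ v) :
    N.Inv S' (Function.update s i (((s i).erase u).erase v)) := by
  have hu' := h.sub i hi hu
  have hv' := h.sub i hi hv
  have keep : ∀ k ∈ N.I, ∀ w, w ∈ s k → N.φ k w ∈ S' →
      w ∈ Function.update s i (((s i).erase u).erase v) k := by
    intro k _ w hw hw'
    rw [hS] at hw'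
    by_cases e : k = i
    · subst e
      simp only [Function.update_self, Finset.mem_erase]
      exact ⟨fun e => hw'.2.2 (e ▸ rfl), fun e => hw'.2.1 (e ▸ rfl), hw⟩
    · rwa [Function.update_of_ne e]
  refine ⟨fun k hk w hw => ?_, fun k hk w hw hw' => ?_, fun p hp hq => ?_⟩
  · by_cases e : k = i
    · subst e
      simp only [Function.update_self, Finset.mem_erase] at hw
      exact h.sub k hk hw.2.2
    · rw [Function.update_of_ne e] at hw
      exact h.sub k hk hw
  · refine ⟨fun h1 => ?_, fun h1 => keep k hk w ((h.ex k hk w hw hw').2 ((hS _).1 h1).1) h1⟩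
    rw [hS]
    by_cases e : k = i
    · subst e
      simp only [Function.update_self, Finset.mem_erase] at h1
      exact ⟨(h.ex k hk w hw hw').1 h1.2.2, fun e => h1.2.1 (g.inj k hk _ hw _ hu' e),
        fun e => h1.1 (g.inj k hk _ hw _ hv' e)⟩
    · rw [Function.update_of_ne e] at h1
      exact ⟨(h.ex k hk w hw hw').1 h1, fun e' => e (g.uniq k hk i hi w hw hw' _ hu' e'),
        fun e' => e (g.uniq k hk i hi w hw hw' _ hv' e')⟩
  · rcases h.cov p ((hS _).1 hp).1 ((hS _).1 hq).1 with ⟨k, hk, w, h1, h2, h3⟩ |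
      ⟨k, o, j, e, h1, h2, h3, h4, h5⟩
    · have := Pr.mem h3 hp hq
      exact Or.inl ⟨k, hk, w, keep k hk _ h1 this.1, keep k hk _ h2 this.2, h3⟩
    · have h6 := (Pr.mem h5 hp hq).1
      rw [← h1.2.2.2.2] at h6
      refine Or.inr ⟨k, o, j, e, h1, ?_, keep k h1.1 _ h3 h6, fun h7 => h4 ((hS _).1 h7).1, h5⟩
      by_cases e : k = i
      · subst e
        have := halt o h1.2.2.1 h4 h6
        simp only [Function.update_self, Finset.mem_erase]
        exact ⟨this.2, this.1, h2⟩
      · rwa [Function.update_of_ne e]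

theorem Inv.xmove (g : N.Geo) {S : Finset (ℕ × ℕ)} {s : ι → Finset ℕ} (h : N.Inv S s) {i : ι}
    (hi : i ∈ N.I) {t : Finset ℕ} (ht : BMv true (s i) t) :
    ∃ S', RMv N.X true S S' ∧ N.Inv S' (Function.update s i t) := by
  obtain ⟨u, h1, h2, rfl⟩ := ht
  change u + 16 ∈ s i at h2
  have h3 := h.sub i hi h1
  have h4 := h.sub i hi h2
  have h5 := (g.ok i hi).hx u h3 h4
  have h6 := (h.ex i hi _ h3 h5.1).1 h1
  have h7 := (h.ex i hi _ h4 h5.2).1 h2
  have halt : ∀ o < (N.kind i).out.length,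
      (N.kind i).om o ≠ u ∧ (N.kind i).om o ≠ u + 16 := by
    intro o ho
    have := ((g.ok i hi).ho o ho).2.2.1
    exact ⟨fun e => h5.1 (e ▸ this), fun e => h5.2 (e ▸ this)⟩
  rcases g.adj i hi u h3 h4 with e | e
  · refine ⟨_, ⟨N.φ i u, h6, e ▸ h7, rfl⟩, h.direct g hi h1 h2 ?_ fun o ho _ _ => halt o ho⟩
    exact erase_pr (Or.inl ⟨rfl, e⟩)
  · refine ⟨_, ⟨N.φ i (u + 16), h7, e ▸ h6, rfl⟩, h.direct g hi h1 h2 ?_ fun o ho _ _ => halt o ho⟩
    exact erase_pr (Or.inr ⟨e, rfl⟩)

theorem Inv.ymove (g : N.Geo) {S S' : Finset (ℕ × ℕ)} {s : ι → Finset ℕ} (h : N.Inv S s)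
    (hm : RMv N.X false S S') :
    ∃ i ∈ N.I, ∃ t, BMv false (s i) t ∧ N.Inv S' (Function.update s i t) := by
  obtain ⟨p, hp, hq, rfl⟩ := hm
  change nb (!N.X) p ∈ S at hq
  rcases h.cov p hp hq with ⟨i, hi, u, h1, h2, h3⟩ | ⟨k, o, j, e, h1, h2, h3, h4, h5⟩
  · refine ⟨i, hi, _, ⟨u, h1, h2, rfl⟩, h.direct g hi h1 h2 (erase_pr h3) fun o ho h4 h5 => ?_⟩
    have h6 := Pr.mem h3 hp hq
    have h7 := (erase_pr h3 _).1 h5
    have h8 : (N.kind i).oc o ≠ u ∧ (N.kind i).oc o ≠ u + 1 :=
      ⟨fun e => h4 (e ▸ h6.1), fun e => h4 (e ▸ h6.2)⟩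
    have h9 : (N.kind i).oz o ≠ u ∧ (N.kind i).oz o ≠ u + 1 :=
      ⟨fun e => h7.2.1 (e ▸ rfl), fun e => h7.2.2 (e ▸ rfl)⟩
    have := ((g.ok i hi).ho o ho).2.2.2.2
    change _ ∧ _ ≠ u + 1
    omega
  · obtain ⟨hk, hj, ho, he, hz⟩ := h1
    have hS := erase_pr (S := S) h5
    have a1 := (g.ok k hk).ho o ho
    have a2 := (g.ok j hj).hi e he
    have hb : BMv false (s k) (((s k).erase ((N.kind k).om o)).erase ((N.kind k).oz o)) := by
      rcases a1.2.2.2.2 with a | a
      · exact ⟨_, h2, by rw [show st false = 1 from rfl, ← a.2.1]; exact h3,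
          by rw [show st false = 1 from rfl, ← a.2.1]⟩
      · exact ⟨_, h3, by rw [show st false = 1 from rfl, ← a.2.1]; exact h2,
          by rw [show st false = 1 from rfl, ← a.2.1, Finset.erase_right_comm]⟩
    refine ⟨k, hk, _, hb, fun i hi w hw => ?_, fun i hi w hw hw' => ?_, fun p' hp' hq' => ?_⟩
    · by_cases e : i = k
      · subst e
        simp only [Function.update_self, Finset.mem_erase] at hw
        exact h.sub i hi hw.2.2
      · rw [Function.update_of_ne e] at hw
        exact h.sub i hi hw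
    · have b1 : N.φ i w ≠ N.φ j ((N.kind j).iz e) := fun b => by
        obtain rfl := g.uniq i hi j hj w hw hw' _ a2.1 b
        exact hw' (g.inj i hi _ hw _ a2.1 b ▸ a2.2.2.1)
      have b2 : N.φ i w ≠ N.φ j ((N.kind j).im e) := fun b => by
        obtain rfl := g.uniq i hi j hj w hw hw' _ a2.2.1 b
        exact hw' (g.inj i hi _ hw _ a2.2.1 b ▸ a2.2.2.2.1)
      change _ ↔ _ ∈ (S.erase p).erase (nb (!N.X) p)
      rw [hS, ← h.ex i hi w hw hw']
      by_cases e : i = k
      · subst e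
        have b3 : w ≠ (N.kind i).om o := fun b => hw' (b ▸ a1.2.2.1)
        have b4 : w ≠ (N.kind i).oz o := fun b => hw' (b ▸ a1.2.2.2.1)
        simp [b1, b2, b3, b4]
      · simp [b1, b2, Function.update_of_ne e]
    · change p' ∈ (S.erase p).erase (nb (!N.X) p) at hp'
      change nb (!N.X) p' ∈ (S.erase p).erase (nb (!N.X) p) at hq'
      have c1 : ∀ w, N.φ k w ∈ (S.erase p).erase (nb (!N.X) p) →
          w ≠ (N.kind k).oz o ∧ w ≠ (N.kind k).oc o := fun w hw => by
        rw [hS] at hw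
        exact ⟨fun b => hw.2.1 (b ▸ hz), fun b => h4 (b ▸ hw.1)⟩
      rcases h.cov p' ((hS _).1 hp').1 ((hS _).1 hq').1 with ⟨i, hi, w, b1, b2, b3⟩ |
        ⟨k', o', j', e', b1, b2, b3, b4, b5⟩
      · refine Or.inl ⟨i, hi, w, ?_⟩
        by_cases e : i = k
        · subst e
          have b4 := Pr.mem b3 hp' hq'
          have b5 := c1 _ b4.1
          have b6 := c1 _ b4.2
          have := a1.2.2.2.2
          simp only [Function.update_self, Finset.mem_erase]
          exact ⟨⟨by omega, by omega, b1⟩, ⟨by omega, by omega, b2⟩, b3⟩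
        · rw [Function.update_of_ne e]
          exact ⟨b1, b2, b3⟩
      · have b6 := (Pr.mem b5 hp' hq').1
        rw [← b1.2.2.2.2] at b6
        refine Or.inr ⟨k', o', j', e', b1, ?_, ?_, fun b => b4 ((hS _).1 b).1, b5⟩ <;>
          by_cases e : k' = k
        all_goals first
          | rwa [Function.update_of_ne e]
          | skip
        all_goals
          subst e
          have b7 := c1 _ b6
          have b8 := (g.ok k' hk).ho o' b1.2.2.1
          have b9 : (N.kind k').oc o' ∈ (N.kind k').cells := b8.1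
          have d1 := h.sub k' hk h3
          have d2 := h.sub k' hk b3
          have d3 := h.sub k' hk b2
          have d4 := a1.1
          simp only [Function.update_self, Finset.mem_erase]
        · refine ⟨fun b => ?_, fun b => ?_, b2⟩
          · rcases a1.2.2.2.2 with a | a <;> rcases b8.2.2.2.2 with a' | a'
            · exact a.2.2 (by rw [← b, ← a'.2.1]; exact d2)
            · exact a.2.2 (by rw [← b, ← a'.1]; exact b9)
            · exact a.2.2 (by rw [← b, a'.1]; exact b9)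
            · exact a.2.2 (by rw [← b, a'.2.1]; exact d2)
          · have := a1.2.2.2.2
            have := b8.2.2.2.2
            omega
        · refine ⟨b7.1, fun b => ?_, b3⟩
          rcases a1.2.2.2.2 with a | a <;> rcases b8.2.2.2.2 with a' | a'
          · exact a'.2.2 (by rw [b, ← a.2.1]; exact d1)
          · exact a'.2.2 (by rw [b, a.1]; exact d4)
          · exact a'.2.2 (by rw [b, ← a.1]; exact d4)
          · exact a'.2.2 (by rw [b, a.2.1]; exact d1)

theorem Inv.entry (g : N.Geo) {S : Finset (ℕ × ℕ)} {s : ι → Finset ℕ} (h : N.Inv S s)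
    {k j : ι} {o e : ℕ} (hl : N.Lk k o j e) (h1 : (N.kind k).om o ∈ s k)
    (h2 : (N.kind k).oz o ∈ s k) (h3 : (N.kind k).oc o ∉ s k) :
    N.Inv S (Function.update s j ((s j).erase ((N.kind j).iz e))) := by
  obtain ⟨hk, hj, ho, he, hz⟩ := id hl
  have a1 := (g.ok k hk).ho o ho
  have a2 := (g.ok j hj).hi e he
  have keep : ∀ k' o', o' < (N.kind k').out.length → ∀ w ∈ s k',
      w = (N.kind k').om o' ∨ w = (N.kind k').oz o' →
      w ∈ Function.update s j ((s j).erase ((N.kind j).iz e)) k' := by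
    intro k' o' ho' w hw hw'
    by_cases e' : k' = j
    · subst e'
      have := (g.ok k' hj).hio e he o' ho'
      simp only [Function.update_self, Finset.mem_erase]
      exact ⟨by omega, hw⟩
    · rwa [Function.update_of_ne e']
  refine ⟨fun i hi w hw => ?_, fun i hi w hw hw' => ?_, fun p hp hq => ?_⟩
  · by_cases e' : i = j
    · subst e'
      simp only [Function.update_self, Finset.mem_erase] at hw
      exact h.sub i hi hw.2
    · rw [Function.update_of_ne e'] at hw
      exact h.sub i hi hw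
  · rw [← h.ex i hi w hw hw']
    by_cases e' : i = j
    · subst e'
      have : w ≠ (N.kind i).iz e := fun b => hw' (b ▸ a2.2.2.1)
      simp [this]
    · rw [Function.update_of_ne e']
  · rcases h.cov p hp hq with ⟨i, hi, w, b1, b2, b3⟩ | ⟨k', o', j', e', b1, b2, b3, b4, b5⟩
    · by_cases e' : i = j ∧ (w = (N.kind j).iz e ∨ w + 1 = (N.kind j).iz e)
      · obtain ⟨rfl, e'⟩ := e'
        refine Or.inr ⟨k, o, i, e, hl, keep k o ho _ h1 (Or.inl rfl), keep k o ho _ h2 (Or.inr rfl),
          fun b => h3 ((h.ex k hk _ a1.1 a1.2.1).2 b), ?_⟩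
        have d1 := h.sub i hi b1
        have d2 := h.sub i hi b2
        rcases e' with e' | e' <;> rcases a2.2.2.2.2 with a | a
        · rw [a.1, ← e']; exact b3
        · exact absurd (e' ▸ d2) a.2
        · exact absurd (by rw [← e']; exact d1) a.2
        · have : (N.kind i).im e = w := by omega
          rw [this, ← e']
          unfold Pr at b3 ⊢
          tauto
      · refine Or.inl ⟨i, hi, w, ?_⟩
        by_cases e'' : i = j
        · subst e''
          simp only [Function.update_self, Finset.mem_erase]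
          exact ⟨⟨by tauto, b1⟩, ⟨by tauto, b2⟩, b3⟩
        · rw [Function.update_of_ne e'']
          exact ⟨b1, b2, b3⟩
    · exact Or.inr ⟨k', o', j', e', b1, keep k' o' b1.2.2.1 _ b2 (Or.inl rfl),
        keep k' o' b1.2.2.1 _ b3 (Or.inr rfl), b4, b5⟩

omit [DecidableEq ι] in
theorem bd_sum (I : Finset ι) (s : ι → Finset ℕ) (u : ι → ℤ)
    (h : ∀ i ∈ I, Bd false {At.brd (s i)} (u i)) :
    Bd false (∑ i ∈ I, {At.brd (s i)}) (∑ i ∈ I, u i) := by
  classical
  induction I using Finset.induction_on with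
  | empty => simpa using Bd.zero
  | insert a I ha ih =>
    rw [Finset.sum_insert ha, Finset.sum_insert ha]
    exact (h a (Finset.mem_insert_self _ _)).add
      (ih fun i hi => h i (Finset.mem_insert_of_mem hi)) le_rfl

theorem sum_update (I : Finset ι) (s : ι → Finset ℕ) {i : ι} (hi : i ∈ I) (t : Finset ℕ) :
    (∑ k ∈ I, {At.brd (Function.update s i t k)} : Multiset At) =
      {At.brd t} + ∑ k ∈ I.erase i, {At.brd (s k)} := by
  rw [← Finset.add_sum_erase _ _ hi, Function.update_self]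
  congr 1
  exact Finset.sum_congr rfl fun k hk => by rw [Function.update_of_ne (Finset.mem_erase.1 hk).1]

theorem mv_sum (I : Finset ι) (s : ι → Finset ℕ) {p : Bool} {K : Multiset At}
    (h : Mv p (∑ k ∈ I, {At.brd (s k)}) K) :
    ∃ i ∈ I, ∃ t, BMv p (s i) t ∧ K = ∑ k ∈ I, {At.brd (Function.update s i t k)} := by
  obtain ⟨a, c, R, h1, h2, rfl⟩ := h
  have : a ∈ (∑ k ∈ I, {At.brd (s k)} : Multiset At) := h2 ▸ Multiset.mem_cons_self a R
  simp only [Multiset.mem_sum, Multiset.mem_singleton] at this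
  obtain ⟨i, hi, rfl⟩ := this
  cases c with
  | num q => exact h1.elim
  | brd t =>
    refine ⟨i, hi, t, h1, ?_⟩
    rw [sum_update I s hi]
    rw [← Finset.add_sum_erase _ _ hi, Multiset.singleton_add, Multiset.cons_inj_right] at h2
    rw [h2, Multiset.singleton_add]

theorem Inv.crude (g : N.Geo) {S : Finset (ℕ × ℕ)} {s : ι → Finset ℕ} (h : N.Inv S s) {t : Bool}
    {j : ι} (hj : j ∈ N.I) (u : ι → ℤ) (h1 : Bd t {At.brd (s j)} (u j))
    (h2 : ∀ i ∈ N.I, i ≠ j → Bd false {At.brd (s i)} (u i)) (h3 : ∑ i ∈ N.I, u i ≤ 0) :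
    W (RMv N.X) true t S := by
  have h4 : Bd t (∑ k ∈ N.I, {At.brd (s k)}) 0 := by
    rw [← Finset.add_sum_erase _ _ hj] at h3 ⊢
    exact h1.add (bd_sum _ s u fun i hi =>
      h2 i (Finset.mem_erase.1 hi).2 (Finset.mem_erase.1 hi).1) h3
  refine W.sim (fun M S => ∃ s, M = ∑ k ∈ N.I, {At.brd (s k)} ∧ N.Inv S s) ?_ ?_ h4.win S
    ⟨s, rfl, h⟩
  · rintro _ S ⟨s, rfl, h⟩ K hK
    obtain ⟨i, hi, t, h5, rfl⟩ := mv_sum _ _ hK
    obtain ⟨S', h6, h7⟩ := h.xmove g hi h5
    exact ⟨S', h6, _, rfl, h7⟩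
  · rintro _ S ⟨s, rfl, h⟩ S' hS
    obtain ⟨i, hi, t, h5, h6⟩ := h.ymove g hS
    refine ⟨_, ?_, _, rfl, h6⟩
    rw [sum_update _ s hi, ← Finset.add_sum_erase _ _ hi]
    exact (Mv.single (a := .brd _) (c := .brd _) h5).add_right _

variable (N) in
/-- The token game. -/
inductive TR : (ι → ℕ) → ι → Req → Prop
  | mk (lab : ι → ℕ) (j : ι) (q : Req) (nx : ℕ → ι × Req) :
      (∀ o ∈ q.good, N.Lk j o (nx o).1 (nx o).2.port ∧
        (nx o).2 ∈ (N.kind (nx o).1).reqs (Function.update lab j q.next (nx o).1)) →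
      (∀ o ∈ q.good, TR (Function.update lab j q.next) (nx o).1 (nx o).2) → TR lab j q

theorem main (g : N.Geo) {lab : ι → ℕ} {j : ι} {q : Req} (h : N.TR lab j q) :
    j ∈ N.I → ∀ (S : Finset (ℕ × ℕ)) (s : ι → Finset ℕ), N.Inv S s →
      (∀ i ∈ N.I, i ≠ j → N.R i (.rest (lab i)) (s i)) →
      (N.R j (.wy q) (s j) → W (RMv N.X) true false S) ∧
      (N.R j (.wx q) (s j) → W (RMv N.X) true true S) := by
  induction h with
  | mk lab j q nx hl _ ih =>
    intro hj S
    induction' hn : S.card using Nat.strong_induction_on with n ihn generalizing S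
    intro s hI hr
    have crude : ∀ t, Bd t {At.brd (s j)} ((N.kind j).n - 4) → W (RMv N.X) true t S := by
      intro t ht
      refine hI.crude g hj (fun i => (N.kind i).n - if i = j then 4 else 0) (by simpa using ht)
        (fun i hi hij => by simpa [hij] using ((g.cl i hi).rest _ _ (hr i hi hij)).1) ?_
      have := g.sum
      simp only [Finset.sum_sub_distrib, Finset.sum_ite_eq', hj, if_true]
      omega
    have upd : ∀ t, ∀ i ∈ N.I, i ≠ j → N.R i (.rest (lab i)) (Function.update s j t i) :=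
      fun t i hi hij => by rw [Function.update_of_ne hij]; exact hr i hi hij
    constructor
    · intro hw
      rcases (g.cl j hj).wy _ _ hw with h1 | ⟨o, ho, h1, h2, h3, h4⟩ | ⟨h1, h2⟩
      · exact crude _ h1
      · obtain ⟨h5, h6⟩ := hl o ho
        have h7 : ∀ i ∈ N.I, N.R i (.rest (Function.update lab j q.next i)) (s i) := by
          intro i hi
          by_cases e : i = j
          · subst e
            rwa [Function.update_self]
          · rw [Function.update_of_ne e]
            exact hr i hi e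
        refine (ih o ho h5.2.1 S _ (hI.entry g h5 h1 h2 h3) fun i hi e => ?_).1 ?_
        · rw [Function.update_of_ne e]
          exact h7 i hi
        · rw [Function.update_self]
          exact ((g.cl _ h5.2.1).rest _ _ (h7 _ h5.2.1)).2.2 _ h6
      · refine W.second fun S' hS' => ?_
        have hlt := Move.card_lt hS'
        obtain ⟨i, hi, t, h3, h4⟩ := hI.ymove g hS'
        by_cases e : i = j
        · subst e
          refine (ihn _ (hn ▸ hlt) S' rfl _ h4 (upd t)).2 ?_
          rw [Function.update_self]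
          exact h2 t h3
        · rcases ((g.cl i hi).rest _ _ (hr i hi e)).2.1 t h3 with h5 | ⟨t', h5, h6⟩
          · refine h4.crude g hi
              (fun k => (N.kind k).n - (if k = j then 1 else 0) - if k = i then 3 else 0)
              (by simpa [e] using h5) (fun k hk hki => ?_) ?_
            · rw [Function.update_of_ne hki]
              by_cases e' : k = j
              · subst e'
                simpa [hki] using h1
              · simpa [hki, e'] using ((g.cl k hk).rest _ _ (hr k hk e')).1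
            · have := g.sum
              simp only [Finset.sum_sub_distrib, Finset.sum_ite_eq', hj, hi, if_true]
              omega
          · obtain ⟨S'', h7, h8⟩ := h4.xmove g hi (t := t') (by rwa [Function.update_self])
            have hlt' := Move.card_lt h7
            refine W.first h7 ((ihn _ (by omega) S'' rfl _ h8 fun k hk hkj => ?_).1 ?_)
            · by_cases e' : k = i
              · subst e'
                rwa [Function.update_self]
              · rw [Function.update_of_ne e', Function.update_of_ne e']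
                exact hr k hk hkj
            · rwa [Function.update_of_ne (Ne.symm e), Function.update_of_ne (Ne.symm e)]
    · intro hw
      rcases (g.cl j hj).wx _ _ hw with h1 | ⟨t, h1, h2⟩
      · exact crude _ h1
      · obtain ⟨S', h3, h4⟩ := hI.xmove g hj h1
        have hlt := Move.card_lt h3
        refine W.first h3 ((ihn _ (hn ▸ hlt) S' rfl _ h4 (upd t)).1 ?_)
        rwa [Function.update_self]

end Net

end Pool.Agent.MP_79e5e2_lc
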