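import Pool.Agent.MP_79e5e2_lc.QBF

/-! The repeated-squaring formula, abstractly. -/

namespace Pool.Agent.MP_79e5e2_lc.QH

open Pool.Agent.MP_2e8011_lc

theorem qval_rep (φ : CNF) (qs : List Bool) (w : ℕ) : ∀ (k : ℕ) (a : ℕ → Bool),
    QVal φ (List.replicate w true ++ qs) k a ↔
      ∃ a' : ℕ → Bool, (∀ j, j < k ∨ k + w ≤ j → a' j = a j) ∧ QVal φ qs (k + w) a' := by
  induction w with
  | zero =>
    intro k a
    simp only [List.replicate_zero, List.nil_append, add_zero]
    constructor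
    · intro h; exact ⟨a, fun _ _ => rfl, h⟩
    · rintro ⟨a', h1, h2⟩
      have : a' = a := funext fun j => h1 j (by omega)
      rwa [← this]
  | succ w ih =>
    intro k a
    simp only [List.replicate_succ, List.cons_append, QVal, ih]
    constructor
    · rintro ⟨b, a', h1, h2⟩
      refine ⟨a', fun j hj => ?_, by rwa [show k + (w + 1) = k + 1 + w by ring]⟩
      rw [h1 j (by omega), Function.update_of_ne (by omega)]
    · rintro ⟨a', h1, h2⟩
      refine ⟨a' k, a', fun j hj => ?_, by rwa [show k + 1 + w = k + (w + 1) by ring]⟩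
      by_cases hjk : j = k
      · subst hjk; simp
      · rw [Function.update_of_ne hjk, h1 j (by omega)]

/-- The quantifiers of `r` levels. -/
def blocks (W r : ℕ) : List Bool :=
  (List.range r).flatMap (fun _ => (List.range (3 * W)).map (fun _ => true) ++ [false])

theorem blocks_succ (W r : ℕ) :
    blocks W (r + 1) = List.replicate (3 * W) true ++ (false :: blocks W r) := by
  simp [blocks, List.range_succ_eq_map, List.flatMap_map, List.map_const']

theorem length_blocks (W r : ℕ) : (blocks W r).length = r * (3 * W + 1) := by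
  induction r with
  | zero => simp [blocks]
  | succ r ih => rw [blocks_succ]; simp [ih]; ring

theorem qval_succ (φ : CNF) (W r o : ℕ) (a : ℕ → Bool) :
    QVal φ (blocks W (r + 1)) o a ↔
      ∃ a' : ℕ → Bool, (∀ j, j < o ∨ o + 3 * W ≤ j → a' j = a j) ∧
        ∀ b, QVal φ (blocks W r) (o + (3 * W + 1)) (Function.update a' (o + 3 * W) b) := by
  rw [blocks_succ, qval_rep]
  simp only [QVal, add_assoc]

/-- The clauses linking the level at offset `o` to the next one. -/
def link (W o : ℕ) : CNF :=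
  (List.range W).flatMap (fun j =>
    [[(o + 3 * W, false), (o + j, false), (o + (3 * W + 1) + j, true)],
     [(o + 3 * W, false), (o + (3 * W + 1) + W + j, false), (o + 2 * W + j, true)],
     [(o + 3 * W, true), (o + 2 * W + j, false), (o + (3 * W + 1) + j, true)],
     [(o + 3 * W, true), (o + (3 * W + 1) + W + j, false), (o + W + j, true)]])

theorem satBy_link (a : ℕ → Bool) (W o : ℕ) : SatBy a (link W o) ↔ ∀ j < W,
    (a (o + 3 * W) = true → (a (o + j) = true → a (o + (3 * W + 1) + j) = true) ∧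
      (a (o + (3 * W + 1) + W + j) = true → a (o + 2 * W + j) = true)) ∧
    (a (o + 3 * W) = false → (a (o + 2 * W + j) = true → a (o + (3 * W + 1) + j) = true) ∧
      (a (o + (3 * W + 1) + W + j) = true → a (o + W + j) = true)) := by
  simp only [link, Dat.satBy_flatMap, Dat.satBy_cons, Dat.satBy_nil, List.mem_range,
    List.mem_cons, List.not_mem_nil, or_false, exists_eq_or_imp, exists_eq_left, and_true]
  refine forall_congr' fun j => forall_congr' fun _ => ?_
  grind

/-- The matrix. -/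
def matrix (W n j₀ : ℕ) (φI φS : CNF) : CNF :=
  φI ++ [[(W + j₀, false)]] ++ (List.range n).flatMap (fun l => link W (l * (3 * W + 1))) ++ φS

theorem satBy_matrix (a : ℕ → Bool) (W n j₀ : ℕ) (φI φS : CNF) :
    SatBy a (matrix W n j₀ φI φS) ↔ (SatBy a φI ∧ a (W + j₀) = false ∧
      ∀ l < n, SatBy a (link W (l * (3 * W + 1)))) ∧ SatBy a φS := by
  simp only [matrix, Dat.satBy_append, Dat.satBy_flatMap, Dat.satBy_cons, Dat.satBy_nil,
    List.mem_range, List.mem_cons, List.not_mem_nil, or_false, exists_eq_left, and_true,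
    and_assoc]

/-- The slot at offset `p` contains all the bits of the code number `t`. -/
def Cov (W : ℕ) (e : ℕ → ℕ → Bool) (a : ℕ → Bool) (p t : ℕ) : Prop :=
  ∀ j < W, e t j = true → a (p + j) = true

/-- The slot at offset `p` is the code number `t`. -/
def Ex (W : ℕ) (e : ℕ → ℕ → Bool) (a : ℕ → Bool) (p t : ℕ) : Prop :=
  ∀ j < W, a (p + j) = e t j

theorem sound {W n j₀ : ℕ} {φI φS : CNF} {e : ℕ → ℕ → Bool}
    (hS : ∀ a t, SatBy a φS → Cov W e a (n * (3 * W + 1)) t →
      Cov W e a (n * (3 * W + 1) + W) (t + 1)) (r : ℕ) : ∀ (l : ℕ) (a : ℕ → Bool), l + r = n →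
    QVal (matrix W n j₀ φI φS) (blocks W (r + 1)) (l * (3 * W + 1)) a →
    ∃ a' : ℕ → Bool, (∀ j < l * (3 * W + 1), a' j = a j) ∧ SatBy a' (matrix W n j₀ φI φS) ∧
      ∀ t, Cov W e a' (l * (3 * W + 1)) t → Cov W e a' (l * (3 * W + 1) + W) (t + 2 ^ r) := by
  induction r with
  | zero =>
    intro l a hl h
    obtain rfl : l = n := by omega
    obtain ⟨a₁, h1, h2⟩ := (qval_succ _ _ _ _ _).1 h
    have h3 : SatBy _ _ := h2 false
    refine ⟨_, fun j hj => ?_, h3, fun t ht => hS _ t ((satBy_matrix ..).1 h3).2 ht⟩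
    rw [Function.update_of_ne (by omega), h1 j (Or.inl hj)]
  | succ r ih =>
    intro l a hl h
    obtain ⟨a₁, h1, h2⟩ := (qval_succ _ _ _ _ _).1 h
    rw [← Nat.succ_mul] at h2
    obtain ⟨a₂, g1, g2, g3⟩ := ih (l + 1) _ (by omega) (h2 true)
    obtain ⟨a₃, f1, f2, f3⟩ := ih (l + 1) _ (by omega) (h2 false)
    have g4 := (satBy_link ..).1 (((satBy_matrix ..).1 g2).1.2.2 l (by omega))
    have f4 := (satBy_link ..).1 (((satBy_matrix ..).1 f2).1.2.2 l (by omega))
    rw [Nat.succ_mul] at g1 g3 f1 f3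
    generalize l * (3 * W + 1) = o at *
    have g5 : a₂ (o + 3 * W) = true := by rw [g1 _ (by omega)]; simp
    have f5 : a₃ (o + 3 * W) = false := by rw [f1 _ (by omega)]; simp
    have e23 : ∀ j < o + 3 * W, a₂ j = a₃ j := fun j hj => by
      rw [g1 j (by omega), f1 j (by omega), Function.update_of_ne (by omega),
        Function.update_of_ne (by omega)]
    refine ⟨a₂, fun j hj => ?_, g2, fun t ht => ?_⟩
    · rw [g1 j (by omega), Function.update_of_ne (by omega), h1 j (Or.inl hj)]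
    · have k1 := g3 t (fun j hj hb => ((g4 j hj).1 g5).1 (ht j hj hb))
      have k2 := f3 (t + 2 ^ r) (fun j hj hb => ((f4 j hj).2 f5).1 (by
        rw [← e23 _ (by omega)]
        exact ((g4 j hj).1 g5).2 (k1 j hj hb)))
      intro j hj hb
      rw [e23 _ (by omega)]
      refine ((f4 j hj).2 f5).2 (k2 j hj ?_)
      rwa [add_assoc, ← two_mul, ← pow_succ']

theorem complete {W n j₀ : ℕ} {φI φS : CNF} {e : ℕ → ℕ → Bool}
    (hS : ∀ a t, Ex W e a (n * (3 * W + 1)) t → Ex W e a (n * (3 * W + 1) + W) (t + 1) →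
      SatBy a φS) (r : ℕ) : ∀ (l t : ℕ) (a : ℕ → Bool), l + r = n →
    (∀ a' : ℕ → Bool, (∀ j < l * (3 * W + 1), a' j = a j) → Ex W e a' (l * (3 * W + 1)) t →
      Ex W e a' (l * (3 * W + 1) + W) (t + 2 ^ r) → SatBy a' φI ∧ a' (W + j₀) = false ∧
        ∀ l' < l, SatBy a' (link W (l' * (3 * W + 1)))) →
    QVal (matrix W n j₀ φI φS) (blocks W (r + 1)) (l * (3 * W + 1)) a := by
  have key : ∀ (o t₁ t₂ t₃ : ℕ) (a : ℕ → Bool), ∃ a' : ℕ → Bool,
      (∀ j, j < o ∨ o + 3 * W ≤ j → a' j = a j) ∧ Ex W e a' o t₁ ∧ Ex W e a' (o + W) t₂ ∧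
        Ex W e a' (o + 2 * W) t₃ := by
    intro o t₁ t₂ t₃ a
    refine ⟨fun j => if j < o ∨ o + 3 * W ≤ j then a j else if j < o + W then e t₁ (j - o) else
      if j < o + 2 * W then e t₂ (j - (o + W)) else e t₃ (j - (o + 2 * W)),
      fun j hj => if_pos hj, fun j hj => ?_, fun j hj => ?_, fun j hj => ?_⟩
    · beta_reduce
      rw [if_neg (by omega), if_pos (by omega), Nat.add_sub_cancel_left]
    · beta_reduce
      rw [if_neg (by omega), if_neg (by omega), if_pos (by omega), Nat.add_sub_cancel_left]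
    · beta_reduce
      rw [if_neg (by omega), if_neg (by omega), if_neg (by omega), Nat.add_sub_cancel_left]
  induction r with
  | zero =>
    intro l t a hl h
    obtain rfl : l = n := by omega
    obtain ⟨a₁, h1, h2, h3, -⟩ := key (l * (3 * W + 1)) t (t + 1) 0 a
    refine (qval_succ ..).2 ⟨a₁, h1, fun b => ?_⟩
    have e2 : Ex W e (Function.update a₁ (l * (3 * W + 1) + 3 * W) b) (l * (3 * W + 1)) t :=
      fun j hj => by rw [Function.update_of_ne (by omega), h2 j hj]
    have e3 : Ex W e (Function.update a₁ (l * (3 * W + 1) + 3 * W) b) (l * (3 * W + 1) + W)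
        (t + 1) := fun j hj => by rw [Function.update_of_ne (by omega), h3 j hj]
    refine (satBy_matrix ..).2 ⟨h _ (fun j hj => ?_) e2 e3, hS _ t e2 e3⟩
    rw [Function.update_of_ne (by omega), h1 j (Or.inl hj)]
  | succ r ih =>
    intro l t a hl h
    obtain ⟨a₁, h1, h2, h3, h4⟩ := key (l * (3 * W + 1)) t (t + 2 ^ (r + 1)) (t + 2 ^ r) a
    refine (qval_succ ..).2 ⟨a₁, h1, fun b => ?_⟩
    rw [← Nat.succ_mul]
    refine ih (l + 1) (if b then t else t + 2 ^ r) _ (by omega) (fun a' g1 g2 g3 => ?_)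
    rw [Nat.succ_mul] at g1 g2 g3
    have g4 : ∀ j < l * (3 * W + 1) + 3 * W, a' j = a₁ j := fun j hj => by
      rw [g1 j (by omega), Function.update_of_ne (by omega)]
    have g5 : a' (l * (3 * W + 1) + 3 * W) = b := by rw [g1 _ (by omega)]; simp
    obtain ⟨k1, k2, k3⟩ := h a' (fun j hj => by rw [g4 j (by omega), h1 j (Or.inl hj)])
      (fun j hj => by rw [g4 _ (by omega), h2 j hj]) (fun j hj => by rw [g4 _ (by omega), h3 j hj])
    refine ⟨k1, k2, fun l' hl' => ?_⟩
    rcases Nat.lt_succ_iff_lt_or_eq.1 hl' with hl' | rfl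
    · exact k3 l' hl'
    · refine (satBy_link ..).2 (fun j hj => ?_)
      rw [g5, g2 j hj, g3 j hj, g4 (l' * (3 * W + 1) + j) (by omega), h2 j hj,
        g4 (l' * (3 * W + 1) + W + j) (by omega), h3 j hj,
        g4 (l' * (3 * W + 1) + 2 * W + j) (by omega), h4 j hj]
      cases b
      · simp [add_assoc, ← two_mul, ← pow_succ']
      · simp

theorem qtrue_iff {W n j₀ : ℕ} {φI φS : CNF} {e : ℕ → ℕ → Bool} (hj : j₀ < W)
    (hI₁ : ∀ a, SatBy a φI → Cov W e a 0 0) (hI₂ : ∀ a, Ex W e a 0 0 → SatBy a φI)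
    (hS₁ : ∀ a t, SatBy a φS → Cov W e a (n * (3 * W + 1)) t →
      Cov W e a (n * (3 * W + 1) + W) (t + 1))
    (hS₂ : ∀ a t, Ex W e a (n * (3 * W + 1)) t → Ex W e a (n * (3 * W + 1) + W) (t + 1) →
      SatBy a φS) :
    QTrue (blocks W (n + 1), matrix W n j₀ φI φS) ↔ e (2 ^ n) j₀ = false := by
  constructor
  · intro h
    obtain ⟨a, -, h2, h3⟩ := sound hS₁ n 0 (fun _ => false) (by omega) (by simpa [QTrue] using h)
    obtain ⟨⟨g1, g2, -⟩, -⟩ := (satBy_matrix ..).1 h2
    have := h3 0 (by simpa using hI₁ a g1) j₀ hj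
    simp only [zero_mul, zero_add] at this
    cases he : e (2 ^ n) j₀
    · rfl
    · rw [this he] at g2; cases g2
  · intro h
    have := complete (j₀ := j₀) (φI := φI) hS₂ n 0 0 (fun _ => false) (by omega)
      (fun a' _ g2 g3 => ⟨hI₂ a' (by simpa using g2), by
        have := g3 j₀ hj
        simp only [zero_mul, zero_add] at this
        rw [this, h], fun l' hl' => absurd hl' (by omega)⟩)
    simpa [QTrue] using this

/-- All variables are below `N`. -/
def Bd (N : ℕ) (φ : CNF) : Prop := ∀ c ∈ φ, ∀ l ∈ c, l.1 < N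

theorem qclosed {W n j₀ : ℕ} {φI φS : CNF} (hj : j₀ < W) (hI : Bd W φI)
    (hS : Bd (n * (3 * W + 1) + 2 * W) φS) :
    QClosed (blocks W (n + 1), matrix W n j₀ φI φS) := by
  intro c hc l hl
  simp only [length_blocks]
  rw [Nat.succ_mul]
  simp only [matrix, List.mem_append, List.mem_flatMap, List.mem_range, List.mem_singleton] at hc
  rcases hc with ((hc | rfl) | ⟨k, hk, hc⟩) | hc
  · have := hI c hc l hl
    omega
  · obtain rfl := List.mem_singleton.1 hl
    simp only
    omega
  · have h1 : (k + 1) * (3 * W + 1) ≤ n * (3 * W + 1) := Nat.mul_le_mul_right _ hk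
    rw [Nat.succ_mul] at h1
    simp only [link, List.mem_flatMap, List.mem_range, List.mem_cons, List.not_mem_nil,
      or_false] at hc
    obtain ⟨j, hj, rfl | rfl | rfl | rfl⟩ := hc <;>
      simp only [List.mem_cons, List.not_mem_nil, or_false] at hl <;>
      rcases hl with rfl | rfl | rfl <;> simp only <;> omega
  · have := hS c hc l hl
    omega

section PT
variable {α : Type} [Enc α]

theorem pt_blocks {W r : α → ℕ} (hW : PT W) (hr : PT r) : PT (fun a => blocks (W a) (r a)) := by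
  unfold blocks
  fun_prop

@[fun_prop] theorem pt_link {W o : α → ℕ} (hW : PT W) (ho : PT o) :
    PT (fun a => link (W a) (o a)) := by
  unfold link
  fun_prop

theorem pt_matrix {W n j₀ : α → ℕ} {φI φS : α → CNF} (hW : PT W) (hn : PT n) (hj : PT j₀)
    (hI : PT φI) (hS : PT φS) : PT (fun a => matrix (W a) (n a) (j₀ a) (φI a) (φS a)) := by
  unfold matrix
  fun_prop

end PT

/-- An orbit with few values has reached its final fixed point early. -/
theorem iter_eq_of_few {β : Type} (f : β → β) (c : β) {N M : ℕ} (hN : f (f^[N] c) = f^[N] c)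
    (hM : ∃ s t, s < t ∧ t ≤ M ∧ f^[s] c = f^[t] c) : f^[M] c = f^[N] c := by
  classical
  obtain ⟨s, t, hst, htM, he⟩ := hM
  have hex : ∃ m, f^[m] c = f^[N] c := ⟨N, rfl⟩
  have h1 := Nat.find_spec hex
  have h2 : Nat.find hex ≤ M := by
    by_contra hlt
    refine Nat.find_min hex (m := Nat.find hex - t + s) (by omega) ?_
    rw [Function.iterate_add_apply, he, ← Function.iterate_add_apply,
      Nat.sub_add_cancel (by omega), h1]
  obtain ⟨d, rfl⟩ := Nat.exists_eq_add_of_le h2
  rw [add_comm, Function.iterate_add_apply, h1]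
  exact Function.iterate_fixed hN d

theorem exists_rep (W : ℕ) (e : ℕ → ℕ → Bool) :
    ∃ s t, s < t ∧ t ≤ 2 ^ W ∧ ∀ j < W, e s j = e t j := by
  obtain ⟨s, t, hst, he⟩ := Fintype.exists_ne_map_eq_of_card_lt
    (fun (t : Fin (2 ^ W + 1)) (j : Fin W) => e t j) (by simp)
  have h : ∀ j < W, e s j = e t j := fun j hj => congrFun he ⟨j, hj⟩
  rcases lt_or_gt_of_ne hst with h1 | h1
  · exact ⟨s, t, h1, Nat.lt_succ_iff.1 t.2, h⟩
  · exact ⟨t, s, h1, Nat.lt_succ_iff.1 s.2, fun j hj => (h j hj).symm⟩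

end Pool.Agent.MP_79e5e2_lc.QH
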