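import Pool.Agent.MP_79e5e2_lc.Check

/-! Boards made of square tiles, each carrying a list of placed pieces. -/

namespace Pool.Agent.MP_79e5e2_lc

noncomputable section

/-- End cells of the stubs. -/
def KD.zs (D : KD) : List ℕ := D.inp.map (·.1) ++ D.out.map (·.2.2)

/-- The test for the shape of the ports. -/
def KD.okb (D : KD) : Bool :=
  allBits (fun u => !tb D.mask (u + 16) || (decide (u ∉ D.stub) && decide (u + 16 ∉ D.stub)))
    99 D.mask &&
  ((List.range D.inp.length).all (fun p => tb D.mask (D.kind.iz p) && (tb D.mask (D.kind.im p) &&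
    (decide (D.kind.iz p ∈ D.stub) && (decide (D.kind.im p ∈ D.stub) &&
    ((decide (D.kind.im p = D.kind.iz p + 1) && !tb D.mask (D.kind.iz p - 1)) ||
      (decide (D.kind.iz p = D.kind.im p + 1) && !tb D.mask (D.kind.iz p + 1))))))) &&
  ((List.range D.out.length).all (fun o => tb D.mask (D.kind.oc o) &&
    (decide (D.kind.oc o ∉ D.stub) && (decide (D.kind.om o ∈ D.stub) &&
    (decide (D.kind.oz o ∈ D.stub) &&
    ((decide (D.kind.om o = D.kind.oc o + 1) && (decide (D.kind.oz o = D.kind.om o + 1) &&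
        !tb D.mask (D.kind.oz o + 1))) ||
      (decide (D.kind.oc o = D.kind.om o + 1) && (decide (D.kind.om o = D.kind.oz o + 1) &&
        !tb D.mask (D.kind.oz o - 1)))))))) &&
  ((List.range D.inp.length).all (fun p => (List.range D.out.length).all fun o =>
    decide (D.kind.iz p ≠ D.kind.om o) && decide (D.kind.iz p ≠ D.kind.oz o)) &&
  D.zs.all fun z => decide (z ∈ D.stub))))

theorem KD.ok_of {D : KD} (h : D.okb = true) : D.kind.OK ∧ ∀ z ∈ D.zs, z ∈ D.stub := by
  simp only [KD.okb, Bool.and_eq_true, List.all_eq_true, List.mem_range, decide_eq_true_eq,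
    Bool.or_eq_true, Bool.not_eq_true', tb_eq] at h
  obtain ⟨h1, h2, h3, h4, h5⟩ := h
  have e : ∀ u, u ∈ D.kind.cells ↔ D.mask.testBit u = true := fun u => mem_bits
  refine ⟨⟨fun u hu hu' => ?_, fun p hp => ?_, fun o ho => ?_, fun p hp o ho => h4 p hp o ho⟩, h5⟩
  · have := allBits_sound _ _ h1 u ((e u).1 hu)
    rw [(e _).1 hu'] at this
    exact (by simpa using this : u ∉ D.stub ∧ u + 16 ∉ D.stub)
  · simp only [e, Bool.not_eq_true]
    exact h2 p hp
  · simp only [e, Bool.not_eq_true]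
    exact h3 o ho

/-- A placed piece. -/
structure PP where
  k : ℕ
  ox : ℕ
  oy : ℕ
  fx : Bool
  fy : Bool

/-- Position of a cell of a placed piece. -/
def PP.pos (X : Bool) (p : PP) (u : ℕ) : ℕ × ℕ :=
  (cond p.fx (p.ox - cond X (u % 16) (u / 16)) (p.ox + cond X (u % 16) (u / 16) - 20),
    cond p.fy (p.oy - cond X (u / 16) (u % 16)) (p.oy + cond X (u / 16) (u % 16) - 20))

/-- A tile. -/
structure TL where
  cm : ℕ
  pP : List PP
  pQ : List PP
  sN : ℕ
  sE : ℕ
  sS : ℕ
  sW : ℕ
  st : Bool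

/-- The empty kind. -/
def kd0 : KD := ⟨0, [], 0, [], [], [], [], []⟩

/-- Cells of a connector through a vertical border, in the eastern tile. -/
def stdE (s : ℕ) : List (ℕ × ℕ) :=
  if s = 0 then [] else [(0, 34), (1, 34), (2, 34), (2, 35), (2, 36)]

/-- Cells of the connectors through a horizontal border, in the southern tile. -/
def stdS (s : ℕ) : List (ℕ × ℕ) :=
  if s = 0 then [] else [(30, 0), (30, 1), (30, 2), (31, 2), (32, 2)] ++
    if s = 1 then [] else [(46, 0), (46, 1), (46, 2), (47, 2), (48, 2)]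

/-- Dominoes of the eastern tile covered by the western one. -/
def covE (X : Bool) (s : ℕ) : List (ℕ × ℕ) :=
  if s = 0 ∨ X = true then [] else [(2, 34), (2, 35)]

/-- Dominoes of the southern tile covered by the northern one. -/
def covS (X : Bool) (s : ℕ) : List (ℕ × ℕ) :=
  if s = 0 ∨ X = false then [] else [(30, 2), (31, 2)] ++ if s = 1 then [] else [(46, 2), (47, 2)]

/-- The tile owning a cell, shifted by `(1, 1)`. -/
def key (X : Bool) (p : ℕ × ℕ) : ℕ × ℕ :=
  if X = true ∧ (p.1 % 72, p.2 % 72) ∈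
      [(30, 0), (30, 1), (30, 2), (31, 2), (46, 0), (46, 1), (46, 2), (47, 2)] then
    (p.1 / 72 + 1, p.2 / 72)
  else if X = false ∧ (p.1 % 72, p.2 % 72) ∈ [(0, 34), (1, 34), (2, 34), (2, 35)] then
    (p.1 / 72, p.2 / 72 + 1)
  else (p.1 / 72 + 1, p.2 / 72 + 1)

/-- Cells that may be shared by two tiles. -/
def shared (X : Bool) (p : ℕ × ℕ) : Bool :=
  decide ((p.1 % 72, p.2 % 72) ∈
    if X = true then [(0, 34), (32, 2), (48, 2)] else [(2, 36), (30, 0), (46, 0)])

/-- Translation to the tile `t`. -/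
def off (t c : ℕ × ℕ) : ℕ × ℕ := (c.1 + 72 * t.1, c.2 + 72 * t.2)

theorem key_off (X : Bool) (t c : ℕ × ℕ) : key X (off t c) = key X c + t := by
  simp only [key, off, Nat.add_mul_mod_self_left, Nat.add_mul_div_left _ _ (by norm_num : 0 < 72)]
  split_ifs <;> ext <;> simp <;> omega

theorem shared_off (X : Bool) (t c : ℕ × ℕ) : shared X (off t c) = shared X c := by
  simp only [shared, off, Nat.add_mul_mod_self_left]

theorem nb_off (X : Bool) (t c : ℕ × ℕ) : nb X (off t c) = off t (nb X c) := by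
  cases X <;> simp [nb, off] <;> omega

theorem off_eq {a b a' b' x y x' y' : ℕ} (h1 : x + 72 * a = x' + 72 * a')
    (h2 : y + 72 * b = y' + 72 * b') : off (a, b) (x, y) = off (a', b') (x', y') :=
  Prod.ext h1 h2

theorem off_inj {t c d : ℕ × ℕ} (h : off t c = off t d) : c = d := by
  simp only [off, Prod.mk.injEq] at h
  ext <;> omega

/-- Lookup in a packed table. -/
def lk (O : ℕ) (c : ℕ × ℕ) : ℕ := Nat.land (Nat.shiftRight O (20 * (c.2 * 80 + c.1))) 1048575

/-- Fold over the bits (no property is needed). -/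
def foldBits (f : ℕ → ℕ → ℕ) (fuel : ℕ) : ℕ → ℕ → ℕ :=
  Nat.rec (fun _ a => a) (fun _ ih d a =>
    cond (Nat.beq d 0) a (force (lg d) fun i =>
      force (f i a) fun a' => force (Nat.xor d (Nat.shiftLeft 1 i)) fun d' => ih d' a')) fuel

/-- Insert into a packed table. -/
def ins (O : ℕ) (c : ℕ × ℕ) (v : ℕ) : ℕ := Nat.lor O (Nat.shiftLeft v (20 * (c.2 * 80 + c.1)))

/-- Labels given by a list of updates. -/
def look (l : List (ℕ × ℕ)) (j : ℕ) : ℕ := l.rec 0 fun a _ ih => cond (Nat.beq a.1 j) a.2 ih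

namespace TL
variable (ks : List KD) (T : TL) (X : Bool)

/-- The pieces seen by player `X`. -/
def ps : List PP := cond X T.pP T.pQ
/-- Piece number `j`. -/
def pp (j : ℕ) : PP := (T.ps X).getD j ⟨0, 0, 0, false, false⟩
/-- Its kind. -/
def kd (j : ℕ) : KD := ks.getD (T.pp X j).k kd0
/-- Position of its cells. -/
def pos (j u : ℕ) : ℕ × ℕ := (T.pp X j).pos X u
/-- Free cells of the tile. -/
def cell (c : ℕ × ℕ) : Bool := decide (c.1 < 72) && (decide (c.2 < 72) && tb T.cm (c.2 * 72 + c.1))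
/-- Free cells of the tile and of the connectors to the east and to the south. -/
def ext (c : ℕ × ℕ) : Bool :=
  T.cell c || ((decide (72 ≤ c.1) && decide ((c.1 - 72, c.2) ∈ stdE T.sE)) ||
    (decide (72 ≤ c.2) && decide ((c.1, c.2 - 72) ∈ stdS T.sS)))

/-- Table of owners. -/
def own : ℕ :=
  (List.range (T.ps X).length).foldl (fun O j => force O fun O =>
    foldBits (fun u O => if u ∈ (T.kd ks X j).zs then O else ins O (T.pos X j u) (j * 512 + u + 1))
      99 (T.kd ks X j).mask O) 0

/-- The domino at `u` of piece `j` is the domino at `c`. -/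
def covAt (c : ℕ × ℕ) (j u : ℕ) : Bool :=
  decide (j < (T.ps X).length) && (tb (T.kd ks X j).mask u && (tb (T.kd ks X j).mask (u + 1) &&
    ((decide (T.pos X j u = c) && decide (T.pos X j (u + 1) = nb (!X) c)) ||
      (decide (T.pos X j u = nb (!X) c) && decide (T.pos X j (u + 1) = c)))))

/-- The domino at `c` lies in a piece. -/
def covered (O : ℕ) (c : ℕ × ℕ) : Bool :=
  force (lk O c - 1) (fun v => T.covAt ks X c (v / 512) (v % 512) ||
    T.covAt ks X c (v / 512) (v % 512 - 1)) ||
  force (lk O (nb (!X) c) - 1) (fun v => T.covAt ks X c (v / 512) (v % 512) ||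
    T.covAt ks X c (v / 512) (v % 512 - 1))

/-- The test for one cell of a piece. -/
def chkCell (O j u : ℕ) : Bool :=
  force (T.pos X j u).1 fun x => force (T.pos X j u).2 fun y =>
    decide (u < 512) &&
    (decide (lk O (x, y) = if u ∈ (T.kd ks X j).zs then 0 else j * 512 + u + 1) &&
    ((!tb (T.kd ks X j).mask (u + 16) || (decide (T.pos X j (u + 16) = nb X (x, y)) ||
      decide ((x, y) = nb X (T.pos X j (u + 16))))) &&
    (if u ∈ (T.kd ks X j).stub then decide (key X (x, y) = (1, 1)) || shared X (x, y)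
      else decide (key X (x, y) = (1, 1)) && (!shared X (x, y) && T.ext (x, y)))))

/-- The test for one piece. -/
def chkPiece (O j : ℕ) : Bool :=
  allBits (T.chkCell ks X O j) 99 (T.kd ks X j).mask &&
  (((T.kd ks X j).zs.all fun u => (T.kd ks X j).zs.all fun w =>
    decide (T.pos X j u = T.pos X j w → u = w)) &&
  ((T.st && decide (j = 0)) || (T.kd ks X j).has 0 (T.kd ks X j).mask))

/-- The test for one tile. -/
def chk : Bool :=
  force (T.own ks X) fun O =>
    (List.range (T.ps X).length).all (T.chkPiece ks X O) &&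
    (allBits (fun i => force (i % 72) fun x => force (i / 72) fun y =>
      ((!decide (x = 0) || decide ((x, y) ∈ stdE T.sW)) &&
        (!decide (y = 0) || decide ((x, y) ∈ stdS T.sN))) &&
      (!T.ext (nb (!X) (x, y)) || (T.covered ks X O (x, y) ||
        (decide ((x, y) ∈ covE X T.sW) || decide ((x, y) ∈ covS X T.sN))))) 999 T.cm &&
    ((covE X T.sE).all (fun c => T.covered ks X O (c.1 + 72, c.2)) &&
    ((covS X T.sS).all (fun c => T.covered ks X O (c.1, c.2 + 72)) &&
    ((stdE T.sW).all T.cell && ((stdS T.sN).all T.cell &&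
    (decide ((T.ps X).length ≤ 64) &&
    decide (∑ j ∈ Finset.range 64, (if j < (T.ps X).length then (T.kd ks X j).n else 0) =
      if T.st = true then 4 else 0)))))))

/-- The domino at `c` lies in a piece. -/
def Cov (c : ℕ × ℕ) : Prop :=
  ∃ j < (T.ps X).length, ∃ u, u ∈ bits (T.kd ks X j).mask ∧ u + 1 ∈ bits (T.kd ks X j).mask ∧
    Pr (T.pos X j u) (T.pos X j (u + 1)) c (nb (!X) c)

/-- What the test establishes. -/
structure Good : Prop where
  uniq : ∀ j < (T.ps X).length, ∀ k < (T.ps X).length, ∀ u ∈ bits (T.kd ks X j).mask,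
    u ∉ (T.kd ks X j).zs → ∀ w ∈ bits (T.kd ks X k).mask, T.pos X j u = T.pos X k w → j = k ∧ u = w
  inj : ∀ j < (T.ps X).length, ∀ u ∈ (T.kd ks X j).zs, ∀ w ∈ (T.kd ks X j).zs,
    T.pos X j u = T.pos X j w → u = w
  adj : ∀ j < (T.ps X).length, ∀ u ∈ bits (T.kd ks X j).mask, u + 16 ∈ bits (T.kd ks X j).mask →
    T.pos X j (u + 16) = nb X (T.pos X j u) ∨ T.pos X j u = nb X (T.pos X j (u + 16))
  key1 : ∀ j < (T.ps X).length, ∀ u ∈ bits (T.kd ks X j).mask, u ∉ (T.kd ks X j).stub →
    key X (T.pos X j u) = (1, 1) ∧ shared X (T.pos X j u) = false ∧ T.ext (T.pos X j u) = true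
  key2 : ∀ j < (T.ps X).length, ∀ u ∈ bits (T.kd ks X j).mask,
    key X (T.pos X j u) = (1, 1) ∨ shared X (T.pos X j u) = true
  rest : ∀ j < (T.ps X).length, (T.st = true ∧ j = 0) ∨ (T.kd ks X j).has 0 (T.kd ks X j).mask = true
  west : ∀ y, T.cell (0, y) = true → (0, y) ∈ stdE T.sW
  north : ∀ x, T.cell (x, 0) = true → (x, 0) ∈ stdS T.sN
  cov : ∀ c, T.cell c = true → T.ext (nb (!X) c) = true →
    T.Cov ks X c ∨ c ∈ covE X T.sW ∨ c ∈ covS X T.sN
  covE : ∀ c ∈ covE X T.sE, T.Cov ks X (c.1 + 72, c.2)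
  covS : ∀ c ∈ covS X T.sS, T.Cov ks X (c.1, c.2 + 72)
  stdE : ∀ c ∈ stdE T.sW, T.cell c = true
  stdS : ∀ c ∈ stdS T.sN, T.cell c = true
  len : (T.ps X).length ≤ 64
  sum : ∑ j ∈ Finset.range 64, (if j < (T.ps X).length then (T.kd ks X j).n else 0) =
    if T.st = true then 4 else 0

variable {ks T X}

theorem covAt_sound {c : ℕ × ℕ} {j u : ℕ} (h : T.covAt ks X c j u = true) : T.Cov ks X c := by
  simp only [covAt, Bool.and_eq_true, decide_eq_true_eq, Bool.or_eq_true, tb_eq] at h
  exact ⟨j, h.1, u, mem_bits.2 h.2.1, mem_bits.2 h.2.2.1, h.2.2.2⟩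

theorem covered_sound {O : ℕ} {c : ℕ × ℕ} (h : T.covered ks X O c = true) : T.Cov ks X c := by
  simp only [covered, force_eq, Bool.or_eq_true] at h
  rcases h with (h | h) | h | h <;> exact covAt_sound h

theorem good_of_chk (h : T.chk ks X = true) : T.Good ks X := by
  rw [chk, force_eq] at h
  generalize T.own ks X = O at h
  simp only [Bool.and_eq_true, List.all_eq_true, List.mem_range, decide_eq_true_eq] at h
  obtain ⟨h1, h2, h3, h4, h5, h6, h7, h8⟩ := h
  have hc : ∀ j < (T.ps X).length, ∀ u ∈ bits (T.kd ks X j).mask, T.chkCell ks X O j u = true := by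
    intro j hj u hu
    have := h1 j hj
    simp only [chkPiece, Bool.and_eq_true] at this
    exact allBits_sound _ _ this.1 u (mem_bits.1 hu)
  simp only [chkCell, force_eq, Prod.mk.eta, Bool.and_eq_true, decide_eq_true_eq, Bool.or_eq_true,
    Bool.not_eq_true', tb_eq] at hc
  have hb : ∀ c, T.cell c = true → ((c.1 = 0 → c ∈ MP_79e5e2_lc.stdE T.sW) ∧
      (c.2 = 0 → c ∈ MP_79e5e2_lc.stdS T.sN)) ∧ (T.ext (nb (!X) c) = true →
        T.Cov ks X c ∨ c ∈ MP_79e5e2_lc.covE X T.sW ∨ c ∈ MP_79e5e2_lc.covS X T.sN) := by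
    rintro ⟨x, y⟩ hc
    simp only [cell, Bool.and_eq_true, decide_eq_true_eq, tb_eq] at hc
    have := allBits_sound _ _ h2 _ hc.2.2
    rw [force_eq, force_eq, show (y * 72 + x) % 72 = x by omega,
      show (y * 72 + x) / 72 = y by omega] at this
    simp only [Bool.and_eq_true, Bool.or_eq_true, Bool.not_eq_true', decide_eq_true_eq,
      decide_eq_false_iff_not] at this
    refine ⟨⟨fun e => this.1.1.resolve_left (not_not.2 e),
      fun e => this.1.2.resolve_left (not_not.2 e)⟩, fun e => ?_⟩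
    rcases this.2 with b | b | b
    · rw [e] at b; cases b
    · exact Or.inl (covered_sound b)
    · exact Or.inr b
  refine ⟨fun j hj k hk u hu hu' w hw e => ?_, fun j hj u hu w hw => ?_, fun j hj u hu hu' => ?_,
    fun j hj u hu hu' => ?_, fun j hj u hu => ?_, fun j hj => ?_, fun y hy => (hb _ hy).1.1 rfl,
    fun x hx => (hb _ hx).1.2 rfl, fun c hc => (hb c hc).2, fun c hc => covered_sound (h3 c hc),
    fun c hc => covered_sound (h4 c hc), h5, h6, h7, h8⟩
  · have b1 := hc j hj u hu
    have b2 := hc k hk w hw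
    have b3 := b1.2.1
    rw [if_neg hu', e, b2.2.1] at b3
    have := b1.1
    have := b2.1
    split_ifs at b3
    omega
  · have := h1 j hj
    simp only [chkPiece, Bool.and_eq_true, List.all_eq_true, decide_eq_true_eq] at this
    exact this.2.1 u hu w hw
  · have := (hc j hj u hu).2.2.1
    rw [mem_bits.1 hu'] at this
    simpa using this
  · have := (hc j hj u hu).2.2.2
    rw [if_neg hu'] at this
    simpa using this
  · have := (hc j hj u hu).2.2.2
    split_ifs at this
    · simpa using this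
    · simp only [Bool.and_eq_true, decide_eq_true_eq] at this
      exact Or.inl this.1
  · have := h1 j hj
    simp only [chkPiece, Bool.and_eq_true, Bool.or_eq_true, decide_eq_true_eq] at this
    exact this.2.2

variable (ks T X)

/-- Table of the entries. -/
def ent : ℕ :=
  (List.range (T.ps X).length).foldl (fun O j => force O fun O =>
    (T.kd ks X j).inp.foldl (fun O p => ins O (T.pos X j p.1) j) O) 0

/-- The token game inside a tile: player `X` wins or reaches a state accepted by `K`. -/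
def loc0 (O : ℕ) (K : ℕ × ℕ → List (ℕ × ℕ) → Bool) (fuel : ℕ) : List (ℕ × ℕ) → ℕ × ℕ → Bool :=
  Nat.rec (fun _ _ => false) (fun _ ih l c => K c l || force (lk O c) fun j =>
    decide (j < (T.ps X).length) &&
    ((T.kd ks X j).lab.getD (look l j) []).any fun i =>
      decide (((T.kd ks X j).req i).port < (T.kd ks X j).inp.length) &&
      (decide (T.pos X j ((T.kd ks X j).kind.iz ((T.kd ks X j).req i).port) = c) &&
      ((T.kd ks X j).req i).good.all fun o => decide (o < (T.kd ks X j).out.length) &&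
        force (T.pos X j ((T.kd ks X j).kind.oz o)).1 fun x =>
          force (T.pos X j ((T.kd ks X j).kind.oz o)).2 fun y =>
            ih ((j, ((T.kd ks X j).req i).next) :: l) (x, y))) fuel

/-- The token game inside a tile. -/
def loc (K : ℕ × ℕ → List (ℕ × ℕ) → Bool) (l : List (ℕ × ℕ)) (c : ℕ × ℕ) : Bool :=
  T.loc0 ks X (T.ent ks X) K 200 l c

end TL

/-- A rectangular array of tiles. -/
structure Lay where
  A : ℕ
  B : ℕ
  ty : ℕ × ℕ → TL

namespace Lay
variable (ks : List KD) (L : Lay) (X : Bool)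

/-- Free cells of the board. -/
def free (p : ℕ × ℕ) : Bool := (L.ty (p.1 / 72, p.2 / 72)).cell (p.1 % 72, p.2 % 72)

/-- The board. -/
def board : Finset (ℕ × ℕ) :=
  (Finset.range (72 * L.A) ×ˢ Finset.range (72 * L.B)).filter fun p => L.free p = true

/-- The network of pieces. -/
def net : Net ((ℕ × ℕ) × ℕ) where
  X := X
  I := ((Finset.range L.A ×ˢ Finset.range L.B) ×ˢ Finset.range 64).filter
    fun i => i.2 < ((L.ty i.1).ps X).length
  kind i := ((L.ty i.1).kd ks X i.2).kind
  φ i u := off i.1 ((L.ty i.1).pos X i.2 u)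
  R i := ((L.ty i.1).kd ks X i.2).R

/-- Consistency of the array. -/
structure OK : Prop where
  kinds : ∀ k, (ks.getD k kd0).okb = true ∧ (ks.getD k kd0).kind.Closed (ks.getD k kd0).R
  good : ∀ t, (L.ty t).Good ks X
  out : ∀ a b, L.A ≤ a ∨ L.B ≤ b → (L.ty (a, b)).cm = 0
  hor : ∀ a b, (L.ty (a, b)).sE = (L.ty (a + 1, b)).sW
  ver : ∀ a b, (L.ty (a, b)).sS = (L.ty (a, b + 1)).sN
  west : ∀ b, (L.ty (0, b)).sW = 0
  north : ∀ a, (L.ty (a, 0)).sN = 0
  st : ∀ t, (L.ty t).st = true → t = (0, 0)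

variable {ks L X}

theorem mem_I (h : L.OK ks X) {t : ℕ × ℕ} {j : ℕ} : (t, j) ∈ (L.net ks X).I ↔
    t.1 < L.A ∧ t.2 < L.B ∧ j < ((L.ty t).ps X).length := by
  have := (h.good t).len
  simp only [net, Finset.mem_filter, Finset.mem_product, Finset.mem_range]
  omega

theorem lt_of_cell (h : L.OK ks X) {t c : ℕ × ℕ} (hc : (L.ty t).cell c = true) :
    t.1 < L.A ∧ t.2 < L.B := by
  by_contra hn
  have := h.out t.1 t.2 (by omega)
  simp [TL.cell, this, tb_eq] at hc

theorem mem_board (h : L.OK ks X) {p : ℕ × ℕ} : p ∈ L.board ↔ L.free p = true := by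
  simp only [board, Finset.mem_filter, Finset.mem_product, Finset.mem_range,
    and_iff_right_iff_imp]
  intro hp
  have := lt_of_cell h hp
  simp only at this
  omega

theorem cell_lt {T : TL} {c : ℕ × ℕ} (h : T.cell c = true) : c.1 < 72 ∧ c.2 < 72 := by
  simp only [TL.cell, Bool.and_eq_true, decide_eq_true_eq] at h
  exact ⟨h.1, h.2.1⟩

theorem free_off {t c : ℕ × ℕ} (h1 : c.1 < 72) (h2 : c.2 < 72) :
    L.free (off t c) = (L.ty t).cell c := by
  simp only [free, off, Nat.add_mul_mod_self_left, Nat.add_mul_div_left _ _ (by norm_num : 0 < 72),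
    Nat.mod_eq_of_lt h1, Nat.mod_eq_of_lt h2, Nat.div_eq_of_lt h1, Nat.div_eq_of_lt h2, zero_add]

theorem free_of_cell {t c : ℕ × ℕ} (h : (L.ty t).cell c = true) : L.free (off t c) = true := by
  rw [free_off (cell_lt h).1 (cell_lt h).2, h]

theorem free_of_ext (h : L.OK ks X) {t c : ℕ × ℕ} (hc : (L.ty t).ext c = true) :
    L.free (off t c) = true := by
  obtain ⟨a, b⟩ := t
  obtain ⟨x, y⟩ := c
  simp only [TL.ext, Bool.or_eq_true, Bool.and_eq_true, decide_eq_true_eq] at hc
  rcases hc with hc | ⟨h1, h2⟩ | ⟨h1, h2⟩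
  · exact free_of_cell hc
  · rw [h.hor] at h2
    rw [off_eq (a' := a + 1) (b' := b) (x' := x - 72) (y' := y) (by omega) rfl]
    exact free_of_cell ((h.good _).stdE _ h2)
  · rw [h.ver] at h2
    rw [off_eq (a' := a) (b' := b + 1) (x' := x) (y' := y - 72) rfl (by omega)]
    exact free_of_cell ((h.good _).stdS _ h2)

theorem ext_of_free (h : L.OK ks X) {t c : ℕ × ℕ} (Y : Bool) (h1 : c.1 < 72) (h2 : c.2 < 72)
    (hc : L.free (off t (nb Y c)) = true) : (L.ty t).ext (nb Y c) = true := by
  obtain ⟨a, b⟩ := t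
  obtain ⟨x, y⟩ := c
  change x < 72 at h1
  change y < 72 at h2
  simp only [TL.ext, Bool.or_eq_true, Bool.and_eq_true, decide_eq_true_eq]
  by_cases e : (nb Y (x, y)).1 < 72 ∧ (nb Y (x, y)).2 < 72
  · rw [free_off e.1 e.2] at hc
    exact Or.inl hc
  · cases Y
    · simp only [nb, Bool.false_eq_true, if_false] at e hc ⊢
      have e1 : off (a, b) (x + 1, y) = off (a + 1, b) (0, y) := off_eq (by omega) rfl
      rw [e1, free_off (c := (0, y)) (by norm_num) h2] at hc
      have := (h.good _).west y hc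
      rw [← h.hor] at this
      exact Or.inr (Or.inl ⟨by omega, by rwa [show x + 1 - 72 = 0 by omega]⟩)
    · simp only [nb, if_true] at e hc ⊢
      have e1 : off (a, b) (x, y + 1) = off (a, b + 1) (x, 0) := off_eq rfl (by omega)
      rw [e1, free_off (c := (x, 0)) h1 (by norm_num)] at hc
      have := (h.good _).north x hc
      rw [← h.ver] at this
      exact Or.inr (Or.inr ⟨by omega, by rwa [show y + 1 - 72 = 0 by omega]⟩)

theorem geo (h : L.OK ks X) : (L.net ks X).Geo := by
  refine ⟨fun i _ => (KD.ok_of (h.kinds _).1).1, fun i _ => (h.kinds _).2, ?_, ?_, ?_, ?_⟩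
  · rintro ⟨t, j⟩ hi u hu w hw e
    have hj := ((mem_I h).1 hi).2.2
    have e' := off_inj e
    by_cases h1 : u ∈ ((L.ty t).kd ks X j).zs
    · by_cases h2 : w ∈ ((L.ty t).kd ks X j).zs
      · exact (h.good t).inj j hj u h1 w h2 e'
      · exact ((h.good t).uniq j hj j hj w hw h2 u hu e'.symm).2.symm
    · exact ((h.good t).uniq j hj j hj u hu h1 w hw e').2
  · rintro ⟨t, j⟩ hi u hu hu'
    have hj := ((mem_I h).1 hi).2.2
    change off t _ = nb X (off t _) ∨ off t _ = nb X (off t _)
    rw [nb_off, nb_off]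
    exact ((h.good t).adj j hj u hu hu').imp (congrArg _) (congrArg _)
  · rintro ⟨t, j⟩ hi ⟨t', k⟩ hk u hu hu' w hw e
    have hj := ((mem_I h).1 hi).2.2
    have hk' := ((mem_I h).1 hk).2.2
    change off t _ = off t' _ at e
    have b1 := (h.good t).key1 j hj u hu hu'
    have b2 := congrArg (key X) e
    have b3 := congrArg (shared X) e
    rw [key_off, key_off, b1.1] at b2
    rw [shared_off, shared_off, b1.2.1] at b3
    rcases (h.good t').key2 k hk' w hw with b4 | b4
    · rw [b4] at b2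
      obtain rfl := add_left_cancel b2
      have := (h.good t).uniq j hj k hk' u hu
        (fun b => hu' ((KD.ok_of (h.kinds _).1).2 u b)) w hw (off_inj e)
      rw [this.1]
    · rw [b4] at b3
      cases b3
  · simp only [net]
    rw [Finset.sum_filter, Finset.sum_product]
    have : ∀ t ∈ Finset.range L.A ×ˢ Finset.range L.B, (∑ j ∈ Finset.range 64,
        if j < ((L.ty t).ps X).length then ((L.ty t).kd ks X j).kind.n else 0) ≤
        if t = (0, 0) then 4 else 0 := by
      intro t _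
      refine ((h.good t).sum).le.trans ?_
      have := h.st t
      split_ifs <;> simp_all
    refine (Finset.sum_le_sum this).trans ?_
    rw [Finset.sum_ite_eq']
    split_ifs <;> norm_num

theorem inv (h : L.OK ks X) :
    (L.net ks X).Inv L.board fun i => ((L.net ks X).kind i).cells := by
  refine ⟨fun i _ => Finset.Subset.refl _, ?_, fun p hp hq => Or.inl ?_⟩
  · rintro ⟨t, j⟩ hi u hu hu'
    have hj := ((mem_I h).1 hi).2.2
    exact iff_of_true hu ((mem_board h).2 (free_of_ext h ((h.good t).key1 j hj u hu hu').2.2))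
  · rw [mem_board h] at hp hq
    have key : ∀ t c, t.1 < L.A → t.2 < L.B → off t c = p → (L.ty t).Cov ks X c →
        ∃ i ∈ (L.net ks X).I, ∃ u, u ∈ ((L.net ks X).kind i).cells ∧
          u + 1 ∈ ((L.net ks X).kind i).cells ∧
          Pr ((L.net ks X).φ i u) ((L.net ks X).φ i (u + 1)) p (nb (!(L.net ks X).X) p) := by
      rintro t c h1 h2 rfl ⟨j, hj, u, h3, h4, h5⟩
      refine ⟨(t, j), (mem_I h).2 ⟨h1, h2, hj⟩, u, h3, h4, ?_⟩
      change Pr (off t _) (off t _) _ (nb (!X) _)
      rw [nb_off]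
      rcases h5 with ⟨e1, e2⟩ | ⟨e1, e2⟩
      · exact Or.inl ⟨congrArg _ e1, congrArg _ e2⟩
      · exact Or.inr ⟨congrArg _ e1, congrArg _ e2⟩
    obtain ⟨a, b, x, y, hx, hy, rfl⟩ : ∃ a b x y, x < 72 ∧ y < 72 ∧ p = off (a, b) (x, y) :=
      ⟨p.1 / 72, p.2 / 72, p.1 % 72, p.2 % 72, by omega, by omega, by
        simp only [off, Nat.mod_add_div]⟩
    change L.free (nb (!X) _) = true at hq
    rw [nb_off] at hq
    rw [free_off hx hy] at hp
    have hl := lt_of_cell h hp
    rcases (h.good _).cov _ hp (ext_of_free h _ hx hy hq) with b1 | b1 | b1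
    · exact key _ _ hl.1 hl.2 rfl b1
    · cases a with
      | zero => simp [h.west, covE] at b1
      | succ a =>
        rw [← h.hor] at b1
        exact key (a, b) _ (Nat.lt_of_succ_lt hl.1) hl.2 (off_eq (by omega) rfl)
          ((h.good _).covE _ b1)
    · cases b with
      | zero => simp [h.north, covS] at b1
      | succ b =>
        rw [← h.ver] at b1
        exact key (a, b) _ hl.1 (Nat.lt_of_succ_lt hl.2) (off_eq rfl (by omega))
          ((h.good _).covS _ b1)

variable (ks L X) in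
/-- Player `X` wins the token game when the token arrives at the cell `p`. -/
def Ent (l : ℕ × ℕ → List (ℕ × ℕ)) (p : ℕ × ℕ) : Prop :=
  ∃ i ∈ (L.net ks X).I, ∃ q : Req, q.port < ((L.net ks X).kind i).inp.length ∧
    (L.net ks X).φ i (((L.net ks X).kind i).iz q.port) = p ∧
    q ∈ ((L.net ks X).kind i).reqs (look (l i.1) i.2) ∧
    (L.net ks X).TR (fun i => look (l i.1) i.2) i q

theorem look_update (l : ℕ × ℕ → List (ℕ × ℕ)) (t : ℕ × ℕ) (j v : ℕ) :
    Function.update (fun i : (ℕ × ℕ) × ℕ => look (l i.1) i.2) (t, j) v =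
      fun i => look (Function.update l t ((j, v) :: l t) i.1) i.2 := by
  funext ⟨t', k⟩
  by_cases e : t' = t
  · subst e
    rw [Function.update_self]
    change _ = cond (Nat.beq j k) v (look (l t') k)
    by_cases e' : k = j
    · subst e'
      simp
    · rw [Function.update_of_ne (by simpa using e')]
      have : Nat.beq j k = false := by
        rw [← Bool.not_eq_true, Nat.beq_eq]
        exact Ne.symm e'
      rw [this, cond_false]
  · rw [Function.update_of_ne (by simp [e]), Function.update_of_ne e]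

theorem tr_of_ent {l : ℕ × ℕ → List (ℕ × ℕ)} {t : ℕ × ℕ} {j : ℕ} {q : Req}
    (hj : (t, j) ∈ (L.net ks X).I)
    (h : ∀ o ∈ q.good, o < ((L.net ks X).kind (t, j)).out.length ∧
      L.Ent ks X (Function.update l t ((j, q.next) :: l t))
        ((L.net ks X).φ (t, j) (((L.net ks X).kind (t, j)).oz o))) :
    (L.net ks X).TR (fun i => look (l i.1) i.2) (t, j) q := by
  have : ∀ o, ∃ n : ((ℕ × ℕ) × ℕ) × Req, o ∈ q.good →
      ((L.net ks X).Lk (t, j) o n.1 n.2.port ∧ n.2 ∈ ((L.net ks X).kind n.1).reqs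
        (Function.update (fun i : (ℕ × ℕ) × ℕ => look (l i.1) i.2) (t, j) q.next n.1)) ∧
      (L.net ks X).TR (Function.update (fun i : (ℕ × ℕ) × ℕ => look (l i.1) i.2) (t, j) q.next)
        n.1 n.2 := by
    intro o
    by_cases ho : o ∈ q.good
    · obtain ⟨h1, i, hi, q', h2, h3, h4, h5⟩ := h o ho
      rw [look_update]
      exact ⟨(i, q'), fun _ => ⟨⟨⟨hj, hi, h1, h2, h3.symm⟩, h4⟩, h5⟩⟩
    · exact ⟨((t, j), q), fun h => absurd h ho⟩
  choose nx hnx using this
  exact Net.TR.mk _ _ _ nx (fun o ho => (hnx o ho).1) fun o ho => (hnx o ho).2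

theorem loc0_sound (h : L.OK ks X) {t : ℕ × ℕ} (h1 : t.1 < L.A) (h2 : t.2 < L.B) {O : ℕ}
    {K : ℕ × ℕ → List (ℕ × ℕ) → Bool} {l : ℕ × ℕ → List (ℕ × ℕ)}
    (hK : ∀ c m, K c m = true → L.Ent ks X (Function.update l t m) (off t c)) (fuel : ℕ) :
    ∀ m c, (L.ty t).loc0 ks X O K fuel m c = true →
      L.Ent ks X (Function.update l t m) (off t c) := by
  induction fuel with
  | zero => intro m c h; cases h
  | succ n ih =>
    intro m c hc
    set T := L.ty t with hT
    change (K c m || force (lk O c) fun j =>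
      decide (j < (T.ps X).length) &&
      ((T.kd ks X j).lab.getD (look m j) []).any fun i =>
        decide (((T.kd ks X j).req i).port < (T.kd ks X j).inp.length) &&
        (decide (T.pos X j ((T.kd ks X j).kind.iz ((T.kd ks X j).req i).port) = c) &&
        ((T.kd ks X j).req i).good.all fun o => decide (o < (T.kd ks X j).out.length) &&
          force (T.pos X j ((T.kd ks X j).kind.oz o)).1 fun x =>
            force (T.pos X j ((T.kd ks X j).kind.oz o)).2 fun y =>
              T.loc0 ks X O K n ((j, ((T.kd ks X j).req i).next) :: m) (x, y))) = true at hc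
    simp only [force_eq, Prod.mk.eta, Bool.or_eq_true, Bool.and_eq_true, decide_eq_true_eq,
      List.any_eq_true, List.all_eq_true] at hc
    rcases hc with hc | ⟨hj, i, hi, h3, h4, h5⟩
    · exact hK c m hc
    · generalize lk O c = j at hj hi h3 h4 h5
      have hI := (mem_I h).2 ⟨h1, h2, hj⟩
      refine ⟨(t, j), hI, (T.kd ks X j).req i, h3, congrArg (off t) h4, ?_, tr_of_ent hI fun o ho => ?_⟩
      · rw [Function.update_self]
        exact List.mem_map_of_mem hi
      · refine ⟨(h5 o ho).1, ?_⟩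
        rw [Function.update_idem, Function.update_self]
        exact ih _ _ (h5 o ho).2

theorem loc_sound (h : L.OK ks X) {t : ℕ × ℕ} (h1 : t.1 < L.A) (h2 : t.2 < L.B)
    {K : ℕ × ℕ → List (ℕ × ℕ) → Bool} {l : ℕ × ℕ → List (ℕ × ℕ)} {c : ℕ × ℕ}
    (hc : (L.ty t).loc ks X K (l t) c = true)
    (hK : ∀ c m, K c m = true → L.Ent ks X (Function.update l t m) (off t c)) :
    L.Ent ks X l (off t c) := by
  have := loc0_sound h h1 h2 hK _ _ _ hc
  rwa [Function.update_eq_self] at this

/-- The winner of the token game wins the board, Left moving first. -/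
theorem outcome (h : L.OK ks X) (hA : 0 < L.A) (hB : 0 < L.B)
    (h0 : 0 < ((L.ty (0, 0)).ps X).length) (h1 : 0 < ((L.ty (0, 0)).kd ks X 0).out.length)
    (h2 : ((L.ty (0, 0)).kd ks X 0).req 0 = ⟨0, [0], 1⟩)
    (h3 : ((L.ty (0, 0)).kd ks X 0).has (if X then 2 else 1) ((L.ty (0, 0)).kd ks X 0).mask = true)
    (h4 : L.Ent ks X (Function.update (fun _ => []) (0, 0) [(0, 1)])
      (off (0, 0) ((L.ty (0, 0)).pos X 0 (((L.ty (0, 0)).kd ks X 0).kind.oz 0)))) :
    Outcome X true L.board := by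
  have hI : ((0, 0), 0) ∈ (L.net ks X).I := (mem_I h).2 ⟨hA, hB, h0⟩
  have hT : (L.net ks X).TR (fun i => look ((fun _ => []) i.1) i.2) ((0, 0), 0) ⟨0, [0], 1⟩ :=
    tr_of_ent (l := fun _ => []) (q := ⟨0, [0], 1⟩) hI fun o ho => by
      obtain rfl : o = 0 := by simpa using ho
      exact ⟨h1, h4⟩
  have := Net.main (geo h) hT hI _ _ (inv h) (by
    rintro ⟨t, j⟩ hi hne
    rcases (h.good t).rest j ((mem_I h).1 hi).2.2 with ⟨b1, b2⟩ | b1
    · exact absurd (by rw [h.st t b1, b2]) hne
    · exact ⟨0, by norm_num, _, b1, rfl, rfl⟩)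
  cases X
  · exact outcome_of_W (this.1 ⟨1, by norm_num, _, h3, by rw [← h2]; rfl, rfl⟩)
  · exact outcome_of_W (this.2 ⟨2, by norm_num, _, h3, by rw [← h2]; rfl, rfl⟩)

end Lay

end

end Pool.Agent.MP_79e5e2_lc
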