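import Pool.Agent.MP_79e5e2_lc.Val

/-! With the second starting tile the board of a formula has value `0` or `↑`. -/

namespace Pool.Agent.MP_79e5e2_lc

open Pool.Agent.MP_2e8011_lc

noncomputable section

theorem TL.good_ext {ks ks' : List KD} {T : TL} {X : Bool}
    (e : ∀ j, T.kd ks' X j = T.kd ks X j) (h : T.Good ks X) : T.Good ks' X := by
  have e2 : ∀ c, T.Cov ks' X c ↔ T.Cov ks X c := fun c => by simp only [TL.Cov, e]
  obtain ⟨h1, h2, h3, h4, h5, h6, h7, h8, h9, h10, h11, h12, h13, h14, h15⟩ := h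
  constructor <;> first | assumption | (simp only [e, e2]; assumption)

theorem tile_mem (k : ℕ) : tile k ∈ tiles := by
  rcases getD_mem_or tiles k t_EMPTY with h | h
  · exact h
  · rw [tile, h]
    exact List.mem_cons_self

theorem kd_ext {T : TL} (hT : T ∈ tiles) (X : Bool) (j : ℕ) :
    T.kd kinds2 X j = T.kd kinds X j := by
  refine List.getD_append _ _ _ _ ?_
  rcases getD_mem_or (T.ps X) j ⟨0, 0, 0, false, false⟩ with h | h
  · exact tiles_lt T hT X _ h
  · rw [TL.pp, h]
    decide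

/-- The array of tiles with another first tile. -/
def layT (T : TL) (F : List Bool × CNF) : Lay :=
  ⟨F.2.length + 2, 2 * F.1.length + 2, fun t => if t = (0, 0) then T else (lay F).ty t⟩

variable {F : List Bool × CNF} {T : TL} {X : Bool}

theorem layT_st : (layT T F).ty (0, 0) = T := by simp [layT]

theorem layT_ne {t : ℕ × ℕ} (h : t ≠ (0, 0)) : (layT T F).ty t = (lay F).ty t := if_neg h

theorem layT_side (f : TL → ℕ) (h : f T = f t_START) (t : ℕ × ℕ) :
    f ((layT T F).ty t) = f ((lay F).ty t) := by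
  by_cases e : t = (0, 0)
  · rw [e, layT_st, lay_st, h]
  · rw [layT_ne e]

theorem layT_ok (hT : T = t_U ∨ T = t_V) (X : Bool) : (layT T F).OK kinds2 X := by
  have h := lay_ok F X
  have e1 := layT_side (F := F) (T := T) TL.sE (by rcases hT with rfl | rfl <;> rfl)
  have e2 := layT_side (F := F) (T := T) TL.sW (by rcases hT with rfl | rfl <;> rfl)
  have e3 := layT_side (F := F) (T := T) TL.sS (by rcases hT with rfl | rfl <;> rfl)
  have e4 := layT_side (F := F) (T := T) TL.sN (by rcases hT with rfl | rfl <;> rfl)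
  refine ⟨fun k => ?_, fun t => ?_, fun a b hab => ?_, fun a b => by rw [e1, e2, h.hor],
    fun a b => by rw [e3, e4, h.ver], fun b => by rw [e2, h.west], fun a => by rw [e4, h.north],
    fun t ht => ?_⟩
  · by_cases hk : k < kinds.length
    · rw [kinds2, List.getD_append _ _ _ _ hk]
      exact h.kinds k
    · rw [kinds2, List.getD_append_right _ _ _ _ (by omega)]
      rcases getD_mem_or kindsN (k - kinds.length) kd0 with h1 | h1
      · have := kindsN_ok _ h1
        rw [Bool.and_eq_true] at this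
        exact ⟨this.1, KD.closed _ tabu_ok this.2⟩
      · rw [h1]
        exact ⟨by decide +kernel, KD.closed _ tabu_ok rfl⟩
  · by_cases e : t = (0, 0)
    · rw [e, layT_st]
      rcases hT with rfl | rfl
      · exact TL.good_of_chk (t_U_ok X)
      · exact TL.good_of_chk (t_V_ok X)
    · rw [layT_ne e]
      exact TL.good_ext (kd_ext (tile_mem _) X) (h.good t)
  · have h1 : F.2.length + 2 ≤ a ∨ 2 * F.1.length + 2 ≤ b := hab
    rw [layT_ne (by simp; omega)]
    exact h.out a b hab
  · by_contra e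
    rw [layT_ne e] at ht
    exact e (h.st t ht)

theorem layT_I (hT : T = t_U ∨ T = t_V) (X : Bool) :
    ((0, 0), 0) ∈ ((layT T F).net kinds2 X).I := by
  refine (Lay.mem_I (layT_ok hT X)).2 ⟨Nat.succ_pos _, Nat.succ_pos _, ?_⟩
  rw [layT_st]
  rcases hT with rfl | rfl <;> cases X <;> decide

theorem layT_tr (hT : T = t_U ∨ T = t_V) (hc : QClosed F) (hv : X = true ↔ QTrue F) :
    ((layT T F).net kinds2 X).TR (fun _ => 0) ((0, 0), 0) ⟨0, [0], 1⟩ := by
  refine (lay_tr hc hv).transfer ?_ (layT_I hT X) fun o ho _ => ?_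
  · rintro ⟨t, j⟩ hi hp
    rw [Lay.mem_I (lay_ok F X)] at hi
    rw [Lay.mem_I (layT_ok hT X)]
    change 0 < (((lay F).ty t).kd kinds X j).inp.length at hp
    change (_ ∧ _ ∧ j < (((layT T F).ty t).ps X).length) ∧
      (((layT T F).ty t).kd kinds2 X j).kind = (((lay F).ty t).kd kinds X j).kind ∧
      (fun u => off t (((layT T F).ty t).pos X j u)) = fun u => off t (((lay F).ty t).pos X j u)
    by_cases e : t = (0, 0)
    · subst e
      rw [layT_st]
      rw [lay_st] at hi hp ⊢
      refine and_assoc.2 ⟨hi.1, and_assoc.2 ⟨hi.2.1, ?_⟩⟩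
      have h5 : j < 5 := lt_of_lt_of_le hi.2.2 (by cases X <;> decide)
      have h6 := hi.2.2
      rcases hT with rfl | rfl <;> cases X <;> interval_cases j <;>
        first
          | exact absurd hp (by decide)
          | exact absurd h6 (by decide)
          | exact ⟨by decide, rfl, rfl⟩
    · rw [layT_ne e]
      exact ⟨hi, congrArg _ (kd_ext (tile_mem _) X j), rfl⟩
  · obtain rfl : o = 0 := by simpa using ho
    change 0 < (((layT T F).ty (0, 0)).kd kinds2 X 0).out.length ∧
      off (0, 0) (((layT T F).ty (0, 0)).pos X 0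
        ((((layT T F).ty (0, 0)).kd kinds2 X 0).kind.oz 0)) =
      off (0, 0) (((lay F).ty (0, 0)).pos X 0 ((((lay F).ty (0, 0)).kd kinds X 0).kind.oz 0))
    rw [layT_st, lay_st]
    rcases hT with rfl | rfl <;> cases X <;> decide

theorem layT_win (hT : T = t_U ∨ T = t_V) (X : Bool) {c : ℕ} (hc : c < 64)
    (h1 : (T.kd kinds2 X 0).has c (T.kd kinds2 X 0).mask = true) {q : Req}
    (hq : ((layT T F).net kinds2 X).TR (fun _ => 0) ((0, 0), 0) q) :
    (.wy q = (T.kd kinds2 X 0).tag c → W (RMv X) true false (layT T F).board) ∧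
    (.wx q = (T.kd kinds2 X 0).tag c → W (RMv X) true true (layT T F).board) := by
  have h := layT_ok (F := F) hT X
  have := Net.main (Lay.geo h) hq (layT_I hT X) _ _ (Lay.inv h) (by
    rintro ⟨t, j⟩ hi hne
    rcases (h.good t).rest j ((Lay.mem_I h).1 hi).2.2 with ⟨b1, b2⟩ | b1
    · exact absurd (by rw [h.st t b1, b2]) hne
    · exact ⟨0, by norm_num, _, b1, rfl, rfl⟩)
  have e : ∀ g, g = (T.kd kinds2 X 0).tag c → ((layT T F).net kinds2 X).R ((0, 0), 0) g
      (((layT T F).net kinds2 X).kind ((0, 0), 0)).cells := by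
    intro g hg
    change (((layT T F).ty (0, 0)).kd kinds2 X 0).R g
      (((layT T F).ty (0, 0)).kd kinds2 X 0).kind.cells
    rw [layT_st]
    exact ⟨c, hc, _, h1, hg, rfl⟩
  exact ⟨fun hg => this.1 (e _ hg), fun hg => this.2 (e _ hg)⟩

theorem tr_nil {ι : Type} [DecidableEq ι] (N : Net ι) (lab : ι → ℕ) (j : ι) :
    N.TR lab j ⟨0, [], 1⟩ :=
  Net.TR.mk _ _ _ (fun _ => (j, ⟨0, [], 1⟩)) (fun _ h => by cases h) fun _ h => by cases h

/-- Transposition and translation. -/
def tau (c : ℕ × ℕ) : ℕ × ℕ := (c.2 + 24, c.1 + 56)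

theorem nb_tau (Y : Bool) (c : ℕ × ℕ) : nb Y (tau c) = tau (nb (!Y) c) := by
  cases Y <;> simp [nb, tau]

theorem tau_inj : Function.Injective tau := by
  rintro ⟨x, y⟩ ⟨z, w⟩ h
  simp only [tau, Prod.mk.injEq] at h ⊢
  omega

/-- The board `S` is away from the transposed copy of `U`. -/
def Sep (S U : Finset (ℕ × ℕ)) : Prop :=
  ∀ p ∈ S, ∀ c ∈ U, p ≠ tau c ∧ ∀ Y, nb Y p ≠ tau c ∧ nb Y (tau c) ≠ p

theorem Move.subset {Y : Bool} {S S' : Finset (ℕ × ℕ)} (h : Move Y S S') : S' ⊆ S := by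
  obtain ⟨c, -, -, rfl⟩ := h
  exact (Finset.erase_subset _ _).trans (Finset.erase_subset _ _)

theorem Sep.left {Y : Bool} {S S' U : Finset (ℕ × ℕ)} (h : Sep S U) (hm : Move Y S S') :
    Sep S' U ∧ Move Y (S ∪ U.image tau) (S' ∪ U.image tau) := by
  refine ⟨fun p hp => h p (hm.subset hp), ?_⟩
  obtain ⟨c, h1, h2, rfl⟩ := hm
  refine ⟨c, Finset.mem_union_left _ h1, Finset.mem_union_left _ h2, ?_⟩
  ext p
  simp only [Finset.mem_union, Finset.mem_erase, Finset.mem_image]
  constructor
  · rintro (h3 | ⟨d, h3, rfl⟩)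
    · tauto
    · exact ⟨(h _ h2 d h3).1.symm, (h _ h1 d h3).1.symm, Or.inr ⟨d, h3, rfl⟩⟩
  · tauto

theorem Sep.right {Y : Bool} {S U U' : Finset (ℕ × ℕ)} (h : Sep S U) (hm : Move (!Y) U U') :
    Sep S U' ∧ Move Y (S ∪ U.image tau) (S ∪ U'.image tau) := by
  refine ⟨fun p hp c hc => h p hp c (hm.subset hc), ?_⟩
  obtain ⟨c, h1, h2, rfl⟩ := hm
  refine ⟨tau c, Finset.mem_union_right _ (Finset.mem_image_of_mem _ h1), ?_, ?_⟩
  · rw [nb_tau]
    exact Finset.mem_union_right _ (Finset.mem_image_of_mem _ h2)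
  · rw [nb_tau, Finset.image_erase tau_inj, Finset.image_erase tau_inj]
    ext p
    simp only [Finset.mem_union, Finset.mem_erase]
    constructor
    · rintro (h3 | h3)
      · exact ⟨(h _ h3 _ h2).1, (h _ h3 _ h1).1, Or.inl h3⟩
      · tauto
    · tauto

theorem Sep.of_move {Y : Bool} {S U K : Finset (ℕ × ℕ)} (h : Sep S U)
    (hm : Move Y (S ∪ U.image tau) K) : (∃ S', Move Y S S' ∧ K = S' ∪ U.image tau) ∨
      ∃ U', Move (!Y) U U' ∧ K = S ∪ U'.image tau := by
  obtain ⟨c, h1, h2, rfl⟩ := hm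
  simp only [Finset.mem_union, Finset.mem_image] at h1 h2
  rcases h1 with h1 | ⟨d, h1, rfl⟩ <;> rcases h2 with h2 | ⟨e, h2, h3⟩
  · refine Or.inl ⟨_, ⟨c, h1, h2, rfl⟩, ?_⟩
    ext p
    simp only [Finset.mem_union, Finset.mem_erase, Finset.mem_image]
    constructor
    · tauto
    · rintro (h3 | ⟨d, h3, rfl⟩)
      · tauto
      · exact ⟨(h _ h2 d h3).1.symm, (h _ h1 d h3).1.symm, Or.inr ⟨d, h3, rfl⟩⟩
  · exact absurd h3.symm ((h _ h1 _ h2).2 Y).1
  · exact absurd rfl ((h _ h2 _ h1).2 Y).2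
  · rw [nb_tau] at h3
    obtain rfl := tau_inj h3
    refine Or.inr ⟨_, ⟨d, h1, h2, rfl⟩, ?_⟩
    rw [nb_tau, Finset.image_erase tau_inj, Finset.image_erase tau_inj]
    ext p
    simp only [Finset.mem_union, Finset.mem_erase]
    constructor
    · tauto
    · rintro (h3 | h3)
      · exact ⟨(h _ h3 _ h2).1, (h _ h3 _ h1).1, Or.inl h3⟩
      · tauto

theorem diffL {t : Bool} {K : Finset (ℕ × ℕ)} (h : W (RMv true) true t K) :
    ∀ S U, Sep S U → K = S ∪ U.image tau → Cw (!t) (.inl U) (.inl S) := by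
  induction h with
  | first h1 _ ih =>
    rintro S U hs rfl
    rcases hs.of_move h1 with ⟨S', h2, rfl⟩ | ⟨U', h2, rfl⟩
    · exact Cw.lfL (c := .inl S') h2 (ih _ _ (hs.left h2).1 rfl)
    · exact Cw.lfR (c := .inl U') h2 (ih _ _ (hs.right h2).1 rfl)
  | second _ ih =>
    rintro S U hs rfl
    refine Cw.le ?_ ?_ <;> rintro (c | c) hc <;> first | exact hc.elim | skip
    · exact ih _ (hs.right (Y := false) hc).2 _ _ (hs.right (Y := false) hc).1 rfl
    · exact ih _ (hs.left hc).2 _ _ (hs.left hc).1 rfl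

theorem diffR {t : Bool} {K : Finset (ℕ × ℕ)} (h : W (RMv false) true t K) :
    ∀ S U, Sep S U → K = S ∪ U.image tau → Cw (!t) (.inl S) (.inl U) := by
  induction h with
  | first h1 _ ih =>
    rintro S U hs rfl
    rcases hs.of_move h1 with ⟨S', h2, rfl⟩ | ⟨U', h2, rfl⟩
    · exact Cw.lfR (c := .inl S') h2 (ih _ _ (hs.left h2).1 rfl)
    · exact Cw.lfL (c := .inl U') h2 (ih _ _ (hs.right h2).1 rfl)
  | second _ ih =>
    rintro S U hs rfl
    refine Cw.le ?_ ?_ <;> rintro (c | c) hc <;> first | exact hc.elim | skip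
    · exact ih _ (hs.left hc).2 _ _ (hs.left hc).1 rfl
    · exact ih _ (hs.right (Y := true) hc).2 _ _ (hs.right (Y := true) hc).1 rfl

/-- Games with lists of cells. -/
def toG : List (ℕ × ℕ) ⊕ Form → Gm
  | .inl L => .inl L.toFinset
  | .inr g => .inr g

/-- Their options. -/
def opts (p : Bool) : List (ℕ × ℕ) ⊕ Form → List (List (ℕ × ℕ) ⊕ Form)
  | .inl L => (Mem.succs (p, L)).map fun y => .inl y.2
  | .inr .zero => []
  | .inr (.lft a) => if p then [.inr a] else []
  | .inr (.both a b) => [.inr (if p then a else b)]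

theorem opts_iff (p : Bool) (a : List (ℕ × ℕ) ⊕ Form) (P : Gm → Prop) :
    (∃ y ∈ opts p a, P (toG y)) ↔ ∃ c, Opt p (toG a) c ∧ P c := by
  rcases a with L | _ | a | ⟨a, b⟩
  · rw [toG, ← succs_iff]
    simp only [opts, List.mem_map]
    constructor
    · rintro ⟨_, ⟨y, h1, rfl⟩, h2⟩
      exact ⟨y, h1, h2⟩
    · rintro ⟨y, h1, h2⟩
      exact ⟨_, ⟨y, h1, rfl⟩, h2⟩
  all_goals cases p <;> simp [opts, toG, Opt]

/-- A test for Conway's order. -/
def cwb (n : ℕ) : Bool → List (ℕ × ℕ) ⊕ Form → List (ℕ × ℕ) ⊕ Form → Bool :=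
  Nat.rec (fun _ _ _ => false) (fun _ ih t a b =>
    cond t ((opts true a).all (fun c => ih false c b) && (opts false b).all fun c => ih false a c)
      ((opts true b).any (fun c => ih true a c) || (opts false a).any fun c => ih true c b)) n

theorem cwb_sound (n : ℕ) : ∀ t a b, cwb n t a b = true → Cw t (toG a) (toG b) := by
  induction n with
  | zero => intro t a b h; cases h
  | succ n ih =>
    intro t a b h
    change cond t ((opts true a).all (fun c => cwb n false c b) &&
      (opts false b).all fun c => cwb n false a c) ((opts true b).any (fun c => cwb n true a c) ||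
      (opts false a).any fun c => cwb n true c b) = true at h
    cases t
    · simp only [cond_false, Bool.or_eq_true, List.any_eq_true] at h
      rcases h with ⟨c, h1, h2⟩ | ⟨c, h1, h2⟩
      · obtain ⟨d, h3, h4⟩ := (opts_iff true b fun d => Cw true (toG a) d).1 ⟨c, h1, ih _ _ _ h2⟩
        exact Cw.lfL h3 h4
      · obtain ⟨d, h3, h4⟩ := (opts_iff false a fun d => Cw true d (toG b)).1 ⟨c, h1, ih _ _ _ h2⟩
        exact Cw.lfR h3 h4
    · simp only [cond_true, Bool.and_eq_true, List.all_eq_true] at h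
      refine Cw.le (fun d hd => ?_) fun d hd => ?_
      · obtain ⟨c, h1, rfl⟩ := (opts_iff true a fun e => d = e).2 ⟨d, hd, rfl⟩
        exact ih _ _ _ (h.1 c h1)
      · obtain ⟨c, h1, rfl⟩ := (opts_iff false b fun e => d = e).2 ⟨d, hd, rfl⟩
        exact ih _ _ _ (h.2 c h1)

/-- A board of value `↑`. -/
def uL : List (ℕ × ℕ) := [(0, 1), (1, 0), (1, 1), (1, 2), (1, 3), (2, 2)]

theorem uL_up : Same (.inl uL.toFinset) (.inr .up) :=
  ⟨cwb_sound 9 true (.inl uL) (.inr .up) (by decide +kernel),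
    cwb_sound 9 true (.inr .up) (.inl uL) (by decide +kernel)⟩

theorem board_U : (layT t_U F).board = msk F 12 cms := by
  ext p
  rw [mem_board rfl rfl, mem_msk, gk, tyZ]
  split_ifs with h
  · rw [h.1, h.2, layT_st]
    rfl
  · rw [layT_ne (by simpa using h), cms_tyN]

theorem board_V : (layT t_V F).board = (layT t_U F).board ∪ uL.toFinset.image tau := by
  have e : uL.toFinset.image tau = vL.toFinset := by decide
  ext ⟨x, y⟩
  rw [e, Finset.mem_union, mem_board rfl rfl, mem_board rfl rfl, List.mem_toFinset]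
  by_cases h : (x / 72, y / 72) = (0, 0)
  · have h1 : x < 72 ∧ y < 72 := by
      simp only [Prod.mk.injEq] at h
      omega
    have h2 : ix (x, y) = y * 72 + x := by
      simp only [ix]
      omega
    have h3 : (x, y) ∈ rect F := mem_rect.2 (by dsimp only; omega)
    dsimp only
    rw [h, layT_st, layT_st, h2, t_V_cell x h1.1 y h1.2]
    simp only [h3, true_and, Bool.or_eq_true, decide_eq_true_eq]
    rfl
  · dsimp only
    rw [layT_ne h, layT_ne h]
    refine (or_iff_left fun h1 => h ?_).symm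
    simp only [vL, List.mem_cons, Prod.mk.injEq, List.not_mem_nil, or_false] at h1 ⊢
    omega

theorem sep_U : Sep (layT t_U F).board uL.toFinset := by
  rintro ⟨x, y⟩ hp c hc
  have h1 : ¬ (22 ≤ x ∧ x < 30 ∧ 54 ≤ y ∧ y < 61) := by
    rintro ⟨h1, h2, h3, h4⟩
    have h5 := ((mem_board rfl rfl).1 hp).2
    have h6 : ix (x, y) = y * 72 + x := by
      simp only [ix]
      omega
    dsimp only at h5
    rw [show x / 72 = 0 by omega, show y / 72 = 0 by omega, layT_st, h6] at h5
    exact absurd (t_U_box x h2 y h4 h1 h3) (ne_true_of h5)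
  have h2 : c.1 ≤ 2 ∧ c.2 ≤ 3 := by
    revert c
    decide
  refine ⟨?_, fun Y => ?_⟩
  · simp only [tau, ne_eq, Prod.mk.injEq]
    omega
  · cases Y <;> simp only [tau, nb, ne_eq, Prod.mk.injEq, if_true, Bool.false_eq_true, if_false] <;>
      omega

theorem up_false (hc : QClosed F) (hv : ¬ QTrue F) : Same (.inl (msk F 12 cms)) (.inr .zero) := by
  rw [← board_U]
  exact ⟨toCwR (lift0 ((layT_win (Or.inl rfl) false (c := 1) (by norm_num) (by decide +kernel)
      (layT_tr (Or.inl rfl) hc (iff_of_false (by simp) hv))).1 rfl)) (Or.inl rfl),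
    toCwL (lift0 ((layT_win (Or.inl rfl) true (c := 4) (by norm_num) (by decide +kernel)
      (tr_nil _ _ _)).1 rfl)) (Or.inl rfl)⟩

theorem up_true (hc : QClosed F) (hv : QTrue F) : Same (.inl (msk F 12 cms)) (.inr .up) ∧
    Cw false (.inr .zero) (.inl (msk F 12 cms)) := by
  rw [← board_U]
  refine ⟨Same.trans ⟨?_, ?_⟩ uL_up, ?_⟩
  · exact diffR ((layT_win (Or.inr rfl) false (c := 4) (by norm_num) (by decide +kernel)
      (tr_nil _ _ _)).1 rfl) _ _ sep_U board_V
  · exact diffL ((layT_win (Or.inr rfl) true (c := 1) (by norm_num) (by decide +kernel)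
      (layT_tr (Or.inr rfl) hc (iff_of_true rfl hv))).1 rfl) _ _ sep_U board_V
  · exact toCwL (lift0 ((layT_win (Or.inl rfl) true (c := 2) (by norm_num) (by decide +kernel)
      (layT_tr (Or.inl rfl) hc (iff_of_true rfl hv))).2 rfl)) (Or.inl rfl)

open Classical in
theorem value_main :
    PSpace code2 (fun p => decide (Same (.inl p.1.cells) (.inl p.2.cells))) ∧
    ∀ g, g = Form.quarter ∨ g = Form.up → ∀ L : List Bool → Bool, PSpace id L →
      ∃ f : List Bool → Position × Position,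
        Nonempty (Turing.TM2ComputableInPolyTime id code2 f) ∧
        ∀ x, Play (Finset.range (f x).1.n ×ˢ Finset.range (f x).1.m) (f x).1.cells ∧
          (f x).2.cells = ∅ ∧
          (L x = true ↔ Same (.inl (f x).1.cells) (.inl (f x).2.cells)) ∧
          (L x = false → Same (.inl (f x).1.cells) (.inr g)) := by
  refine ⟨same_inPSpace, ?_⟩
  rintro _ (rfl | rfl)
  · exact hard (z := 1) (by norm_num) _ (fun F h1 h2 => board_one ▸ val_false h1 h2)
      fun F h1 h2 => board_one ▸ val_true h1 h2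
  · exact hard (z := 12) (by norm_num) _ (fun F => up_false) fun F => up_true

end

end Pool.Agent.MP_79e5e2_lc
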