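import Pool.Agent.MP_79e5e2_lc.ValData

/-! The test of the remaining tiles. -/

namespace Pool.Agent.MP_79e5e2_lc

theorem tchk6 : tchk 6 = true := by decide +kernel

theorem tchk7 : tchk 7 = true := by decide +kernel

theorem tchk8 : tchk 8 = true := by decide +kernel

theorem tchk9 : tchk 9 = true := by decide +kernel

theorem tchk10 : tchk 10 = true := by decide +kernel

theorem tchk11 : tchk 11 = true := by decide +kernel

theorem tchk12 : tchk 12 = true := by decide +kernel

theorem tchk_ok (k : ℕ) (h : k < 13) : tchk k = true := by
  interval_cases k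
  exacts [tchk0, tchk1, tchk2, tchk3, tchk4, tchk5,
    tchk6, tchk7, tchk8, tchk9, tchk10, tchk11, tchk12]

end Pool.Agent.MP_79e5e2_lc
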