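import Pool.Agent.MP_79e5e2_lc.ValDefs
import Pool.Agent.MP_79e5e2_lc.ValData2
import Pool.Agent.MP_79e5e2_lc.UpData
import Pool.Agent.Mg.F2e8011.G4d3f58

/-! The board of a formula has value `0` or `1 / 4`; equality of values is complete for
polynomial space. -/

namespace Pool.Agent.MP_79e5e2_lc

open Pool.Agent.MP_2e8011_lc

noncomputable section

theorem Cw.excl {t : Bool} {a b : Gm} (h : Cw t a b) : ¬ Cw (!t) b a := by
  induction h with
  | le _ _ ih1 ih2 =>
    intro h2
    cases h2 with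
    | lfL h3 h4 => exact ih1 _ h3 h4
    | lfR h3 h4 => exact ih2 _ h3 h4
  | lfL h1 _ ih =>
    intro h2
    cases h2 with
    | le h3 _ => exact ih (h3 _ h1)
  | lfR h1 _ ih =>
    intro h2
    cases h2 with
    | le _ h3 => exact ih (h3 _ h1)

/-- Rank of a game. -/
def rkG : Gm → ℕ
  | .inl S => S.card
  | .inr g => sizeOf g

theorem Opt.rk_lt {p : Bool} {a c : Gm} (h : Opt p a c) : rkG c < rkG a := by
  rcases a with S | _ | a | ⟨a, b⟩ <;> rcases c with T | g <;> first | exact h.elim | skip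
  · exact Move.card_lt h
  · obtain ⟨-, rfl⟩ := h
    simp [rkG]
  · obtain rfl : g = if p then a else b := h
    cases p <;> simp [rkG] <;> omega

theorem Cw.det (n : ℕ) : ∀ a b : Gm, rkG a + rkG b < n → Cw true a b ∨ Cw false b a := by
  induction n with
  | zero => intro a b h; omega
  | succ n ih =>
    intro a b h
    by_cases h1 : Cw false b a
    · exact Or.inr h1
    · refine Or.inl (Cw.le (fun c hc => ?_) fun c hc => ?_)
      · have := hc.rk_lt
        exact (ih b c (by omega)).resolve_left fun h2 => h1 (Cw.lfL hc h2)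
      · have := hc.rk_lt
        exact (ih c a (by omega)).resolve_left fun h2 => h1 (Cw.lfR hc h2)

theorem Cw.le_iff {a b : Gm} : Cw true a b ↔ ¬ Cw false b a :=
  ⟨fun h => h.excl, fun h => (Cw.det _ a b (Nat.lt_succ_self _)).resolve_right h⟩

theorem Cw.lf_iff {a b : Gm} : Cw false a b ↔
    (∃ c, Opt true b c ∧ ¬ Cw false c a) ∨ ∃ c, Opt false a c ∧ ¬ Cw false b c := by
  constructor
  · intro h
    cases h with
    | lfL h1 h2 => exact Or.inl ⟨_, h1, h2.excl⟩
    | lfR h1 h2 => exact Or.inr ⟨_, h1, h2.excl⟩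
  · rintro (⟨c, h1, h2⟩ | ⟨c, h1, h2⟩)
    · exact Cw.lfL h1 (Cw.le_iff.2 h2)
    · exact Cw.lfR h1 (Cw.le_iff.2 h2)

theorem Cw.trans' (n : ℕ) : ∀ a b c : Gm, rkG a + rkG b + rkG c < n →
    Cw true a b → Cw true b c → Cw true a c := by
  induction n with
  | zero => intro a b c h; omega
  | succ n ih =>
    intro a b c h h1 h2
    refine Cw.le_iff.2 fun h3 => ?_
    cases h3 with
    | lfL h4 h5 =>
      have := h4.rk_lt
      exact h1.excl (Cw.lfL h4 (ih _ _ _ (by omega) h2 h5))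
    | lfR h4 h5 =>
      have := h4.rk_lt
      exact h2.excl (Cw.lfR h4 (ih _ _ _ (by omega) h5 h1))

theorem Cw.trans {a b c : Gm} (h1 : Cw true a b) (h2 : Cw true b c) : Cw true a c :=
  Cw.trans' _ a b c (Nat.lt_succ_self _) h1 h2

theorem Same.symm {a b : Gm} (h : Same a b) : Same b a := ⟨h.2, h.1⟩

theorem Same.trans {a b c : Gm} (h1 : Same a b) (h2 : Same b c) : Same a c :=
  ⟨h1.1.trans h2.1, h2.2.trans h1.2⟩

theorem no_move (p : Bool) (c : Gm) : ¬ Opt p (.inl ∅) c := by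
  rcases c with T | j
  · rintro ⟨c, hc, -⟩
    simp at hc
  · exact id

theorem no_zero (p : Bool) (c : Gm) : ¬ Opt p (.inr .zero) c := by
  rcases c with T | j <;> exact id

theorem zero_empty : Same (.inr .zero) (.inl ∅) :=
  ⟨Cw.le (fun c h => (no_zero _ c h).elim) fun c h => (no_move _ c h).elim,
    Cw.le (fun c h => (no_move _ c h).elim) fun c h => (no_zero _ c h).elim⟩

theorem same_of_iso (n : ℕ) : ∀ S T : Finset (ℕ × ℕ), T.card < n → S ⊆ T →
    (∀ Y p, p ∈ T → nb Y p ∈ T → p ∈ S ∧ nb Y p ∈ S) → Same (.inl S) (.inl T) := by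
  induction n with
  | zero => intro S T h; omega
  | succ n ih =>
    intro S T h h1 h2
    have key : ∀ Y c, c ∈ T → Same (.inl ((S.erase c).erase (nb Y c)))
        (.inl ((T.erase c).erase (nb Y c))) := by
      intro Y c hc
      refine ih _ _ ?_ (Finset.erase_subset_erase _ (Finset.erase_subset_erase _ h1))
        fun Z p h3 h4 => ?_
      · have := Finset.card_erase_lt_of_mem hc
        have := Finset.card_erase_le (s := T.erase c) (a := nb Y c)
        omega
      · simp only [Finset.mem_erase] at h3 h4 ⊢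
        have := h2 Z p h3.2.2 h4.2.2
        tauto
    refine ⟨Cw.le ?_ ?_, Cw.le ?_ ?_⟩ <;> rintro (_ | _) hc <;>
      first | exact hc.elim | obtain ⟨c, h3, h4, rfl⟩ := hc
    · exact Cw.lfL (c := .inl _) ⟨c, h1 h3, h1 h4, rfl⟩ (key _ c (h1 h3)).1
    · exact Cw.lfR (c := .inl _) ⟨c, (h2 _ c h3 h4).1, (h2 _ c h3 h4).2, rfl⟩ (key _ c h3).1
    · exact Cw.lfL (c := .inl _) ⟨c, (h2 _ c h3 h4).1, (h2 _ c h3 h4).2, rfl⟩ (key _ c h3).2
    · exact Cw.lfR (c := .inl _) ⟨c, h1 h3, h1 h4, rfl⟩ (key _ c (h1 h3)).2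

/-- A board together with a number. -/
def EMv (X p : Bool) (a b : Finset (ℕ × ℕ) × ℤ) : Prop :=
  (RMv X p a.1 b.1 ∧ b.2 = a.2) ∨ (b.1 = a.1 ∧ NMv p a.2 b.2)

theorem lift0 {X t : Bool} {S : Finset (ℕ × ℕ)} (h : W (RMv X) true t S) :
    W (EMv X) true t (S, 0) := by
  refine W.sim (fun S a => a = (S, 0)) ?_ ?_ h _ rfl
  · rintro S _ rfl T hT
    exact ⟨(T, 0), Or.inl ⟨hT, rfl⟩, rfl⟩
  · rintro S _ rfl ⟨T, r⟩ (⟨h1, h2⟩ | ⟨-, h2⟩)
    · exact ⟨T, h1, Prod.ext rfl h2⟩
    · simp [NMv] at h2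

/-- The game of the number `q / 8`. -/
def nu (q : ℤ) : Gm :=
  .inr (if q = 2 then .quarter else if q = 4 then .both .zero (.lft .zero)
    else if q = 8 then .lft .zero else .zero)

theorem opt_nu_true {q : ℤ} (hq : q = 0 ∨ q = 2 ∨ q = 4 ∨ q = 8) {c : Gm} :
    Opt true (nu q) c ↔ q ≠ 0 ∧ c = nu 0 := by
  rcases hq with rfl | rfl | rfl | rfl
  · simpa [nu] using no_zero true c
  all_goals rcases c with T | j <;> simp [nu, Opt, Form.quarter]

theorem opt_nu_false {q : ℤ} (hq : q = 0 ∨ q = 2 ∨ q = 4 ∨ q = 8) {c : Gm} :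
    Opt false (nu q) c ↔ (q = 2 ∨ q = 4) ∧ c = nu (2 * q) := by
  rcases hq with rfl | rfl | rfl | rfl
  · simpa [nu] using no_zero false c
  all_goals rcases c with T | j <;> simp [nu, Opt, Form.quarter]

theorem toCwL {t : Bool} {a : Finset (ℕ × ℕ) × ℤ} (h : W (EMv true) true t a) :
    (a.2 = 0 ∨ a.2 = 2 ∨ a.2 = 4 ∨ a.2 = 8) → Cw (!t) (nu a.2) (.inl a.1) := by
  induction h with
  | @first a c h1 _ ih =>
    intro ha
    obtain ⟨S, q⟩ := a
    obtain ⟨T, r⟩ := c
    rcases h1 with ⟨h2, h3⟩ | ⟨h2, h3⟩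
    · obtain rfl : r = q := h3
      exact Cw.lfL (c := .inl T) h2 (ih ha)
    · obtain rfl : T = S := h2
      have h4 : (q = 2 ∨ q = 4) ∧ r = 2 * q := by
        simp only [NMv, low, if_true] at h3 ha
        split_ifs at h3 <;> omega
      exact Cw.lfR ((opt_nu_false ha).2 ⟨h4.1, by rw [← h4.2]⟩) (ih (by dsimp only; omega))
  | @second a _ ih =>
    intro ha
    obtain ⟨S, q⟩ := a
    refine Cw.le (fun c hc => ?_) fun c hc => ?_
    · obtain ⟨h1, rfl⟩ := (opt_nu_true ha).1 hc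
      refine ih (S, 0) (Or.inr ⟨rfl, ?_⟩) (Or.inl rfl)
      simp only [NMv, low, Bool.not_true, Bool.false_eq_true, if_false] at ha h1 ⊢
      split_ifs <;> omega
    · rcases c with T | j
      · exact ih (T, q) (Or.inl ⟨hc, rfl⟩) ha
      · exact hc.elim

theorem toCwR {t : Bool} {a : Finset (ℕ × ℕ) × ℤ} (h : W (EMv false) true t a) :
    (-a.2 = 0 ∨ -a.2 = 2 ∨ -a.2 = 4 ∨ -a.2 = 8) → Cw (!t) (.inl a.1) (nu (-a.2)) := by
  induction h with
  | @first a c h1 _ ih =>
    intro ha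
    obtain ⟨S, q⟩ := a
    obtain ⟨T, r⟩ := c
    rcases h1 with ⟨h2, h3⟩ | ⟨h2, h3⟩
    · obtain rfl : r = q := h3
      exact Cw.lfR (c := .inl T) h2 (ih ha)
    · obtain rfl : T = S := h2
      have h4 : -q ≠ 0 ∧ r = 0 := by
        simp only [NMv, low, if_true] at h3 ha
        split_ifs at h3 <;> omega
      obtain ⟨h4, rfl⟩ := h4
      exact Cw.lfL ((opt_nu_true ha).2 ⟨h4, rfl⟩) (ih (Or.inl rfl))
  | @second a _ ih =>
    intro ha
    obtain ⟨S, q⟩ := a
    refine Cw.le (fun c hc => ?_) fun c hc => ?_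
    · rcases c with T | j
      · exact ih (T, q) (Or.inl ⟨hc, rfl⟩) ha
      · exact hc.elim
    · obtain ⟨h1, rfl⟩ := (opt_nu_false ha).1 hc
      have h2 := ih (S, 2 * q) (Or.inr ⟨rfl, ?_⟩) (by dsimp only at h1 ⊢; omega)
      · rwa [show -(S, 2 * q).2 = 2 * -(S, q).2 by dsimp only; ring] at h2
      · simp only [NMv, low, Bool.not_true, Bool.false_eq_true, if_false] at ha h1 ⊢
        split_ifs <;> omega

namespace Net
variable {ι : Type} [DecidableEq ι] {N : Net ι}

theorem Inv.crudeE (g : N.Geo) {S : Finset (ℕ × ℕ)} {s : ι → Finset ℕ} (h : N.Inv S s) {t : Bool}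
    {j : ι} (hj : j ∈ N.I) (u : ι → ℤ) (h1 : Bd t {At.brd (s j)} (u j))
    (h2 : ∀ i ∈ N.I, i ≠ j → Bd false {At.brd (s i)} (u i)) {v : ℤ}
    (h3 : ∑ i ∈ N.I, u i + v ≤ 0) : W (EMv N.X) true t (S, v) := by
  have h4 : Bd t (∑ k ∈ N.I, {At.brd (s k)}) (-v) := by
    rw [← Finset.add_sum_erase _ _ hj] at h3 ⊢
    exact h1.add (bd_sum _ s u fun i hi =>
      h2 i (Finset.mem_erase.1 hi).2 (Finset.mem_erase.1 hi).1) (by omega)
  rw [Bd, neg_neg] at h4
  refine W.sim (fun M a => ∃ s, M = ∑ k ∈ N.I, {At.brd (s k)} + {At.num a.2} ∧ N.Inv a.1 s)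
    ?_ ?_ h4 _ ⟨s, rfl, h⟩
  · rintro _ ⟨S, q⟩ ⟨s, rfl, h⟩ K hK
    rcases hK.of_add with ⟨M', h5, rfl⟩ | ⟨M', h5, rfl⟩
    · obtain ⟨i, hi, t, h8, rfl⟩ := mv_sum _ _ h5
      obtain ⟨S', h6, h7⟩ := h.xmove g hi h8
      exact ⟨(S', q), Or.inl ⟨h6, rfl⟩, _, rfl, h7⟩
    · obtain ⟨c, h6, rfl⟩ := h5.of_single
      cases c with
      | brd t => exact h6.elim
      | num r => exact ⟨(S, r), Or.inr ⟨rfl, h6⟩, s, rfl, h⟩
  · rintro _ ⟨S, q⟩ ⟨s, rfl, h⟩ ⟨S', r⟩ (⟨hS, e⟩ | ⟨e, hq⟩)
    · obtain ⟨i, hi, t, h5, h6⟩ := h.ymove g hS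
      obtain rfl : r = q := e
      refine ⟨_, ?_, _, rfl, h6⟩
      rw [sum_update _ s hi, ← Finset.add_sum_erase _ _ hi]
      exact ((Mv.single (a := .brd _) (c := .brd _) h5).add_right _).add_right _
    · obtain rfl : S' = S := e
      refine ⟨_, ?_, s, rfl, h⟩
      rw [add_comm, add_comm _ ({At.num r} : Multiset At)]
      exact (Mv.single (a := .num q) (c := .num r) hq).add_right _

theorem crude1 (g : N.Geo) {S : Finset (ℕ × ℕ)} {s : ι → Finset ℕ} (h : N.Inv S s) {t : Bool}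
    {lab : ι → ℕ} {j : ι} (hj : j ∈ N.I) (hr : ∀ i ∈ N.I, i ≠ j → N.R i (.rest (lab i)) (s i))
    {v : ℤ} (h1 : Bd t {At.brd (s j)} ((N.kind j).n - (4 + v))) : W (EMv N.X) true t (S, v) := by
  refine h.crudeE g hj (fun i => (N.kind i).n - if i = j then 4 + v else 0) (by simpa using h1)
    (fun i hi hij => by simpa [hij] using ((g.cl i hi).rest _ _ (hr i hi hij)).1) ?_
  have := g.sum
  simp only [Finset.sum_sub_distrib, Finset.sum_ite_eq', hj, if_true]
  omega

theorem gap (g : N.Geo) {lab : ι → ℕ} {j : ι} {q : Req} (h : N.TR lab j q) (hj : j ∈ N.I)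
    {s0 : Finset ℕ} (h0 : N.R j (.wx q) s0) (h1 : Bd false {At.brd s0} ((N.kind j).n - 4))
    (h2 : ∀ t, BMv false s0 t → Bd true {At.brd t} ((N.kind j).n - (4 + 2)))
    (S : Finset (ℕ × ℕ)) : ∀ s : ι → Finset ℕ, N.Inv S s → s j = s0 →
      (∀ i ∈ N.I, i ≠ j → N.R i (.rest (lab i)) (s i)) → W (EMv N.X) true false (S, 2) := by
  induction' hn : S.card using Nat.strong_induction_on with n ihn generalizing S
  intro s hI hs hr
  subst hs
  refine W.second ?_
  rintro ⟨S', r⟩ (⟨hS', e⟩ | ⟨e, hq⟩)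
  · obtain rfl : r = 2 := e
    have hlt := Move.card_lt hS'
    obtain ⟨i, hi, t, h3, h4⟩ := hI.ymove g hS'
    by_cases e : i = j
    · subst e
      refine crude1 g h4 hi (lab := lab) (fun k hk hki => ?_) ?_
      · rw [Function.update_of_ne hki]
        exact hr k hk hki
      · rw [Function.update_self]
        exact h2 t h3
    · rcases ((g.cl i hi).rest _ _ (hr i hi e)).2.1 t h3 with h5 | ⟨t', h5, h6⟩
      · refine h4.crudeE g hi
          (fun k => (N.kind k).n - (if k = j then 4 else 0) - if k = i then 3 else 0)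
          (by simpa [e] using h5) (fun k hk hki => ?_) ?_
        · rw [Function.update_of_ne hki]
          by_cases e' : k = j
          · subst e'
            simpa [hki] using h1
          · simpa [hki, e'] using ((g.cl k hk).rest _ _ (hr k hk e')).1
        · have := g.sum
          simp only [Finset.sum_sub_distrib, Finset.sum_ite_eq', hj, hi, if_true]
          omega
      · obtain ⟨S'', h7, h8⟩ := h4.xmove g hi (t := t') (by rwa [Function.update_self])
        have hlt' := Move.card_lt h7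
        refine W.first (c := (S'', 2)) (Or.inl ⟨h7, rfl⟩)
          (ihn _ (by dsimp only at hlt hlt'; omega) S'' rfl _ h8 ?_ fun k hk hkj => ?_)
        · rw [Function.update_of_ne (Ne.symm e), Function.update_of_ne (Ne.symm e)]
        · by_cases e' : k = i
          · subst e'
            rwa [Function.update_self]
          · rw [Function.update_of_ne e', Function.update_of_ne e']
            exact hr k hk hkj
  · obtain rfl : S' = S := e
    obtain rfl : r = 0 := by simpa [NMv, low] using hq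
    exact lift0 ((main g h hj _ s hI hr).2 h0)

theorem TR.transfer {N' : Net ι} (h2 : ∀ i ∈ N.I, 0 < (N.kind i).inp.length →
    i ∈ N'.I ∧ N'.kind i = N.kind i ∧ N'.φ i = N.φ i) {lab : ι → ℕ} {j : ι} {q : Req}
    (h : N.TR lab j q) : j ∈ N'.I → (∀ o ∈ q.good, o < (N.kind j).out.length →
      o < (N'.kind j).out.length ∧ N'.φ j ((N'.kind j).oz o) = N.φ j ((N.kind j).oz o)) →
      N'.TR lab j q := by
  induction h with
  | mk lab j q nx hl _ ih =>
    intro hj ho
    refine TR.mk lab j q nx (fun o hq => ?_) fun o hq => ?_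
    · obtain ⟨⟨-, b2, b3, b4, b5⟩, b6⟩ := hl o hq
      obtain ⟨c1, c2, c3⟩ := h2 _ b2 (by omega)
      refine ⟨⟨hj, c1, (ho o hq b3).1, by rwa [c2], ?_⟩, by rwa [c2]⟩
      rw [(ho o hq b3).2, c2, c3, b5]
    · obtain ⟨⟨-, b2, -, b4, -⟩, -⟩ := hl o hq
      obtain ⟨c1, c2, c3⟩ := h2 _ b2 (by omega)
      exact ih o hq c1 fun o' _ h3 => by rw [c2, c3]; exact ⟨h3, rfl⟩

end Net

variable {F : List Bool × CNF}

theorem lay_st : (lay F).ty (0, 0) = t_START := by
  change tile (tyN F 0 0) = _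
  rw [tyN, if_neg (by omega), if_pos rfl, if_pos rfl]
  rfl

theorem lay_I (X : Bool) : ((0, 0), 0) ∈ ((lay F).net kinds X).I := by
  refine (Lay.mem_I (lay_ok F X)).2 ⟨Nat.succ_pos _, Nat.succ_pos _, ?_⟩
  rw [lay_st]
  cases X <;> decide

theorem lay_rest (X : Bool) : ∀ i ∈ ((lay F).net kinds X).I, i ≠ ((0, 0), 0) →
    ((lay F).net kinds X).R i (.rest 0) (((lay F).net kinds X).kind i).cells := by
  rintro ⟨t, j⟩ hi hne
  have h := lay_ok F X
  rcases (h.good t).rest j ((Lay.mem_I h).1 hi).2.2 with ⟨b1, b2⟩ | b1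
  · exact absurd (by rw [h.st t b1, b2]) hne
  · exact ⟨0, by norm_num, _, b1, rfl, rfl⟩

theorem lay_kind (X : Bool) :
    ((lay F).net kinds X).kind ((0, 0), 0) = (cond X k_sX k_sYU).kind := by
  change (((lay F).ty (0, 0)).kd kinds X 0).kind = _
  rw [lay_st]
  cases X <;> rfl

theorem lay_R (X : Bool) : ((lay F).net kinds X).R ((0, 0), 0) = (cond X k_sX k_sYU).R := by
  change (((lay F).ty (0, 0)).kd kinds X 0).R = _
  rw [lay_st]
  cases X <;> rfl

theorem lay_tr {X : Bool} (hc : QClosed F) (hv : X = true ↔ QTrue F) :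
    ((lay F).net kinds X).TR (fun _ => 0) ((0, 0), 0) ⟨0, [0], 1⟩ := by
  have h0 : tile (tyN F 0 0) = t_START := lay_st (F := F)
  have h2 := f_start X
  simp only [Bool.and_eq_true, decide_eq_true_eq] at h2
  refine Lay.tr_of_ent (l := fun _ => []) (q := ⟨0, [0], 1⟩) (lay_I X) fun o ho => ?_
  obtain rfl : o = 0 := by simpa using ho
  change 0 < (((lay F).ty (0, 0)).kd kinds X 0).out.length ∧ (lay F).Ent kinds X
    (Function.update (fun _ => []) (0, 0) [(0, 1)]) (off (0, 0)
      (((lay F).ty (0, 0)).pos X 0 ((((lay F).ty (0, 0)).kd kinds X 0).kind.oz 0)))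
  rw [lay_st]
  refine ⟨h2.2.1, step (by omega) (by omega) h0 (Function.update_self ..) h2.2.2.2.2
    fun c m hc' => ?_⟩
  obtain rfl := of_decide_eq_true hc'
  rw [off_zS]
  refine spine hc F.1 0 _ _ (by omega) rfl (fun i hi => by omega) (fun a b h3 => ?_) hv
  rw [Function.update_of_ne (by simp; omega), Function.update_of_ne (by simp; omega)]

theorem tabU (m : ℕ) (x : ℤ) (h : bnd tab (2 ^ 400) m (fun U _ => decide (U ≤ x)) = true) :
    Bd false {At.brd (bits m)} x := by
  obtain ⟨U, R, h1, h2⟩ := bnd_sound (fun a _ => table_sound tab_ok a) h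
  exact h2.1.mono (of_decide_eq_true h1)

theorem tabR (m : ℕ) (x : ℤ) (h : bnd tab (2 ^ 400) m (fun _ R => decide (R ≤ x)) = true) :
    Bd true {At.brd (bits m)} x := by
  obtain ⟨U, R, h1, h2⟩ := bnd_sound (fun a _ => table_sound tab_ok a) h
  exact h2.2.mono (of_decide_eq_true h1)

theorem sX_le : Bd false {At.brd k_sX.kind.cells} (k_sX.kind.n - 4) :=
  tabU k_sX.mask 4 (by decide +kernel)

theorem sX_mv : ∀ t, BMv false k_sX.kind.cells t →
    Bd true {At.brd t} (k_sX.kind.n - (4 + 2)) := by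
  intro t ht
  obtain ⟨m, rfl, h⟩ := allY_sound (m := k_sX.mask)
    (f := fun t => bnd tab (2 ^ 400) t fun _ R => decide (R ≤ 2)) (by decide +kernel) ht
  exact tabR m 2 h

theorem sY_le : Bd false {At.brd k_sYU.kind.cells} (k_sYU.kind.n - (4 + -2)) :=
  (tabU k_sYU.mask (-2) (by decide +kernel)).mono (by decide)

theorem val_ge : Cw true (.inr .zero) (.inl (lay F).board) := by
  have h := lay_ok F true
  refine toCwL (Net.crude1 (v := 0) (t := false) (Lay.geo h) (Lay.inv h) (lay_I true)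
    (lay_rest true) ?_) (Or.inl rfl)
  rw [lay_kind]
  exact sX_le

theorem val_le : Cw true (.inl (lay F).board) (.inr .quarter) := by
  have h := lay_ok F false
  refine toCwR (Net.crude1 (v := -2) (t := false) (Lay.geo h) (Lay.inv h) (lay_I false)
    (lay_rest false) ?_) (Or.inr (Or.inl rfl))
  rw [lay_kind]
  exact sY_le

theorem val_false (hc : QClosed F) (hv : ¬ QTrue F) :
    Same (.inl (lay F).board) (.inr .zero) := by
  have h := lay_ok F false
  refine ⟨toCwR (lift0 ((Net.main (Lay.geo h) (lay_tr hc (iff_of_false (by simp) hv)) (lay_I false)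
    _ _ (Lay.inv h) (lay_rest false)).1 ?_)) (Or.inl rfl), val_ge⟩
  rw [lay_kind, lay_R]
  exact ⟨1, by norm_num, k_sYU.mask, by decide +kernel, rfl, rfl⟩

theorem val_true (hc : QClosed F) (hv : QTrue F) :
    Same (.inl (lay F).board) (.inr .quarter) ∧ Cw false (.inr .zero) (.inl (lay F).board) := by
  have h := lay_ok F true
  have hT := lay_tr (X := true) hc (iff_of_true rfl hv)
  have h0 : ((lay F).net kinds true).R ((0, 0), 0) (.wx ⟨0, [0], 1⟩)
      (((lay F).net kinds true).kind ((0, 0), 0)).cells := by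
    rw [lay_kind, lay_R]
    exact ⟨2, by norm_num, k_sX.mask, by decide +kernel, rfl, rfl⟩
  refine ⟨⟨val_le, toCwL (Net.gap (Lay.geo h) hT (lay_I true) h0 ?_ ?_ _ _ (Lay.inv h) rfl
    (lay_rest true)) (Or.inr (Or.inl rfl))⟩, ?_⟩
  · rw [lay_kind]
    exact sX_le
  · rw [lay_kind]
    exact sX_mv
  · exact toCwL (lift0 ((Net.main (Lay.geo h) hT (lay_I true) _ _ (Lay.inv h)
      (lay_rest true)).2 h0)) (Or.inl rfl)

variable {S : Finset (ℕ × ℕ)} {z : ℕ}

theorem mv_of {p : Bool} {c : ℕ × ℕ} {R : Multiset (ℕ × ℕ)}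
    (h : S.val = c ::ₘ nb p c ::ₘ R) : ∃ U, Move p S U ∧ U.val = R := by
  refine ⟨_, ⟨c, ?_, ?_, rfl⟩, ?_⟩
  · rw [Finset.mem_def, h]
    simp
  · rw [Finset.mem_def, h]
    simp
  · rw [Finset.erase_val, Finset.erase_val, h, Multiset.erase_cons_head, Multiset.erase_cons_head]

theorem play_of (T : Finset (ℕ × ℕ)) (n : ℕ) : ∀ (A B : Multiset (ℕ × ℕ)) (S : Finset (ℕ × ℕ)),
    A.card = n → B.card = n →
    S.val = T.val + A + A.map (nb true) + B + B.map (nb false) → Play S T := by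
  induction n with
  | zero =>
    intro A B S hA hB h
    rw [Multiset.card_eq_zero] at hA hB
    subst hA hB
    obtain rfl : S = T := Finset.val_inj.1 (by simpa using h)
    exact Play.refl _
  | succ n ih =>
    intro A B S hA hB h
    obtain ⟨a, ha⟩ := Multiset.card_pos_iff_exists_mem.1 (by omega : 0 < A.card)
    obtain ⟨b, hb⟩ := Multiset.card_pos_iff_exists_mem.1 (by omega : 0 < B.card)
    obtain ⟨A, rfl⟩ := Multiset.exists_cons_of_mem ha
    obtain ⟨B, rfl⟩ := Multiset.exists_cons_of_mem hb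
    have e : S.val = a ::ₘ nb true a ::ₘ b ::ₘ nb false b ::ₘ
        (T.val + A + A.map (nb true) + B + B.map (nb false)) := by
      rw [h, Multiset.map_cons, Multiset.map_cons]
      simp only [← Multiset.singleton_add]
      ac_rfl
    obtain ⟨U, h1, h2⟩ := mv_of e
    obtain ⟨V, h3, h4⟩ := mv_of h2
    exact Play.step h1 h3 (ih A B V (by simpa using hA) (by simpa using hB) h4)

/-- The number of a tile, the first one being `z`. -/
def tyZ (z : ℕ) (F : List Bool × CNF) (a b : ℕ) : ℕ := if a = 0 ∧ b = 0 then z else tyN F a b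

variable (F z) in
/-- The number of the tile of a cell. -/
def gk (p : ℕ × ℕ) : ℕ := tyZ z F (p.1 / 72) (p.2 / 72)

/-- The place of a cell in its tile. -/
def ix (p : ℕ × ℕ) : ℕ := p.2 % 72 * 72 + p.1 % 72

variable (F) in
/-- The full rectangle. -/
def rect : Finset (ℕ × ℕ) :=
  Finset.range (72 * (F.2.length + 2)) ×ˢ Finset.range (72 * (2 * F.1.length + 2))

variable (F z) in
/-- The cells marked by a mask for each tile. -/
def msk (m : ℕ → ℕ) : Finset (ℕ × ℕ) := (rect F).filter fun p => tb (m (gk F z p)) (ix p) = true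

/-- Vertical dominoes. -/
def vm (k : ℕ) : ℕ := vms.getD k 0

/-- Horizontal dominoes. -/
def hm (k : ℕ) : ℕ := hms.getD k 0

theorem tyN_lt (a b : ℕ) : tyN F a b < 12 := by
  unfold tyN
  split_ifs <;> omega

theorem tyZ_lt (hz : z < 13) (a b : ℕ) : tyZ z F a b < 13 := by
  have := tyN_lt (F := F) a b
  unfold tyZ
  split_ifs <;> omega

theorem tile_facts {k : ℕ} (h : k < 13) : cnt (vm k) = cnt (hm k) ∧
    ∀ i < 72, ∀ j < 72, pchk (cms k) (fm k) (vm k) (hm k) i j = true := by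
  have := tchk_ok k h
  simp only [tchk, force_eq, Bool.and_eq_true, List.all_eq_true, List.mem_range,
    Nat.beq_eq] at this
  exact ⟨this.2, this.1⟩

theorem ne_true_of {b : Bool} (h : b = true) : ¬ b = false := by simp [h]

theorem pfacts (hz : z < 13) (p : ℕ × ℕ) :
    (tb (fm (gk F z p)) (ix p)).toNat + (tb (vm (gk F z p)) (ix p)).toNat +
      (Nat.ble 1 (p.2 % 72) && tb (vm (gk F z p)) (ix p - 72)).toNat +
      (tb (hm (gk F z p)) (ix p)).toNat +
      (Nat.ble 1 (p.1 % 72) && tb (hm (gk F z p)) (ix p - 1)).toNat = 1 ∧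
    (tb (vm (gk F z p)) (ix p) = true → p.2 % 72 < 71) ∧
    (tb (hm (gk F z p)) (ix p) = true → p.1 % 72 < 71) ∧
    (tb (cms (gk F z p)) (ix p) = true → tb (fm (gk F z p)) (ix p) = true) ∧
    (tb (fm (gk F z p)) (ix p) = true → tb (cms (gk F z p)) (ix p) = true ∨
      (1 ≤ p.1 % 72 ∧ p.1 % 72 < 71 ∧ 1 ≤ p.2 % 72 ∧ p.2 % 72 < 71 ∧
        tb (fm (gk F z p)) (ix p + 1) = false ∧ tb (fm (gk F z p)) (ix p - 1) = false ∧
        tb (fm (gk F z p)) (ix p + 72) = false ∧ tb (fm (gk F z p)) (ix p - 72) = false)) := by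
  have := (tile_facts (tyZ_lt (F := F) hz (p.1 / 72) (p.2 / 72))).2 (p.1 % 72) (by omega)
    (p.2 % 72) (by omega)
  rw [pchk, force_eq] at this
  simp only [Bool.and_eq_true, Bool.or_eq_true, Nat.beq_eq, Nat.blt_eq, Nat.ble_eq,
    Bool.not_eq_true'] at this
  obtain ⟨h1, h2, h3, h4, h5⟩ := this
  refine ⟨h1, fun h => h2.resolve_left (ne_true_of h), fun h => h3.resolve_left (ne_true_of h),
    fun h => h4.resolve_left (ne_true_of h), fun h => h5.imp_right fun h6 => ?_⟩
  exact h6.resolve_left (ne_true_of h)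

theorem mem_rect {p : ℕ × ℕ} :
    p ∈ rect F ↔ p.1 < 72 * (F.2.length + 2) ∧ p.2 < 72 * (2 * F.1.length + 2) := by
  simp only [rect, Finset.mem_product, Finset.mem_range]

theorem mem_msk {m : ℕ → ℕ} {p : ℕ × ℕ} :
    p ∈ msk F z m ↔ p ∈ rect F ∧ tb (m (gk F z p)) (ix p) = true := Finset.mem_filter

theorem gk_down {x y : ℕ} (h : y % 72 < 71) :
    gk F z (x, y + 1) = gk F z (x, y) ∧ ix (x, y + 1) = ix (x, y) + 72 := by
  simp only [gk, ix]
  exact ⟨by rw [show (y + 1) / 72 = y / 72 by omega], by omega⟩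

theorem gk_right {x y : ℕ} (h : x % 72 < 71) :
    gk F z (x + 1, y) = gk F z (x, y) ∧ ix (x + 1, y) = ix (x, y) + 1 := by
  simp only [gk, ix]
  exact ⟨by rw [show (x + 1) / 72 = x / 72 by omega], by omega⟩

theorem mem_map_v (hz : z < 13) (p : ℕ × ℕ) : p ∈ (msk F z vm).val.map (nb true) ↔
    p ∈ rect F ∧ (Nat.ble 1 (p.2 % 72) && tb (vm (gk F z p)) (ix p - 72)) = true := by
  simp only [Multiset.mem_map, ← Finset.mem_def, mem_msk, mem_rect, Bool.and_eq_true, Nat.ble_eq]
  constructor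
  · rintro ⟨⟨x, y⟩, ⟨h1, h2⟩, rfl⟩
    have h3 := (pfacts hz (x, y)).2.1 h2
    have h4 := gk_down (F := F) (z := z) (x := x) h3
    change ((x, y + 1).1 < _ ∧ (x, y + 1).2 < _) ∧ 1 ≤ (x, y + 1).2 % 72 ∧
      tb (vm (gk F z (x, y + 1))) (ix (x, y + 1) - 72) = true
    rw [h4.1, h4.2, Nat.add_sub_cancel]
    dsimp only at h1 h3 ⊢
    exact ⟨by omega, by omega, h2⟩
  · obtain ⟨x, y⟩ := p
    rintro ⟨h1, h2, h3⟩
    dsimp only at h1 h2
    obtain ⟨y, rfl⟩ : ∃ z, y = z + 1 := ⟨y - 1, by omega⟩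
    have h4 := gk_down (F := F) (z := z) (x := x) (y := y) (by omega)
    rw [h4.1, h4.2, Nat.add_sub_cancel] at h3
    exact ⟨(x, y), ⟨by dsimp only; omega, h3⟩, rfl⟩

theorem mem_map_h (hz : z < 13) (p : ℕ × ℕ) : p ∈ (msk F z hm).val.map (nb false) ↔
    p ∈ rect F ∧ (Nat.ble 1 (p.1 % 72) && tb (hm (gk F z p)) (ix p - 1)) = true := by
  simp only [Multiset.mem_map, ← Finset.mem_def, mem_msk, mem_rect, Bool.and_eq_true, Nat.ble_eq]
  constructor
  · rintro ⟨⟨x, y⟩, ⟨h1, h2⟩, rfl⟩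
    have h3 := (pfacts hz (x, y)).2.2.1 h2
    have h4 := gk_right (F := F) (z := z) (y := y) h3
    change ((x + 1, y).1 < _ ∧ (x + 1, y).2 < _) ∧ 1 ≤ (x + 1, y).1 % 72 ∧
      tb (hm (gk F z (x + 1, y))) (ix (x + 1, y) - 1) = true
    rw [h4.1, h4.2, Nat.add_sub_cancel]
    dsimp only at h1 h3 ⊢
    exact ⟨by omega, by omega, h2⟩
  · obtain ⟨x, y⟩ := p
    rintro ⟨h1, h2, h3⟩
    dsimp only at h1 h2
    obtain ⟨x, rfl⟩ : ∃ z, x = z + 1 := ⟨x - 1, by omega⟩
    have h4 := gk_right (F := F) (z := z) (x := x) (y := y) (by omega)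
    rw [h4.1, h4.2, Nat.add_sub_cancel] at h3
    exact ⟨(x, y), ⟨by dsimp only; omega, h3⟩, rfl⟩

theorem nb_inj (p : Bool) : Function.Injective (nb p) := by
  rintro ⟨x, y⟩ ⟨z, w⟩ h
  cases p <;> simpa [nb] using h

theorem count_of {M : Multiset (ℕ × ℕ)} (h : M.Nodup) {p : ℕ × ℕ} {b : Bool}
    (e : p ∈ M ↔ p ∈ rect F ∧ b = true) : M.count p = if p ∈ rect F then b.toNat else 0 := by
  rw [Multiset.count_eq_of_nodup h]
  by_cases h1 : p ∈ rect F <;> cases b <;> simp [e, h1]

theorem sum_blocks (f : ℕ → ℕ) (n : ℕ) : ∑ x ∈ Finset.range (72 * n), f x =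
    ∑ a ∈ Finset.range n, ∑ i ∈ Finset.range 72, f (72 * a + i) := by
  induction n with
  | zero => simp
  | succ n ih => rw [Nat.mul_succ, Finset.sum_range_add, ih, Finset.sum_range_succ _ n]

theorem card_msk (m : ℕ → ℕ) : (msk F z m).card = ∑ a ∈ Finset.range (F.2.length + 2),
    ∑ b ∈ Finset.range (2 * F.1.length + 2), cnt (m (tyZ z F a b)) := by
  rw [msk, Finset.card_filter, rect, Finset.sum_product, sum_blocks]
  refine Finset.sum_congr rfl fun a _ => ?_
  simp only [sum_blocks, cnt]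
  rw [Finset.sum_comm]
  refine Finset.sum_congr rfl fun b _ => Finset.sum_congr rfl fun i hi =>
    Finset.sum_congr rfl fun j hj => ?_
  rw [Finset.mem_range] at hi hj
  have e1 : gk F z (72 * a + i, 72 * b + j) = tyZ z F a b := by
    simp only [gk]
    rw [show (72 * a + i) / 72 = a by omega, show (72 * b + j) / 72 = b by omega]
  have e2 : ix (72 * a + i, 72 * b + j) = j * 72 + i := by
    simp only [ix]
    omega
  rw [e1, e2]
  cases tb (m (tyZ z F a b)) (j * 72 + i) <;> rfl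

theorem play_rect (hz : z < 13) : Play (rect F) (msk F z fm) := by
  refine play_of _ _ (msk F z vm).val (msk F z hm).val _ rfl ?_ ?_
  · change (msk F z hm).card = (msk F z vm).card
    rw [card_msk, card_msk]
    exact Finset.sum_congr rfl fun a _ => Finset.sum_congr rfl fun b _ =>
      (tile_facts (tyZ_lt hz a b)).1.symm
  · ext p
    simp only [Multiset.count_add]
    rw [count_of (msk F z fm).nodup mem_msk, count_of (msk F z vm).nodup mem_msk,
      count_of (msk F z hm).nodup mem_msk,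
      count_of ((msk F z vm).nodup.map (nb_inj _)) (mem_map_v hz p),
      count_of ((msk F z hm).nodup.map (nb_inj _)) (mem_map_h hz p),
      Multiset.count_eq_of_nodup (rect F).nodup]
    have := (pfacts (F := F) hz p).1
    simp only [← Finset.mem_def]
    split_ifs <;> omega

theorem iso (hz : z < 13) (Y : Bool) (p : ℕ × ℕ) (h1 : p ∈ msk F z fm)
    (h2 : nb Y p ∈ msk F z fm) : p ∈ msk F z cms ∧ nb Y p ∈ msk F z cms := by
  rw [mem_msk] at h1 h2
  rw [mem_msk, mem_msk]
  obtain ⟨x, y⟩ := p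
  refine ⟨⟨h1.1, ((pfacts hz _).2.2.2.2 h1.2).resolve_right fun h => ?_⟩,
    h2.1, ((pfacts hz _).2.2.2.2 h2.2).resolve_right fun h => ?_⟩
  · cases Y
    · have h3 := gk_right (F := F) (z := z) (y := y) h.2.1
      have h4 : tb (fm (gk F z (x + 1, y))) (ix (x + 1, y)) = true := h2.2
      rw [h3.1, h3.2, h.2.2.2.2.1] at h4
      cases h4
    · have h3 := gk_down (F := F) (z := z) (x := x) h.2.2.2.1
      have h4 : tb (fm (gk F z (x, y + 1))) (ix (x, y + 1)) = true := h2.2
      rw [h3.1, h3.2, h.2.2.2.2.2.2.1] at h4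
      cases h4
  · cases Y
    · have h5 : 1 ≤ (x + 1) % 72 := h.1
      have h3 := gk_right (F := F) (z := z) (x := x) (y := y) (by omega)
      have h4 : tb (fm (gk F z (x + 1, y))) (ix (x + 1, y) - 1) = false := h.2.2.2.2.2.1
      rw [h3.1, h3.2, Nat.add_sub_cancel, h1.2] at h4
      cases h4
    · have h5 : 1 ≤ (y + 1) % 72 := h.2.2.1
      have h3 := gk_down (F := F) (z := z) (x := x) (y := y) (by omega)
      have h4 : tb (fm (gk F z (x, y + 1))) (ix (x, y + 1) - 72) = false := h.2.2.2.2.2.2.2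
      rw [h3.1, h3.2, Nat.add_sub_cancel, h1.2] at h4
      cases h4

theorem same_msk (hz : z < 13) : Same (.inl (msk F z cms)) (.inl (msk F z fm)) :=
  same_of_iso _ _ _ (Nat.lt_succ_self _)
    (fun p hp => mem_msk.2 ⟨(mem_msk.1 hp).1, (pfacts hz p).2.2.2.1 (mem_msk.1 hp).2⟩) (iso hz)

theorem mem_board {L : Lay} (hA : L.A = F.2.length + 2) (hB : L.B = 2 * F.1.length + 2)
    {p : ℕ × ℕ} :
    p ∈ L.board ↔ p ∈ rect F ∧ tb (L.ty (p.1 / 72, p.2 / 72)).cm (ix p) = true := by
  have h1 : p.1 % 72 < 72 := by omega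
  have h2 : p.2 % 72 < 72 := by omega
  simp only [Lay.board, Finset.mem_filter, Lay.free, TL.cell, h1, h2, decide_true, Bool.true_and,
    hA, hB]
  exact Iff.rfl

theorem cms_tyN (a b : ℕ) : cms (tyN F a b) = ((lay F).ty (a, b)).cm := by
  have := tyN_lt (F := F) a b
  rw [cms, if_neg (by omega)]
  rfl

theorem board_one : (lay F).board = msk F 1 cms := by
  ext p
  rw [mem_board rfl rfl, mem_msk, gk, tyZ, ← cms_tyN]
  split_ifs with h
  · rw [h.1, h.2, cms_tyN, lay_st]
    rfl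
  · rfl

/-- The position of a formula, isolated cells included. -/
def posR (z : ℕ) (F : List Bool × CNF) : Position :=
  ⟨72 * (2 * F.1.length + 2), 72 * (F.2.length + 2),
    fun r c => tb (fm (gk F z (c, r))) (ix (c, r)), true⟩

theorem posR_cells (F : List Bool × CNF) : (posR z F).cells = msk F z fm := by
  ext ⟨x, y⟩
  simp only [Position.cells, Finset.mem_image, Finset.mem_filter, Finset.mem_univ,
    true_and, Prod.mk.injEq, mem_msk, mem_rect]
  constructor
  · rintro ⟨⟨r, c⟩, h, rfl, rfl⟩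
    exact ⟨⟨c.2, r.2⟩, h⟩
  · rintro ⟨⟨h1, h2⟩, h⟩
    exact ⟨(⟨y, h2⟩, ⟨x, h1⟩), h, rfl, rfl⟩

theorem pt_fm : PT (fun p : ℕ × ℕ => decide (p.2 < 5184) && tb (fm p.1) p.2) := by
  refine pt_of_finite ((List.range 13).product (List.range 5184)) false _ ?_
  rintro ⟨k, x⟩ h
  simp only [List.pair_mem_product, List.mem_range, not_and_or, not_lt] at h
  rcases h with h | h
  · have h1 : tiles.getD k t_EMPTY = t_EMPTY :=
      List.getD_eq_default _ _ (le_trans (by decide) h)
    have h2 : hol.getD k [] = [] := List.getD_eq_default _ _ h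
    have h0 : t_EMPTY.cm = 0 := rfl
    have h3 : fm k = 0 := by rw [fm, cms, if_neg (by omega), h1, h2, h0]; rfl
    simp [h3, tb_eq]
  · simp [Nat.not_lt.2 h]

theorem pt_rows : PT (fun F : List Bool × CNF => (posR z F).rows) := by
  have h4 : PT (fun p : (List Bool × CNF) × ℕ × ℕ => tyN p.1 (p.2.2 / 72) (p.2.1 / 72)) :=
    pt_tyN.comp (f := fun p : (List Bool × CNF) × ℕ × ℕ => (p.1, p.2.2 / 72, p.2.1 / 72))
      (by fun_prop)
  have h0 : PT (fun p : (List Bool × CNF) × ℕ × ℕ => tyZ z p.1 (p.2.2 / 72) (p.2.1 / 72)) :=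
    PT.ite (by fun_prop) (PT.const z) h4
  have h3 : PT (fun p : (List Bool × CNF) × ℕ × ℕ =>
      tb (fm (gk p.1 z (p.2.2, p.2.1))) (ix (p.2.2, p.2.1))) := by
    refine (pt_fm.comp (f := fun p : (List Bool × CNF) × ℕ × ℕ =>
      (tyZ z p.1 (p.2.2 / 72) (p.2.1 / 72), p.2.1 % 72 * 72 + p.2.2 % 72))
      (h0.prodMk (by fun_prop))).congr fun p => ?_
    have : p.2.1 % 72 * 72 + p.2.2 % 72 < 5184 := by omega
    simp only [this, decide_true, Bool.true_and]
    rfl
  have h1 : PT (fun p : (List Bool × CNF) × ℕ => (List.range (72 * (p.1.2.length + 2))).map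
      fun c => tb (fm (gk p.1 z (c, p.2))) (ix (c, p.2))) :=
    PT.map (h3.comp (f := fun q : ((List Bool × CNF) × ℕ) × ℕ => (q.1.1, q.1.2, q.2))
      (by fun_prop)) (by fun_prop)
  have h2 : PT (fun F : List Bool × CNF => (List.range (72 * (2 * F.1.length + 2))).map
      fun r => (List.range (72 * (F.2.length + 2))).map
        fun c => tb (fm (gk F z (c, r))) (ix (c, r))) := PT.map h1 (by fun_prop)
  refine h2.congr fun F => ?_
  rw [← ofFn_range]
  simp only [← ofFn_range]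
  rfl

/-- Pairs of lists of free cells. -/
abbrev Pos2 : Type := List (ℕ × ℕ) × List (ℕ × ℕ)

/-- The comparisons one level below. -/
def succ2 (x : Pos2) : List Pos2 :=
  (Mem.succs (true, x.2)).map (fun y => (y.2, x.1)) ++
    (Mem.succs (false, x.1)).map fun y => (x.2, y.2)

open Classical in
/-- The truth value of a comparison. -/
def W2 (x : Pos2) : Bool := decide (Cw false (.inl x.1.toFinset) (.inl x.2.toFinset))

theorem succs_iff (p : Bool) (L : List (ℕ × ℕ)) (P : Gm → Prop) :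
    (∃ y ∈ Mem.succs (p, L), P (.inl y.2.toFinset)) ↔ ∃ c, Opt p (.inl L.toFinset) c ∧ P c := by
  simp only [Mem.succs, List.mem_map, List.mem_filter, decide_eq_true_eq]
  constructor
  · rintro ⟨_, ⟨c, ⟨h1, h2⟩, rfl⟩, h⟩
    rw [Mem.toFinset_filter_eq] at h
    exact ⟨.inl _, ⟨c, List.mem_toFinset.2 h1, List.mem_toFinset.2 h2, rfl⟩, h⟩
  · rintro ⟨T | j, h1, h⟩
    · obtain ⟨c, h1, h2, rfl⟩ := h1
      refine ⟨_, ⟨c, ⟨List.mem_toFinset.1 h1, List.mem_toFinset.1 h2⟩, rfl⟩, ?_⟩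
      rwa [Mem.toFinset_filter_eq]
    · exact h1.elim

theorem W2_eq (x : Pos2) : W2 x = (succ2 x).any (fun y => !W2 y) := by
  rw [Bool.eq_iff_iff]
  simp only [W2, succ2, List.any_append, List.any_map, Bool.or_eq_true, List.any_eq_true,
    Function.comp, Bool.not_eq_true', decide_eq_false_iff_not, decide_eq_true_eq]
  rw [Cw.lf_iff, succs_iff true x.2 fun c => ¬ Cw false c (.inl x.1.toFinset),
    succs_iff false x.1 fun c => ¬ Cw false (.inl x.2.toFinset) c]

theorem succ2_spec {x y : Pos2} {B : ℕ} (h : y ∈ succ2 x) (h1 : sz x.1 ≤ B) (h2 : sz x.2 ≤ B) :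
    y.1.length + y.2.length < x.1.length + x.2.length ∧ sz y.1 ≤ B ∧ sz y.2 ≤ B := by
  simp only [succ2, List.mem_append, List.mem_map] at h
  rcases h with ⟨z, hz, rfl⟩ | ⟨z, hz, rfl⟩ <;>
    · have := Mem.succs_spec hz
      dsimp only at this ⊢
      omega

theorem len_succ2 {x : Pos2} {B : ℕ} (h1 : sz x.1 ≤ B) (h2 : sz x.2 ≤ B) :
    (succ2 x).length ≤ 2 * B := by
  have : ∀ p L, (Mem.succs (p, L)).length ≤ sz L := fun p L => by
    simp only [Mem.succs, List.length_map]
    exact (List.length_filter_le _ _).trans (length_le_sz _)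
  have b1 := this true x.2
  have b2 := this false x.1
  simp only [succ2, List.length_append, List.length_map]
  omega

theorem sz_pos2 {l : List Pos2} {B : ℕ} (h : ∀ y ∈ l, sz y.1 ≤ B ∧ sz y.2 ≤ B)
    (hl : l.length ≤ 4 * B) : sz l ≤ 4 * B * (2 * (3 * B + 1) + 1) := by
  refine (sz_le_of_forall (B := 3 * B + 1) fun y hy => ?_).trans (Nat.mul_le_mul_right _ hl)
  have := h y hy
  obtain ⟨a, b⟩ := y
  simp only [sz_prod] at this ⊢
  omega

theorem pt_succ2 : PT succ2 := by
  have h1 := Mem.pt_succs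
  unfold succ2
  fun_prop

theorem code2_eq (p : Position × Position) : code2 p = enc (p.1.rows, p.2.rows) :=
  agree_prod (agree_list (agree_list agree_bool)) (agree_list (agree_list agree_bool)) _

open Classical in
theorem same_inPSpace :
    PSpace code2 (fun p => decide (Same (.inl p.1.cells) (.inl p.2.cells))) := by
  have h1 := pt_succ2
  have h2 := Mem.pt_cellsL
  have h3 : PB (fun d : List (List Bool) × List (List Bool) =>
      sz (Mem.cellsL d.1) + sz (Mem.cellsL d.2)) :=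
    (show PT (fun d : List (List Bool) × List (List Bool) => Mem.cellsL d.1) by
      fun_prop).pb_sz.add
    (show PT (fun d : List (List Bool) × List (List Bool) => Mem.cellsL d.2) by fun_prop).pb_sz
  refine Mem.pspace_of_iter (σ := List (List Pos2)) code2 (fun p => (p.1.rows, p.2.rows))
    code2_eq _ (init := fun d => [succ2 (Mem.cellsL d.1, Mem.cellsL d.2) ++
      succ2 (Mem.cellsL d.2, Mem.cellsL d.1)]) (step := Mem.dStep succ2) (done := Mem.dDone)
    (out := fun st => !st.isEmpty) (by fun_prop) (by unfold Mem.dStep; fun_prop)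
    (by unfold Mem.dDone; fun_prop) (by fun_prop)
    (B := fun d => (sz (Mem.cellsL d.1) + sz (Mem.cellsL d.2) + 1) *
      (2 * (4 * (sz (Mem.cellsL d.1) + sz (Mem.cellsL d.2)) *
        (2 * (3 * (sz (Mem.cellsL d.1) + sz (Mem.cellsL d.2)) + 1) + 1)) + 1))
    ((h3.add (PB.const 1)).mul (((PB.const 2).mul (((PB.const 4).mul h3).mul (((PB.const 2).mul
      (((PB.const 3).mul h3).add (PB.const 1))).add (PB.const 1)))).add (PB.const 1)))
    (fun P => ?_)
  have e1 : (Mem.cellsL P.1.rows).toFinset = P.1.cells := Mem.cells_eq P.1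
  have e2 : (Mem.cellsL P.2.rows).toFinset = P.2.cells := Mem.cells_eq P.2
  dsimp only
  generalize Mem.cellsL P.1.rows = L at e1 ⊢
  generalize Mem.cellsL P.2.rows = M at e2 ⊢
  have l1 := length_le_sz L
  have l2 := length_le_sz M
  have b1 : sz L ≤ sz L + sz M := by omega
  have b2 : sz M ≤ sz L + sz M := by omega
  have hs : ∀ y ∈ succ2 (L, M) ++ succ2 (M, L), y.1.length + y.2.length < sz L + sz M ∧
      sz y.1 ≤ sz L + sz M ∧ sz y.2 ≤ sz L + sz M := by
    intro y hy
    rcases List.mem_append.1 hy with h | h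
    · have := succ2_spec h b1 b2
      dsimp only at this
      omega
    · have := succ2_spec h b2 b1
      dsimp only at this
      omega
  have hr := Mem.dfs_run (succs := succ2) (W := W2) (G := fun n x =>
      x.1.length + x.2.length < n ∧ sz x.1 ≤ sz L + sz M ∧ sz x.2 ≤ sz L + sz M)
    (F := 4 * (sz L + sz M) * (2 * (3 * (sz L + sz M) + 1) + 1))
    (B := (sz L + sz M + 1) * (2 * (4 * (sz L + sz M) * (2 * (3 * (sz L + sz M) + 1) + 1)) + 1))
    (fun x h => by omega)
    (fun n x h y hy => by have := succ2_spec hy h.2.1 h.2.2; omega)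
    (fun n x h => sz_pos2 (fun y hy => (succ2_spec hy h.2.1 h.2.2).2)
      (by have := len_succ2 h.2.1 h.2.2; omega))
    W2_eq (sz L + sz M) (succ2 (L, M) ++ succ2 (M, L)) [] hs
    (sz_pos2 (fun y hy => (hs y hy).2) (by
      have := len_succ2 (x := (L, M)) b1 b2
      have := len_succ2 (x := (M, L)) b2 b1
      rw [List.length_append]
      omega)) (by simp)
  rw [List.any_append, ← W2_eq, ← W2_eq] at hr
  refine ⟨_, hr, ?_, ?_⟩
  · cases (W2 (L, M) || W2 (M, L)) <;> rfl
  · have : (!(W2 (L, M) || W2 (M, L))) =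
        decide (Same (.inl P.1.cells) (.inl P.2.cells)) := by
      rw [Bool.eq_iff_iff]
      simp only [W2, Same, e1, e2, Cw.le_iff, Bool.not_eq_true', Bool.or_eq_false_iff,
        decide_eq_false_iff_not, decide_eq_true_eq]
      exact and_comm
    rw [← this]
    cases (W2 (L, M) || W2 (M, L)) <;> rfl

theorem PSpace.compl {L : List Bool → Bool} (h : PSpace id L) : PSpace id fun x => !L x := by
  obtain ⟨M, p, h⟩ := h
  refine ⟨⟨⟨M.tm, M.inputAlphabet, M.outputAlphabet.trans Equiv.boolNot⟩, fun a => ?_⟩, p, h⟩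
  have e : List.map (M.outputAlphabet.trans Equiv.boolNot).invFun
      (Computability.encodeBool (!L a)) =
      List.map M.outputAlphabet.invFun (Computability.encodeBool (L a)) := by
    cases L a <;> rfl
  exact e ▸ M.outputsFun a

/-- The empty board. -/
def pos0 : Position := ⟨0, 0, fun i => i.elim0, true⟩

theorem hard (hz : z < 13) (g : Form)
    (h0 : ∀ F, QClosed F → ¬ QTrue F → Same (.inl (msk F z cms)) (.inr .zero))
    (h1 : ∀ F, QClosed F → QTrue F → Same (.inl (msk F z cms)) (.inr g) ∧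
      Cw false (.inr .zero) (.inl (msk F z cms))) (L : List Bool → Bool) (hL : PSpace id L) :
    ∃ f : List Bool → Position × Position,
      Nonempty (Turing.TM2ComputableInPolyTime id code2 f) ∧
      ∀ x, Play (Finset.range (f x).1.n ×ˢ Finset.range (f x).1.m) (f x).1.cells ∧
        (f x).2.cells = ∅ ∧
        (L x = true ↔ Same (.inl (f x).1.cells) (.inl (f x).2.cells)) ∧
        (L x = false → Same (.inl (f x).1.cells) (.inr g)) := by
  obtain ⟨u, hu, h⟩ := qbfHard _ hL.compl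
  have e0 : pos0.cells = ∅ := by simp [Position.cells, pos0]
  refine ⟨fun x => (posR z (u x), pos0), ?_, fun x => ⟨?_, e0, ?_⟩⟩
  · have hx : PT Raw.bits := CP.toBits (α := Raw) CP.enc
    have h1 : PT (fun F : List Bool × CNF => ((posR z F).rows, pos0.rows)) :=
      pt_rows.prodMk (PT.const _)
    obtain ⟨c, t, ⟨q, hq⟩, hc⟩ := h1.comp (hu.comp hx)
    refine polyTime_of_exec _ _ _ c q fun x => ?_
    rw [code2_eq]
    exact (hc x).weaken (hq x)
  · dsimp only
    rw [posR_cells]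
    exact play_rect hz
  · dsimp only
    rw [e0, posR_cells]
    obtain ⟨h2, h3⟩ := h x
    cases e : L x
    · have h4 := h1 _ h2 (h3.1 (by rw [e]; rfl))
      exact ⟨iff_of_false (by simp) fun h5 =>
        (((same_msk hz).trans h5).trans zero_empty.symm).1.excl h4.2,
        fun _ => (same_msk hz).symm.trans h4.1⟩
    · have h4 := h0 _ h2 fun h4 => by simpa [e] using h3.2 h4
      exact ⟨iff_of_true rfl (((same_msk hz).symm.trans h4).trans zero_empty),
        fun h5 => by cases h5⟩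

end

end Pool.Agent.MP_79e5e2_lc
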