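import Mathlib
import Pool.Agent.MP_79e5e2_lc.Defs

/-! Game values of Domineering positions: Conway's order. -/

namespace Pool.Agent.MP_79e5e2_lc

/-- Game forms with at most one option for each player: `{ | }`, `{a | }` and `{a | b}`. -/
inductive Form : Type
  | zero : Form
  | lft (a : Form) : Form
  | both (a b : Form) : Form

/-- The number `1 / 4 = {0 | 1 / 2}`, where `1 / 2 = {0 | 1}` and `1 = {0 | }`. -/
def Form.quarter : Form := .both .zero (.both .zero (.lft .zero))

/-- The infinitesimal `↑ = {0 | *}`, where `* = {0 | 0}`. -/
def Form.up : Form := .both .zero (.both .zero .zero)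

/-- Games: Domineering positions and game forms. -/
abbrev Gm : Type := Finset (ℕ × ℕ) ⊕ Form

/-- Options of Left (`true`) and of Right (`false`). -/
def Opt (left : Bool) : Gm → Gm → Prop
  | .inl S, .inl T => Move left S T
  | .inr (.lft a), .inr g => left = true ∧ g = a
  | .inr (.both a b), .inr g => g = if left then a else b
  | .inr .zero, .inr _ => False
  | .inl _, .inr _ => False
  | .inr _, .inl _ => False

/-- Conway's order: `Cw true a b` is `a ≤ b`, and `Cw false a b` is `a ⧏ b`. -/
inductive Cw : Bool → Gm → Gm → Prop
  | le {a b : Gm} : (∀ c, Opt true a c → Cw false c b) → (∀ c, Opt false b c → Cw false a c) →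
      Cw true a b
  | lfL {a b c : Gm} : Opt true b c → Cw true a c → Cw false a b
  | lfR {a b c : Gm} : Opt false a c → Cw true c b → Cw false a b

/-- The two games have the same value. -/
def Same (a b : Gm) : Prop := Cw true a b ∧ Cw true b a

/-- `Play S T`: alternate play from `S`, Left moving first, leads to `T` with Left to move. -/
inductive Play : Finset (ℕ × ℕ) → Finset (ℕ × ℕ) → Prop
  | refl (S : Finset (ℕ × ℕ)) : Play S S
  | step {S T U V : Finset (ℕ × ℕ)} : Move true S T → Move false T U → Play U V → Play S V

/-- The rows of the matrix. -/
def Position.rows (P : Position) : List (List Bool) :=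
  List.ofFn fun i => List.ofFn fun j => P.free i j

/-- The bit string describing two boards. -/
def code2 (p : Position × Position) : List Bool :=
  N487b59b3.bitEncode ((p.1.rows, p.2.rows) : List (List Bool) × List (List Bool))

end Pool.Agent.MP_79e5e2_lc
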